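import Pool.Agent.Lib.MP_021685_agTJ.JB4

/-! LEAF JB5 (easy+).  The volume of an affine preimage of a simplex.

PROOF.  `x ↦ A.mulVec x + c` is the composition of the linear map `Matrix.toLin' A` and a translation.  `MeasureTheory.Measure.addHaar_preimage_linearMap` (`det ≠ 0`, `LinearMap.det_toLin'`): the volume of the preimage of a set `T` is `ofReal |det A|⁻¹ * volume T`; the translate of the simplex has the same volume
(`MeasureTheory.measure_preimage_add_right`).  So it is `ofReal |det A|⁻¹ * volume(simplex) ≥ ofReal (D⁻¹) * ofReal (t^n/n!)` (`simplex_vol`; `0 < |det A| ≤ D`). -/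

namespace TJ

theorem vol_preimage {n : ℕ} (A : Matrix (Fin n) (Fin n) ℝ) (hA : A.det ≠ 0) (c : Fin n → ℝ) {D t : ℝ}
    (hD : |A.det| ≤ D) (ht : 0 ≤ t) :
    ENNReal.ofReal (t ^ n / ((n.factorial : ℝ) * D)) ≤
      MeasureTheory.volume {x : Fin n → ℝ | (∀ i, 0 ≤ A.mulVec x i + c i) ∧ ∑ i, (A.mulVec x i + c i) ≤ t} := by
  have hS : {x : Fin n → ℝ | (∀ i, 0 ≤ A.mulVec x i + c i) ∧ ∑ i, (A.mulVec x i + c i) ≤ t} =
      (Matrix.toLin' A) ⁻¹' ((fun y : Fin n → ℝ => y + c) ⁻¹'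
        {x : Fin n → ℝ | (∀ i, 0 ≤ x i) ∧ ∑ i, x i ≤ t}) := by
    ext x
    simp only [Set.mem_ofPred_eq, Set.mem_preimage, Matrix.toLin'_apply, Pi.add_apply]
  have hdet : LinearMap.det (Matrix.toLin' A) ≠ 0 := by
    rw [LinearMap.det_toLin']
    exact hA
  rw [hS, MeasureTheory.Measure.addHaar_preimage_linearMap _ hdet,
    MeasureTheory.measure_preimage_add_right, LinearMap.det_toLin']
  have h0 : 0 < |A.det| := abs_pos.2 hA
  have hD0 : 0 < D := lt_of_lt_of_le h0 hD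
  have h1 : t ^ n / ((n.factorial : ℝ) * D) = D⁻¹ * (t ^ n / (n.factorial : ℝ)) := by
    have : (n.factorial : ℝ) ≠ 0 := by exact_mod_cast n.factorial_ne_zero
    field_simp
  rw [h1, ENNReal.ofReal_mul (inv_nonneg.2 hD0.le)]
  refine mul_le_mul' (ENNReal.ofReal_le_ofReal ?_) (simplex_vol n ht)
  rw [abs_inv]
  exact inv_anti₀ h0 hD

end TJ
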