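import Mathlib

/-! LEAF JB3 (medium, Mathlib only).  Hadamard's inequality.

PROOF.  In `EuclideanSpace ℝ (Fin n)` with the orientation of the standard orthonormal basis, `Orientation.abs_volumeForm_apply_le`: `|volumeForm (v_1, .., v_n)| ≤ ∏ ‖v_j‖`, and the volume form of the columns is the determinant
(`Orientation.volumeForm_robust`, `OrthonormalBasis.toBasis.det`, `Basis.det_apply`, `Module.Basis.toMatrix`); `‖v_j‖ = √(∑_i A i j ^ 2)` (`EuclideanSpace.norm_eq`).  (`Fact (finrank ℝ (EuclideanSpace ℝ (Fin n)) = n)`.) -/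

namespace TJ

theorem hadamard {n : ℕ} (A : Matrix (Fin n) (Fin n) ℝ) :
    |A.det| ≤ ∏ j, Real.sqrt (∑ i, A i j ^ 2) := by
  classical
  have : Fact (Module.finrank ℝ (EuclideanSpace ℝ (Fin n)) = n) := ⟨by simp⟩
  let b : OrthonormalBasis (Fin n) ℝ (EuclideanSpace ℝ (Fin n)) := EuclideanSpace.basisFun (Fin n) ℝ
  rcases Nat.eq_zero_or_pos n with hn | hn
  · subst hn
    simp
  have : NeZero n := ⟨hn.ne'⟩
  let o : Orientation ℝ (EuclideanSpace ℝ (Fin n)) (Fin n) := b.toBasis.orientation
  let v : Fin n → EuclideanSpace ℝ (Fin n) := fun j => WithLp.toLp 2 (fun i => A i j)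
  have h1 := o.abs_volumeForm_apply_le v
  have h2 : o.volumeForm = b.toBasis.det := o.volumeForm_robust b rfl
  rw [h2, Module.Basis.det_apply] at h1
  have h3 : b.toBasis.toMatrix v = A := by
    ext i j
    simp [Module.Basis.toMatrix_apply, b, v]
  rw [h3] at h1
  refine h1.trans (le_of_eq ?_)
  refine Finset.prod_congr rfl fun j _ => ?_
  rw [EuclideanSpace.norm_eq]
  simp [v]

end TJ
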