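import Pool.Agent.Lib.MP_021685_agTJ.JB2
import Pool.Agent.Lib.MP_021685_agTJ.JB3

/-! LEAF JB6 (medium).  The determinant of the values.

PROOF.  (1) `det ≠ 0`: otherwise there is `x ≠ 0` with `Am.mulVec x = 0` (`Matrix.exists_mulVec_eq_zero_iff`): the real polynomial `R = ∑_{i<g} x_i (bas q i).map` vanishes at the nodes `1, .., g`, which are distinct (`cos` is strictly decreasing on `[0, π]`, `√q > 0`); it has degree `< g` (`bas_monic`), so `R = 0`;
the `bas q i` are monic of degree `i`, so the coefficient of the largest `i` with `x_i ≠ 0` gives a contradiction.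
(2) `hadamard` for the columns: `∑_j (Am j i)² = ∑_{j=1}^{g} EE q g i j ^ 2 ≤ 2 g ((√q)^i)²` (`col_norm`), so the norm of column `i` is at most `√(2g) (√q)^i`; the product over `i < g` is `√(2g)^g (√q)^(g(g-1)/2)` (`Finset.sum_range_id`). -/

namespace TJ

open Polynomial TI

private theorem JB6_node {q g : ℕ} (hq : 1 ≤ q) (hg : 1 ≤ g) :
    Set.InjOn (fun j : Fin g => node q g ((j : ℕ) + 1)) (Finset.univ : Finset (Fin g)) := by
  intro j _ k _ h
  have hg0 : (0 : ℝ) < g := by exact_mod_cast hg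
  have hsq : (0 : ℝ) < Real.sqrt q := Real.sqrt_pos.2 (by exact_mod_cast hq)
  have hmem : ∀ j : Fin g, Real.pi * (((j : ℕ) + 1 : ℕ) : ℝ) / g ∈ Set.Icc 0 Real.pi := by
    intro j
    have h1 : ((((j : ℕ) + 1 : ℕ)) : ℝ) ≤ g := by exact_mod_cast j.isLt
    have h2 : (0 : ℝ) ≤ ((((j : ℕ) + 1 : ℕ)) : ℝ) := Nat.cast_nonneg _
    constructor
    · positivity
    · rw [div_le_iff₀ hg0]
      exact mul_le_mul_of_nonneg_left h1 Real.pi_pos.le
  have h1 : Real.cos (Real.pi * (((j : ℕ) + 1 : ℕ) : ℝ) / g) =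
      Real.cos (Real.pi * (((k : ℕ) + 1 : ℕ) : ℝ) / g) := by
    have h2 : 2 * Real.sqrt q * Real.cos (Real.pi * (((j : ℕ) + 1 : ℕ) : ℝ) / g) =
        2 * Real.sqrt q * Real.cos (Real.pi * (((k : ℕ) + 1 : ℕ) : ℝ) / g) := h
    exact mul_left_cancel₀ (by positivity) h2
  have h2 := Real.strictAntiOn_cos.injOn (hmem j) (hmem k) h1
  have h3 : Real.pi * (((j : ℕ) + 1 : ℕ) : ℝ) = Real.pi * (((k : ℕ) + 1 : ℕ) : ℝ) := by
    have h4 := congrArg (fun t : ℝ => t * g) h2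
    simpa [div_mul_cancel₀ _ hg0.ne'] using h4
  have h4 : (((j : ℕ) + 1 : ℕ) : ℝ) = (((k : ℕ) + 1 : ℕ) : ℝ) := mul_left_cancel₀ Real.pi_pos.ne' h3
  have h5 : (j : ℕ) + 1 = (k : ℕ) + 1 := by exact_mod_cast h4
  exact Fin.ext (by omega)

private theorem JB6_indep {q g : ℕ} (x : Fin g → ℝ)
    (h : ∑ i : Fin g, C (x i) * (bas q i).map (Int.castRingHom ℝ) = 0) : x = 0 := by
  classical
  by_contra hx
  have hne : (Finset.univ.filter fun i : Fin g => x i ≠ 0).Nonempty := by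
    obtain ⟨i, hi⟩ := Function.ne_iff.1 hx
    exact ⟨i, Finset.mem_filter.2 ⟨Finset.mem_univ _, hi⟩⟩
  set k := (Finset.univ.filter fun i : Fin g => x i ≠ 0).max' hne with hk
  have hk0 : x k ≠ 0 := (Finset.mem_filter.1 (Finset.max'_mem _ hne)).2
  have hk1 : ∀ i, k < i → x i = 0 := by
    intro i hi
    by_contra h1
    exact absurd (Finset.le_max' _ i (Finset.mem_filter.2 ⟨Finset.mem_univ _, h1⟩)) (not_le.2 hi)
  have h1 := congrArg (fun P : ℝ[X] => P.coeff (k : ℕ)) h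
  simp only [finsetSum_coeff, coeff_C_mul, coeff_map, coeff_zero] at h1
  rw [Finset.sum_eq_single k] at h1
  · have h2 : (bas q (k : ℕ)).coeff (k : ℕ) = 1 := by
      obtain ⟨h3, h4⟩ := bas_monic q (k : ℕ)
      have h5 := h3.coeff_natDegree
      rw [h4] at h5
      exact h5
    rw [h2, map_one, mul_one] at h1
    exact hk0 h1
  · intro i _ hik
    rcases lt_or_gt_of_ne hik with h2 | h2
    · have h3 : (bas q (i : ℕ)).coeff (k : ℕ) = 0 := by
        apply coeff_eq_zero_of_natDegree_lt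
        rw [(bas_monic q (i : ℕ)).2]
        exact h2
      rw [h3, map_zero, mul_zero]
    · rw [hk1 i h2, zero_mul]
  · intro h2
    exact absurd (Finset.mem_univ k) h2

private theorem JB6_ne {q g : ℕ} (hq : 1 ≤ q) (hg : 1 ≤ g) : (Am q g).det ≠ 0 := by
  intro hdet
  obtain ⟨x, hx0, hx⟩ := Matrix.exists_mulVec_eq_zero_iff.2 hdet
  apply hx0
  apply JB6_indep (q := q)
  refine eq_zero_of_degree_lt_of_eval_index_eq_zero (Finset.univ : Finset (Fin g)) (JB6_node hq hg) ?_ ?_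
  · rw [Finset.card_univ, Fintype.card_fin]
    rw [← mem_degreeLT]
    refine Submodule.sum_mem _ fun i _ => mem_degreeLT.2 ?_
    refine lt_of_le_of_lt (degree_mul_le _ _) ?_
    refine lt_of_le_of_lt (add_le_add degree_C_le (degree_map_le)) ?_
    rw [zero_add, degree_eq_natDegree (bas_monic q (i : ℕ)).1.ne_zero, (bas_monic q (i : ℕ)).2]
    exact_mod_cast i.isLt
  · intro j _
    have h1 := congrFun hx j
    have h2 : ∑ i : Fin g, ((-1 : ℝ) ^ ((j : ℕ) + 1) * EE q g i ((j : ℕ) + 1)) * x i = 0 := h1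
    have h3 : (-1 : ℝ) ^ ((j : ℕ) + 1) * ∑ i : Fin g, x i * EE q g i ((j : ℕ) + 1) = 0 := by
      rw [Finset.mul_sum, ← h2]
      exact Finset.sum_congr rfl fun i _ => by ring
    have h4 : ∑ i : Fin g, x i * EE q g i ((j : ℕ) + 1) = 0 := by
      rcases mul_eq_zero.1 h3 with h5 | h5
      · exact absurd h5 (pow_ne_zero _ (by norm_num))
      · exact h5
    rw [eval_finsetSum, ← h4]
    exact Finset.sum_congr rfl fun i _ => by rw [eval_mul, eval_C]; rfl

private theorem JB6_col {q g : ℕ} (i : Fin g) :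
    Real.sqrt (∑ j : Fin g, Am q g j i ^ 2) ≤ Real.sqrt (2 * g) * Real.sqrt q ^ (i : ℕ) := by
  have h1 : ∑ j : Fin g, Am q g j i ^ 2 = ∑ j ∈ Finset.Icc 1 g, EE q g i j ^ 2 := by
    have h2 : ∀ j : Fin g, Am q g j i ^ 2 = (fun n : ℕ => EE q g i (n + 1) ^ 2) (j : ℕ) := by
      intro j
      change ((-1 : ℝ) ^ ((j : ℕ) + 1) * EE q g i ((j : ℕ) + 1)) ^ 2 = EE q g i ((j : ℕ) + 1) ^ 2
      rw [mul_pow, ← pow_mul, mul_comm ((j : ℕ) + 1) 2, pow_mul, neg_one_sq, one_pow, one_mul]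
    rw [Finset.sum_congr rfl fun j _ => h2 j, Fin.sum_univ_eq_sum_range (fun n : ℕ => EE q g i (n + 1) ^ 2) g]
    have h3 : Finset.Icc 1 g = Finset.Ico (0 + 1) (g + 1) := by
      ext n
      simp only [Finset.mem_Icc, Finset.mem_Ico]
      omega
    rw [h3, ← Finset.sum_Ico_add' (fun n : ℕ => EE q g i n ^ 2) 0 g 1, Finset.range_eq_Ico]
  rw [h1]
  refine (Real.sqrt_le_sqrt (col_norm i.isLt)).trans (le_of_eq ?_)
  rw [Real.sqrt_mul (by positivity), Real.sqrt_sq (by positivity)]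

theorem Am_det {q g : ℕ} (hq : 1 ≤ q) (hg : 1 ≤ g) :
    (Am q g).det ≠ 0 ∧ |(Am q g).det| ≤ Real.sqrt (2 * g) ^ g * Real.sqrt q ^ (g * (g - 1) / 2) := by
  refine ⟨JB6_ne hq hg, (hadamard (Am q g)).trans ?_⟩
  refine (Finset.prod_le_prod (fun i _ => Real.sqrt_nonneg _) fun i _ => JB6_col i).trans (le_of_eq ?_)
  rw [Finset.prod_mul_distrib, Finset.prod_const, Finset.card_univ, Fintype.card_fin,
    Finset.prod_pow_eq_pow_sum, Fin.sum_univ_eq_sum_range (fun n : ℕ => n) g, Finset.sum_range_id]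

end TJ
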