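import Pool.Agent.Lib.MP_021685_agTJ.JB7
import Pool.Agent.Lib.MP_021685_agTI.Fi

/-! LEAF JB8 (medium).  The volume of the region is at most the number of real Weil polynomials.

PROOF.  `W = (Weil_finite q g).toFinset`.  Let `β : (Fin g → ℤ) → ℤ[X]`, `β b = bas q g + ∑ i, C (b i) * bas q i`, injective (`bas_inj`: turn the sums over `Fin g` into sums over `range g`).  `B = {b | β b ∈ Weil q g}` is finite with `|B| ≤ ncard (Weil q g)` (`Set.ncard_le_ncard_of_injOn`).
The region `K` is contained in the union over `b ∈ B` of the sets `{x | ∀ i, round (x i) = b i}` (`round_mem`), each contained in the closed box `∏ [b_i - 1/2, b_i + 1/2]` of volume `1` (`Real.volume_Icc_pi`, `abs_sub_round`).  `MeasureTheory.measure_biUnion_finset_le`. -/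

namespace TJ

open Polynomial TI

/-- the polynomial with the coordinates `b` -/
private noncomputable def JB8_be (q g : ℕ) (b : Fin g → ℤ) : ℤ[X] := bas q g + ∑ i : Fin g, C (b i) * bas q i

private theorem JB8_inj (q g : ℕ) : Function.Injective (JB8_be q g) := by
  intro b b' h
  unfold JB8_be at h
  have h1 := add_left_cancel h
  have key : ∀ c : Fin g → ℤ, ∑ i : Fin g, C (c i) * bas q i =
      ∑ i ∈ Finset.range g, C (if hi : i < g then c ⟨i, hi⟩ else 0) * bas q i := by
    intro c
    rw [Finset.sum_range]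
    refine Finset.sum_congr rfl fun i _ => ?_
    rw [dif_pos i.2]
  rw [key, key] at h1
  have h2 := bas_inj q g _ _ h1
  funext i
  have h3 := h2 i i.2
  rw [dif_pos i.2, dif_pos i.2] at h3
  exact h3

private theorem JB8_box {g : ℕ} (b : Fin g → ℤ) :
    MeasureTheory.volume {x : Fin g → ℝ | ∀ i, round (x i) = b i} ≤ 1 := by
  have h1 : {x : Fin g → ℝ | ∀ i, round (x i) = b i} ⊆
      Set.Icc (fun i => (b i : ℝ) - 1 / 2) (fun i => (b i : ℝ) + 1 / 2) := by
    intro x hx
    have h2 : ∀ i, (b i : ℝ) - 1 / 2 ≤ x i ∧ x i ≤ (b i : ℝ) + 1 / 2 := by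
      intro i
      have h3 := abs_sub_round (x i)
      rw [hx i, abs_le] at h3
      constructor <;> linarith
    exact ⟨fun i => (h2 i).1, fun i => (h2 i).2⟩
  refine (MeasureTheory.measure_mono h1).trans ?_
  rw [Real.volume_Icc_pi]
  refine le_of_eq (Finset.prod_eq_one fun i _ => ?_)
  have e : (b i : ℝ) + 1 / 2 - ((b i : ℝ) - 1 / 2) = 1 := by ring
  rw [e, ENNReal.ofReal_one]

theorem region_le {q g : ℕ} (hq : 2 ≤ q) (hg : 1 ≤ g) :
    MeasureTheory.volume {x : Fin g → ℝ | ∀ j ≤ g, Real.sqrt q ^ g / (Real.sqrt q - 1) ≤ vv q g x j} ≤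
      ((Weil q g).ncard : ENNReal) := by
  have hfin : {b : Fin g → ℤ | JB8_be q g b ∈ Weil q g}.Finite :=
    Set.Finite.preimage (JB8_inj q g).injOn (Weil_finite q g)
  have hcard : hfin.toFinset.card ≤ (Weil q g).ncard := by
    rw [← Set.ncard_eq_toFinset_card _ hfin]
    exact Set.ncard_le_ncard_of_injOn (JB8_be q g) (fun b hb => hb) (JB8_inj q g).injOn (Weil_finite q g)
  have hsub : {x : Fin g → ℝ | ∀ j ≤ g, Real.sqrt q ^ g / (Real.sqrt q - 1) ≤ vv q g x j} ⊆
      ⋃ b ∈ hfin.toFinset, {x : Fin g → ℝ | ∀ i, round (x i) = b i} := by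
    intro x hx
    rw [Set.mem_iUnion₂]
    exact ⟨fun i => round (x i), hfin.mem_toFinset.2 (round_mem hq hg x hx), fun i => rfl⟩
  refine (MeasureTheory.measure_mono hsub).trans ((MeasureTheory.measure_biUnion_finset_le _ _).trans ?_)
  refine (Finset.sum_le_sum fun b _ => JB8_box b).trans ?_
  rw [Finset.sum_const, nsmul_eq_mul, mul_one]
  exact_mod_cast hcard

end TJ
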