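import Pool.Agent.Lib.MP_021685_agTJ.J0
import Pool.Agent.Lib.MP_021685_agTJ.JB5
import Pool.Agent.Lib.MP_021685_agTJ.JB6
import Pool.Agent.Lib.MP_021685_agTJ.JB8

/-! LEAF JB9 (medium).  The lower bound.

PROOF.  `s = √q ≥ 5`, `ρ = s^g/(s-1) ≤ s^g/4`, `t = (7/4) g s^g ≤ 2 g s^g - g ρ`.  `A = Am q g`, `c_j = (-1)^(j+1) EE q g g (j+1) - ρ`, so `(A.mulVec x) j + c j = vv q g x (j+1) - ρ` (`j : Fin g`).
If all `(A.mulVec x) j + c j ≥ 0` and their sum is `≤ t`, then `vv q g x j ≥ ρ` for `1 ≤ j ≤ g`, and by `vv_sum`: `vv 0 / 2 = 2 g s^g - ∑_{0<j<g} vv j - vv g/2 ≥ 2 g s^g - ∑_{j=1}^{g} (vv j - ρ) - (g - 1) ρ - ρ/2 ≥ 2 g s^g - t - g ρ + ρ/2 ≥ ρ/2`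
(using `- vv g/2 = -(vv g - ρ)/2 - ρ/2 ≥ -(vv g - ρ) - ρ/2`).  So the set of `vol_preimage` is contained in the region of `region_le`, and with `D = √(2g)^g s^(g(g-1)/2)` (`Am_det`): `t^g/(g! D) ≤ ncard (Weil q g)` (from `ENNReal.ofReal` back to `ℝ`: `ENNReal.ofReal_le_natCast` or so).
Finally `t^g/(g! D) = (7/4)^g g^g s^(g²)/(g! √(2g)^g s^(g(g-1)/2)) = s^(g(g+1)/2) (7 √g/(4 √2))^g/g! = lowJ s g` (`g²= g(g-1)/2 + g(g+1)/2`, `g/√(2g) = √g/√2`). -/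

namespace TJ

open Polynomial TI

private theorem JB9_mulVec {q g : ℕ} (x : Fin g → ℝ) (r : ℝ) (j : Fin g) :
    (Am q g).mulVec x j + ((-1) ^ ((j : ℕ) + 1) * EE q g g ((j : ℕ) + 1) - r) =
      vv q g x ((j : ℕ) + 1) - r := by
  have h : (Am q g).mulVec x j =
      (-1) ^ ((j : ℕ) + 1) * ∑ i : Fin g, x i * EE q g i ((j : ℕ) + 1) := by
    rw [Finset.mul_sum]
    simp only [Matrix.mulVec, dotProduct, Am]
    apply Finset.sum_congr rfl
    intro i _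
    ring
  rw [h]
  unfold vv
  ring

private theorem JB9_Ioo (f : ℕ → ℝ) (m : ℕ) :
    ∑ j ∈ Finset.Ioo 0 (m + 1), f j = ∑ j ∈ Finset.range m, f (j + 1) := by
  have h : Finset.Ioo 0 (m + 1) = Finset.Ico 1 (m + 1) := by
    ext a
    simp only [Finset.mem_Ioo, Finset.mem_Ico]
    omega
  rw [h, Finset.sum_Ico_eq_sum_range]
  apply Finset.sum_congr (by simp)
  intro i _
  rw [add_comm]

private theorem JB9_subset {q g : ℕ} (hq : 25 ≤ q) (hg : 1 ≤ g) (x : Fin g → ℝ)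
    (h0 : ∀ j : Fin g, 0 ≤ (Am q g).mulVec x j +
      ((-1) ^ ((j : ℕ) + 1) * EE q g g ((j : ℕ) + 1) - Real.sqrt q ^ g / (Real.sqrt q - 1)))
    (h1 : ∑ j : Fin g, ((Am q g).mulVec x j +
      ((-1) ^ ((j : ℕ) + 1) * EE q g g ((j : ℕ) + 1) - Real.sqrt q ^ g / (Real.sqrt q - 1))) ≤
        7 / 4 * g * Real.sqrt q ^ g) :
    ∀ j ≤ g, Real.sqrt q ^ g / (Real.sqrt q - 1) ≤ vv q g x j := by
  have hs : (5 : ℝ) ≤ Real.sqrt q := by
    rw [show (5 : ℝ) = Real.sqrt 25 by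
      rw [show (25 : ℝ) = 5 ^ 2 by norm_num]; rw [Real.sqrt_sq (by norm_num)]]
    exact Real.sqrt_le_sqrt (by exact_mod_cast hq)
  obtain ⟨m, rfl⟩ : ∃ m, g = m + 1 := ⟨g - 1, by omega⟩
  set s := Real.sqrt q with hsdef
  set r := s ^ (m + 1) / (s - 1) with hr
  have hr4 : r ≤ s ^ (m + 1) / 4 := by
    rw [hr]
    apply div_le_div_of_nonneg_left (by positivity) (by norm_num) (by linarith)
  have hsum := vv_sum (q := q) hg x
  rw [JB9_Ioo] at hsum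
  simp only [JB9_mulVec] at h0 h1
  rw [Fin.sum_univ_eq_sum_range (fun j => vv q (m + 1) x (j + 1) - r) (m + 1),
    Finset.sum_range_succ, Finset.sum_sub_distrib] at h1
  simp only [Finset.sum_const, Finset.card_range, nsmul_eq_mul] at h1
  have hlast : r ≤ vv q (m + 1) x (m + 1) := by
    have := h0 ⟨m, by omega⟩
    simpa using this
  intro j hj
  rcases Nat.eq_zero_or_pos j with hj0 | hj0
  · subst hj0
    have hm : ((m : ℝ) + 1) * r ≤ ((m : ℝ) + 1) * (s ^ (m + 1) / 4) :=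
      mul_le_mul_of_nonneg_left hr4 (by positivity)
    push_cast at h1 hsum
    rw [← hsdef] at hsum
    nlinarith [h1, hsum, hlast, hm]
  · have := h0 ⟨j - 1, by omega⟩
    simp only [Nat.sub_add_cancel hj0] at this
    linarith

private theorem JB9_eq {g : ℕ} (hg : 1 ≤ g) {s : ℝ} (hs : 0 < s) :
    (7 / 4 * (g : ℝ) * s ^ g) ^ g /
      ((g.factorial : ℝ) * (Real.sqrt (2 * g) ^ g * s ^ (g * (g - 1) / 2))) = lowJ s g := by
  have hg0 : (0 : ℝ) < Real.sqrt g := Real.sqrt_pos.2 (by exact_mod_cast hg)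
  have h2 : (0 : ℝ) < Real.sqrt 2 := Real.sqrt_pos.2 (by norm_num)
  have hexp : g * g = g * (g - 1) / 2 + g * (g + 1) / 2 := by
    obtain ⟨m, rfl⟩ : ∃ m, g = m + 1 := ⟨g - 1, by omega⟩
    obtain ⟨k, hk⟩ := Nat.even_mul_succ_self m
    obtain ⟨l, hl⟩ := Nat.even_mul_succ_self (m + 1)
    have e1 : (m + 1) * (m + 1 - 1) = 2 * k := by
      simp only [Nat.add_sub_cancel]; rw [mul_comm]; omega
    have e2 : (m + 1) * (m + 1 + 1) = 2 * l := by omega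
    rw [e1, e2, Nat.mul_div_cancel_left _ (by norm_num), Nat.mul_div_cancel_left _ (by norm_num)]
    nlinarith
  have hsq : (g : ℝ) = Real.sqrt g * Real.sqrt g := (Real.mul_self_sqrt (by positivity)).symm
  have hss : s ^ (g * g) = s ^ (g * (g - 1) / 2) * s ^ (g * (g + 1) / 2) := by
    rw [← pow_add, ← hexp]
  have hnum : (7 / 4 * (g : ℝ) * s ^ g) ^ g =
      (7 / 4) ^ g * (Real.sqrt g ^ g * Real.sqrt g ^ g) *
        (s ^ (g * (g - 1) / 2) * s ^ (g * (g + 1) / 2)) := by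
    rw [mul_pow, mul_pow, ← pow_mul, hss]
    have : (g : ℝ) ^ g = Real.sqrt g ^ g * Real.sqrt g ^ g := by
      rw [← mul_pow, ← hsq]
    rw [this]
  have hsqrt : Real.sqrt (2 * g) ^ g = Real.sqrt 2 ^ g * Real.sqrt g ^ g := by
    rw [Real.sqrt_mul (by norm_num), mul_pow]
  have hlow : (7 * Real.sqrt g / (4 * Real.sqrt 2)) ^ g =
      (7 / 4) ^ g * Real.sqrt g ^ g / Real.sqrt 2 ^ g := by
    rw [← mul_pow, ← div_pow]
    apply congrArg (fun z : ℝ => z ^ g)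
    field_simp
  unfold lowJ
  rw [hnum, hsqrt, hlow]
  have hf : (0 : ℝ) < (g.factorial : ℝ) := by exact_mod_cast g.factorial_pos
  have a1 : (Real.sqrt g ^ g) ≠ 0 := by positivity
  have a2 : (Real.sqrt 2 ^ g) ≠ 0 := by positivity
  have a3 : s ^ (g * (g - 1) / 2) ≠ 0 := by positivity
  generalize Real.sqrt g ^ g = a at *
  generalize Real.sqrt 2 ^ g = b at *
  generalize s ^ (g * (g - 1) / 2) = c at *
  generalize s ^ (g * (g + 1) / 2) = d at *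
  field_simp

theorem Weil_card_ge {q g : ℕ} (hq : 25 ≤ q) (hg : 1 ≤ g) :
    lowJ (Real.sqrt q) g ≤ ((Weil q g).ncard : ℝ) := by
  have hs : (0 : ℝ) < Real.sqrt q := Real.sqrt_pos.2 (by exact_mod_cast (by omega : 0 < q))
  obtain ⟨hdet, hD⟩ := Am_det (q := q) (g := g) (by omega) hg
  have ht : (0 : ℝ) ≤ 7 / 4 * g * Real.sqrt q ^ g := by positivity
  have hvol := vol_preimage (Am q g) hdet
    (fun j : Fin g => (-1) ^ ((j : ℕ) + 1) * EE q g g ((j : ℕ) + 1) -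
      Real.sqrt q ^ g / (Real.sqrt q - 1)) hD ht
  have hsub : {x : Fin g → ℝ | (∀ i, 0 ≤ (Am q g).mulVec x i +
        (fun j : Fin g => (-1) ^ ((j : ℕ) + 1) * EE q g g ((j : ℕ) + 1) -
          Real.sqrt q ^ g / (Real.sqrt q - 1)) i) ∧
      ∑ i, ((Am q g).mulVec x i + (fun j : Fin g => (-1) ^ ((j : ℕ) + 1) * EE q g g ((j : ℕ) + 1) -
          Real.sqrt q ^ g / (Real.sqrt q - 1)) i) ≤ 7 / 4 * g * Real.sqrt q ^ g} ⊆
      {x : Fin g → ℝ | ∀ j ≤ g, Real.sqrt q ^ g / (Real.sqrt q - 1) ≤ vv q g x j} := by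
    rintro x ⟨h0, h1⟩
    exact JB9_subset hq hg x h0 h1
  have hle := (hvol.trans (MeasureTheory.measure_mono hsub)).trans
    (region_le (q := q) (g := g) (by omega) hg)
  rw [JB9_eq hg hs, ← ENNReal.ofReal_natCast] at hle
  exact (ENNReal.ofReal_le_ofReal_iff (by positivity)).1 hle

end TJ
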