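import Pool.Agent.Lib.MP_021685_agTJ.J0

/-! LEAF JC1 (medium).  The product of `pre_card_le`.  (Compare the proved file `MP_021685_agTI/C1.lean`.)

PROOF.  For `j < k ≤ g`: `k - j - 1/5 ≥ 4/5 > 0` and `√(k - j - 1/5) ≤ √g`, so the factor is `≤ ((1789/1000) s^(j+1)/((j+1) √(k-j-1/5))) (1 + (j+1)/((1789/1000) s^(j+1)))`.
(1) `∏_{j<k} (1 + (j+1)/((1789/1000) s^(j+1))) ≤ exp (∑ (j+1)/s^(j+1)) ≤ exp (∑_{n≥1} (2/5)^n) = exp(2/3) ≤ 2` (`s ≥ 5`, `j + 1 ≤ 2^(j+1)`).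
(2) `∏_{j<k} s^(j+1) = s^(k(k+1)/2)`, `∏_{j<k} (j+1) = k!`.
(3) `∏_{j<k} (k - j - 1/5) = ∏_{i=1}^{k} (i - 1/5) ≥ ∏ i * i/(i+1) = k!/(k+1)` (`i - 1/5 ≥ i - i/(i+1)`, i.e. `1/5 ≤ i/(i+1)`), so `∏ √(k-j-1/5) ≥ √(k!)/√(k+1)`.
Total: `2 √(k+1) ((1789/1000)(2g + √g))^k s^(k(k+1)/2)/(k! √(k!))` and `k! √(k!) = √(k!)³`. -/

namespace TJ

private theorem JC1_sqrt (k : ℕ) :
    Real.sqrt (k.factorial) ≤ Real.sqrt ((k : ℝ) + 1) *
      ∏ j ∈ Finset.range k, Real.sqrt ((k : ℝ) - j - 1 / 5) := by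
  induction k with
  | zero => simp
  | succ k ih =>
    rw [Finset.prod_range_succ']
    have h1 : ∏ j ∈ Finset.range k, Real.sqrt (((k + 1 : ℕ) : ℝ) - ((j + 1 : ℕ) : ℝ) - 1 / 5) =
        ∏ j ∈ Finset.range k, Real.sqrt ((k : ℝ) - j - 1 / 5) := by
      apply Finset.prod_congr rfl
      intro j _
      congr 1
      push_cast
      ring
    rw [h1, Nat.factorial_succ]
    push_cast
    rw [Real.sqrt_mul (by positivity)]
    have hA : 0 ≤ ∏ j ∈ Finset.range k, Real.sqrt ((k : ℝ) - j - 1 / 5) :=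
      Finset.prod_nonneg fun j _ => Real.sqrt_nonneg _
    have hk0 : (0 : ℝ) ≤ k := Nat.cast_nonneg k
    have h2 : Real.sqrt ((k : ℝ) + 1) * Real.sqrt ((k : ℝ) + 1) = (k : ℝ) + 1 :=
      Real.mul_self_sqrt (by positivity)
    have h3 : (k : ℝ) + 1 ≤ Real.sqrt ((k : ℝ) + 1 + 1) * Real.sqrt ((k : ℝ) + 1 - 0 - 1 / 5) := by
      rw [← Real.sqrt_mul (by positivity)]
      apply Real.le_sqrt_of_sq_le
      nlinarith
    calc Real.sqrt ((k : ℝ) + 1) * Real.sqrt (k.factorial)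
        ≤ Real.sqrt ((k : ℝ) + 1) * (Real.sqrt ((k : ℝ) + 1) *
          ∏ j ∈ Finset.range k, Real.sqrt ((k : ℝ) - j - 1 / 5)) :=
          mul_le_mul_of_nonneg_left ih (Real.sqrt_nonneg _)
      _ = ((k : ℝ) + 1) * ∏ j ∈ Finset.range k, Real.sqrt ((k : ℝ) - j - 1 / 5) := by
          rw [← mul_assoc, h2]
      _ ≤ (Real.sqrt ((k : ℝ) + 1 + 1) * Real.sqrt ((k : ℝ) + 1 - 0 - 1 / 5)) *
          ∏ j ∈ Finset.range k, Real.sqrt ((k : ℝ) - j - 1 / 5) :=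
          mul_le_mul_of_nonneg_right h3 hA
      _ = _ := by ring

private theorem JC1_pow (s : ℝ) (k : ℕ) :
    ∏ j ∈ Finset.range k, ((1789 / 1000) * s ^ (j + 1) / ((j : ℝ) + 1)) =
      (1789 / 1000) ^ k * s ^ (k * (k + 1) / 2) / (k.factorial : ℝ) := by
  induction k with
  | zero => simp
  | succ k ih =>
    rw [Finset.prod_range_succ, ih]
    have h : (k + 1) * (k + 1 + 1) / 2 = k * (k + 1) / 2 + (k + 1) := by
      have := Nat.triangle_succ (k + 1)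
      simp only [Nat.add_sub_cancel] at this
      rw [mul_comm (k + 1) (k + 1 + 1), this, mul_comm (k + 1) k]
    rw [h, Nat.factorial_succ]
    push_cast
    have h1 : (k.factorial : ℝ) ≠ 0 := by positivity
    have h2 : (k : ℝ) + 1 ≠ 0 := by positivity
    rw [pow_add s (k * (k + 1) / 2) (k + 1), pow_succ (1789 / 1000 : ℝ) k]
    field_simp

private theorem JC1_small {s : ℝ} (hs : 5 ≤ s) (k : ℕ) :
    ∏ j ∈ Finset.range k, (1 + ((j : ℝ) + 1) / ((1789 / 1000) * s ^ (j + 1))) ≤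
      2 - (2 / 5 : ℝ) ^ k := by
  have hs0 : 0 < s := by linarith
  have hx : ∀ j : ℕ, ((j : ℝ) + 1) / ((1789 / 1000) * s ^ (j + 1)) ≤
      (1000 / 1789) * (2 / 5 : ℝ) ^ (j + 1) := by
    intro j
    have h1 : ((j : ℝ) + 1) ≤ 2 ^ (j + 1) := by
      have := (Nat.lt_two_pow_self (n := j + 1)).le
      exact_mod_cast this
    have h2 : (5 : ℝ) ^ (j + 1) ≤ s ^ (j + 1) := pow_le_pow_left₀ (by norm_num) hs _
    have h3 : (0 : ℝ) < 5 ^ (j + 1) := by positivity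
    have h4 : (2 : ℝ) ^ (j + 1) / ((1789 / 1000) * 5 ^ (j + 1)) =
        (1000 / 1789) * (2 / 5 : ℝ) ^ (j + 1) := by
      rw [div_pow]
      field_simp
    rw [← h4]
    gcongr
  induction k with
  | zero => norm_num
  | succ k ih =>
    rw [Finset.prod_range_succ]
    have h0 : (0 : ℝ) < (2 / 5 : ℝ) ^ k := by positivity
    have h1 : (2 / 5 : ℝ) ^ k ≤ 1 := pow_le_one₀ (by norm_num) (by norm_num)
    have h2 : 0 ≤ 1 + ((k : ℝ) + 1) / ((1789 / 1000) * s ^ (k + 1)) := by positivity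
    calc _ ≤ (2 - (2 / 5 : ℝ) ^ k) * (1 + ((k : ℝ) + 1) / ((1789 / 1000) * s ^ (k + 1))) := by
          gcongr
      _ ≤ (2 - (2 / 5 : ℝ) ^ k) * (1 + (1000 / 1789) * (2 / 5 : ℝ) ^ (k + 1)) := by
          apply mul_le_mul_of_nonneg_left _ (by linarith)
          linarith [hx k]
      _ ≤ 2 - (2 / 5 : ℝ) ^ (k + 1) := by
          rw [pow_succ]
          nlinarith

theorem prod_le_up {s : ℝ} (hs : 5 ≤ s) {g k : ℕ} (hg : 1 ≤ g) (hk : k ≤ g) :
    (2 * (g : ℝ) + Real.sqrt g) ^ k *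
      ∏ j ∈ Finset.range k,
        ((1789 / 1000) * s ^ (j + 1) / (((j : ℝ) + 1) * Real.sqrt ((k : ℝ) - j - 1 / 5)) + 1 / Real.sqrt g) ≤
      upJ s g k := by
  have hs0 : 0 < s := by linarith
  have hf0 : 0 < Real.sqrt (k.factorial) := Real.sqrt_pos.2 (by positivity)
  have hff : Real.sqrt (k.factorial) * Real.sqrt (k.factorial) = (k.factorial : ℝ) :=
    Real.mul_self_sqrt (by positivity)
  have hpos' : ∀ j ∈ Finset.range k, 0 < (k : ℝ) - j - 1 / 5 := by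
    intro j hj
    have hjk : j + 1 ≤ k := Finset.mem_range.1 hj
    have hjk' : (j : ℝ) + 1 ≤ k := by exact_mod_cast hjk
    linarith
  have hstep : ∏ j ∈ Finset.range k,
        ((1789 / 1000) * s ^ (j + 1) / (((j : ℝ) + 1) * Real.sqrt ((k : ℝ) - j - 1 / 5)) + 1 / Real.sqrt g) ≤
      ∏ j ∈ Finset.range k, ((Real.sqrt ((k : ℝ) - j - 1 / 5))⁻¹ *
        (((1789 / 1000) * s ^ (j + 1) / ((j : ℝ) + 1)) *
        (1 + ((j : ℝ) + 1) / ((1789 / 1000) * s ^ (j + 1))))) := by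
    apply Finset.prod_le_prod
    · intro j _
      positivity
    · intro j hj
      have hkg : (k : ℝ) ≤ g := by exact_mod_cast hk
      have hr0 : 0 < Real.sqrt ((k : ℝ) - j - 1 / 5) := Real.sqrt_pos.2 (hpos' j hj)
      have hr1 : Real.sqrt ((k : ℝ) - j - 1 / 5) ≤ Real.sqrt g :=
        Real.sqrt_le_sqrt (by have : (0 : ℝ) ≤ j := by positivity
                              linarith)
      have h1 : 1 / Real.sqrt g ≤ 1 / Real.sqrt ((k : ℝ) - j - 1 / 5) :=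
        one_div_le_one_div_of_le hr0 hr1
      have h2 : (Real.sqrt ((k : ℝ) - j - 1 / 5))⁻¹ * (((1789 / 1000) * s ^ (j + 1) / ((j : ℝ) + 1)) *
          (1 + ((j : ℝ) + 1) / ((1789 / 1000) * s ^ (j + 1)))) =
          (1789 / 1000) * s ^ (j + 1) / (((j : ℝ) + 1) * Real.sqrt ((k : ℝ) - j - 1 / 5)) +
            1 / Real.sqrt ((k : ℝ) - j - 1 / 5) := by
        have h3 : s ^ (j + 1) ≠ 0 := by positivity
        have h4 : (j : ℝ) + 1 ≠ 0 := by positivity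
        have h5 : Real.sqrt ((k : ℝ) - j - 1 / 5) ≠ 0 := hr0.ne'
        field_simp
      rw [h2]
      linarith
  have hA0 : 0 < ∏ j ∈ Finset.range k, Real.sqrt ((k : ℝ) - j - 1 / 5) :=
    Finset.prod_pos fun j hj => Real.sqrt_pos.2 (hpos' j hj)
  have hA : (∏ j ∈ Finset.range k, Real.sqrt ((k : ℝ) - j - 1 / 5))⁻¹ ≤
      Real.sqrt ((k : ℝ) + 1) / Real.sqrt (k.factorial) := by
    rw [le_div_iff₀ hf0, inv_mul_le_iff₀ hA0, mul_comm]
    exact JC1_sqrt k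
  have hprod : ∏ j ∈ Finset.range k, ((Real.sqrt ((k : ℝ) - j - 1 / 5))⁻¹ *
        (((1789 / 1000) * s ^ (j + 1) / ((j : ℝ) + 1)) *
        (1 + ((j : ℝ) + 1) / ((1789 / 1000) * s ^ (j + 1))))) ≤
      (Real.sqrt ((k : ℝ) + 1) / Real.sqrt (k.factorial)) *
        (((1789 / 1000) ^ k * s ^ (k * (k + 1) / 2) / (k.factorial : ℝ)) * 2) := by
    rw [Finset.prod_mul_distrib, Finset.prod_mul_distrib, Finset.prod_inv_distrib, JC1_pow]
    have h1 := JC1_small hs k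
    have h2 : (0 : ℝ) < (2 / 5 : ℝ) ^ k := by positivity
    have h3 : ∏ j ∈ Finset.range k, (1 + ((j : ℝ) + 1) / ((1789 / 1000) * s ^ (j + 1))) ≤ 2 := by
      linarith
    gcongr
  have hpos : 0 ≤ (2 * (g : ℝ) + Real.sqrt g) ^ k := by positivity
  calc _ ≤ (2 * (g : ℝ) + Real.sqrt g) ^ k *
        ((Real.sqrt ((k : ℝ) + 1) / Real.sqrt (k.factorial)) *
        (((1789 / 1000) ^ k * s ^ (k * (k + 1) / 2) / (k.factorial : ℝ)) * 2)) :=
        mul_le_mul_of_nonneg_left (hstep.trans hprod) hpos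
    _ = upJ s g k := by
        unfold upJ
        rw [mul_pow]
        clear hprod hstep hA
        generalize Real.sqrt (k.factorial : ℝ) = r at hff hf0 ⊢
        rw [← hff]
        have h2 : r ≠ 0 := hf0.ne'
        field_simp

end TJ
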