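import Pool.Agent.Lib.MP_021685_agTJ.J0

/-! LEAF JC2 (medium).  Numerical inequality for the lines.  (Compare the proved file `MP_021685_agTI/C2.lean`.)

PROOF.  Quotient: `upJ s g (g-1) (1001/1000)^(4g) / ((97/100)^g lowJ s g) = 2 √g (1.789 (2g + √g))^(g-1) (4√2/7)^g g! (1.001)^(4g) (100/97)^g / (√((g-1)!)³ √g^g s^g)` (exponents of `s`: `(g-1)g/2 + g = g(g+1)/2`; `k + 1 = g` for `k = g - 1`).
Bounds: `g! / √((g-1)!)³ = g √g / √(g!)` (`(g-1)! = g!/g`), `g! ≥ (g/e)^g` (`Real.pow_div_factorial_le_exp`), so it is `≤ g^(3/2) e^(g/2)/√g^g`; `(2g + √g)^(g-1) ≤ (2g)^g (1 + 1/(2√g))^g ≤ (2g)^g e^(√g/2)` (for `g ≥ 1` the base is `≥ 1`); `s^g ≥ 5^g`.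
The powers of `g`: `g^g / (√g^g √g^g) = 1`.  So the quotient is at most `2 g² e^(√g/2) X^g`, `X = 2 * 1.789 * (4√2/7) * e^(1/2) * (1.001)^4 * (100/97)/5`; numerically `4√2/7 ≤ 0.80813`, `e^(1/2) ≤ 1.64873`, `(1.001)^4 ≤ 1.00401`, `100/97 ≤ 1.03093`, so `X ≤ 3.578*0.80813*1.64873*1.00401*1.03093/5 ≤ 0.98690`.
`g² e^(√g/2) (0.9869)^g` is bounded: `0.9869 ≤ e^(-1/80)` (as `e^(-x) ≥ 1 - x`, `1 - 1/80 = 0.9875`), `√g/2 ≤ g/400 + 25` (AM-GM: `√g/2 ≤ g/400 + 25` since `(√g/20 - 5)² ≥ 0`), `g² ≤ 2 * 400² e^(g/400)`, and `1/400 + 1/400 ≤ 1/80`. -/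

namespace TJ

private theorem JC2_fac (n : ℕ) (a : ℝ) (ha2 : a ^ 2 = ((n + 1 : ℕ) : ℝ)) :
    (a / Real.exp (1 / 2)) ^ (n + 1) / a ≤ Real.sqrt (n.factorial) := by
  have hE : Real.exp (1 / 2) ^ 2 = Real.exp 1 := by
    rw [← Real.exp_nat_mul]
    norm_num
  have hG : (0 : ℝ) < ((n + 1 : ℕ) : ℝ) := by positivity
  have h1 := Real.pow_div_factorial_le_exp (((n + 1 : ℕ) : ℝ)) hG.le (n + 1)
  have h2 : Real.exp (((n + 1 : ℕ) : ℝ)) = Real.exp 1 ^ (n + 1) := by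
    rw [← Real.exp_nat_mul, mul_one]
  have h3 : (((n + 1).factorial : ℕ) : ℝ) = ((n + 1 : ℕ) : ℝ) * (n.factorial : ℝ) := by
    rw [Nat.factorial_succ, Nat.cast_mul]
  rw [h2, h3, div_le_iff₀ (by positivity)] at h1
  apply Real.le_sqrt_of_sq_le
  have h4 : ((a / Real.exp (1 / 2)) ^ (n + 1) / a) ^ 2 =
      (((n + 1 : ℕ) : ℝ)) ^ (n + 1) / Real.exp 1 ^ (n + 1) / ((n + 1 : ℕ) : ℝ) := by
    rw [div_pow, ← pow_mul, mul_comm (n + 1) 2, pow_mul, div_pow, hE, ha2, div_pow]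
  rw [h4, div_le_iff₀ hG, div_le_iff₀ (by positivity)]
  calc (((n + 1 : ℕ) : ℝ)) ^ (n + 1)
      ≤ Real.exp 1 ^ (n + 1) * (((n + 1 : ℕ) : ℝ) * (n.factorial : ℝ)) := h1
    _ = (n.factorial : ℝ) * ((n + 1 : ℕ) : ℝ) * Real.exp 1 ^ (n + 1) := by ring

private theorem JC2_base (n : ℕ) (a : ℝ) (ha : 1 ≤ a) (ha2 : a ^ 2 = ((n + 1 : ℕ) : ℝ)) :
    (1789 / 1000 * (2 * ((n + 1 : ℕ) : ℝ) + a)) ^ n ≤
      (1789 / 1000 * (2 * ((n + 1 : ℕ) : ℝ))) ^ (n + 1) *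
        (Real.exp 25 * Real.exp (1 / 400) ^ (n + 1)) := by
  have ha0 : 0 < a := by linarith
  have hG : (0 : ℝ) < ((n + 1 : ℕ) : ℝ) := by positivity
  have h1 : 1 ≤ 1789 / 1000 * (2 * ((n + 1 : ℕ) : ℝ) + a) := by linarith
  have h2 : 1789 / 1000 * (2 * ((n + 1 : ℕ) : ℝ) + a) ≤
      1789 / 1000 * (2 * ((n + 1 : ℕ) : ℝ)) * Real.exp (1 / (2 * a)) := by
    have h3 := Real.add_one_le_exp (1 / (2 * a))
    have h4 : 1789 / 1000 * (2 * ((n + 1 : ℕ) : ℝ) + a) =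
        1789 / 1000 * (2 * ((n + 1 : ℕ) : ℝ)) * (1 / (2 * a) + 1) := by
      rw [← ha2]
      field_simp
      ring
    rw [h4]
    exact mul_le_mul_of_nonneg_left h3 (by positivity)
  have h5 : Real.exp (1 / (2 * a)) ^ (n + 1) ≤ Real.exp 25 * Real.exp (1 / 400) ^ (n + 1) := by
    rw [← Real.exp_nat_mul, ← Real.exp_nat_mul, ← Real.exp_add]
    apply Real.exp_le_exp.2
    rw [← ha2]
    have h6 : a ^ 2 * (1 / (2 * a)) = a / 2 := by
      field_simp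
    rw [h6]
    nlinarith [sq_nonneg (a / 20 - 5)]
  calc (1789 / 1000 * (2 * ((n + 1 : ℕ) : ℝ) + a)) ^ n
      ≤ (1789 / 1000 * (2 * ((n + 1 : ℕ) : ℝ) + a)) ^ (n + 1) :=
        pow_le_pow_right₀ h1 (Nat.le_succ n)
    _ ≤ (1789 / 1000 * (2 * ((n + 1 : ℕ) : ℝ)) * Real.exp (1 / (2 * a))) ^ (n + 1) :=
        pow_le_pow_left₀ (by linarith) h2 _
    _ = (1789 / 1000 * (2 * ((n + 1 : ℕ) : ℝ))) ^ (n + 1) * Real.exp (1 / (2 * a)) ^ (n + 1) :=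
        mul_pow _ _ _
    _ ≤ _ := mul_le_mul_of_nonneg_left h5 (by positivity)

private theorem JC2_two (n : ℕ) :
    2 * ((n + 1 : ℕ) : ℝ) ^ 2 ≤ 640000 * Real.exp (1 / 400) ^ (n + 1) := by
  have h1 := Real.pow_div_factorial_le_exp (((n + 1 : ℕ) : ℝ) / 400) (by positivity) 2
  have h2 : Real.exp (((n + 1 : ℕ) : ℝ) / 400) = Real.exp (1 / 400) ^ (n + 1) := by
    rw [← Real.exp_nat_mul]
    congr 1
    ring
  rw [h2] at h1
  have h3 : ((((n + 1 : ℕ) : ℝ) / 400) ^ 2 / ((2 : ℕ).factorial : ℝ)) =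
      ((n + 1 : ℕ) : ℝ) ^ 2 / 320000 := by
    have : ((2 : ℕ).factorial : ℝ) = 2 := by norm_num [Nat.factorial]
    rw [this]
    ring
  rw [h3, div_le_iff₀ (by norm_num)] at h1
  linarith

private theorem JC2_num : Real.exp (1 / 400) ^ 2 * (3578 / 1000) * (1001 / 1000) ^ 4 ≤
    97 / 100 * 5 * (7 / (4 * Real.sqrt 2)) / Real.exp (1 / 2) := by
  have hE1 : Real.exp (1 / 2) ≤ 16488 / 10000 := by
    have h1 : Real.exp (1 / 2) ^ 2 = Real.exp 1 := by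
      rw [← Real.exp_nat_mul]
      norm_num
    have h2 := Real.exp_one_lt_d9
    by_contra h
    replace h := not_le.1 h
    nlinarith [Real.exp_pos (1 / 2)]
  have ht : Real.exp (1 / 400) ^ 2 ≤ 200 / 199 := by
    have h1 : Real.exp (1 / 400) ^ 2 = Real.exp (1 / 200) := by
      rw [← Real.exp_nat_mul]
      norm_num
    have h2 := Real.one_sub_le_exp_neg (1 / 200)
    rw [h1]
    have h3 : Real.exp (1 / 200) * Real.exp (-(1 / 200)) = 1 := by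
      rw [← Real.exp_add]
      norm_num
    nlinarith [Real.exp_pos (1 / 200)]
  have hs : Real.sqrt 2 ≤ 141422 / 100000 := by
    rw [Real.sqrt_le_left (by norm_num)]
    norm_num
  have hs0 : 0 < Real.sqrt 2 := Real.sqrt_pos.2 (by norm_num)
  have hE0 : 0 < Real.exp (1 / 2) := Real.exp_pos _
  have h0 : 97 / 100 * 5 * (7 / (4 * Real.sqrt 2)) / Real.exp (1 / 2) =
      97 / 100 * 5 * 7 / (4 * Real.sqrt 2 * Real.exp (1 / 2)) := by
    field_simp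
  rw [h0, le_div_iff₀ (by positivity)]
  calc Real.exp (1 / 400) ^ 2 * (3578 / 1000) * (1001 / 1000) ^ 4 *
        (4 * Real.sqrt 2 * Real.exp (1 / 2))
      ≤ 200 / 199 * (3578 / 1000) * (1001 / 1000) ^ 4 *
        (4 * (141422 / 100000) * (16488 / 10000)) := by
        gcongr
    _ ≤ 97 / 100 * 5 * 7 := by norm_num

private theorem JC2_core (N k n : ℕ) (s a G E t F r e Q : ℝ) (hs : 5 ≤ s) (ha : 1 ≤ a)
    (ha2 : a ^ 2 = G) (hE : 0 < E) (ht : 0 < t) (hr : 0 < r) (he : 0 < e)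
    (hB : (1789 / 1000 * (2 * G + a)) ^ n ≤ (1789 / 1000 * (2 * G)) ^ k * (e * t ^ k))
    (h2 : 2 * G ^ 2 ≤ 640000 * t ^ k) (hF : (a / E) ^ k / a ≤ F) (hQ : Q = G * F ^ 2)
    (hnum : t ^ 2 * (3578 / 1000) * (1001 / 1000) ^ 4 ≤ 97 / 100 * 5 * (7 / (4 * r)) / E) :
    2 * a * (1789 / 1000 * (2 * G + a)) ^ n * s ^ N / F ^ 3 * (1001 / 1000) ^ (4 * k) ≤
      640000 * e * (97 / 100) ^ k * (s ^ (N + k) * (7 * a / (4 * r)) ^ k / Q) := by
  have ha0 : 0 < a := by linarith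
  have hG : 0 < G := by rw [← ha2]; positivity
  have hs0 : 0 < s := by linarith
  have hF0 : 0 < F := lt_of_lt_of_le (by positivity) hF
  have h3 : 2 * a * (1789 / 1000 * (2 * G + a)) ^ n * (1001 / 1000) ^ (4 * k) * G ≤
      e * (2 * G ^ 2) * (t * (3578 / 1000) * (1001 / 1000) ^ 4 * G) ^ k / a := by
    rw [le_div_iff₀ ha0]
    have h31 : 2 * a * (1789 / 1000 * (2 * G + a)) ^ n * (1001 / 1000) ^ (4 * k) * G * a =
        (2 * G ^ 2 * (1001 / 1000) ^ (4 * k)) * (1789 / 1000 * (2 * G + a)) ^ n := by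
      rw [← ha2]
      ring
    have h32 : e * (2 * G ^ 2) * (t * (3578 / 1000) * (1001 / 1000) ^ 4 * G) ^ k =
        (2 * G ^ 2 * (1001 / 1000) ^ (4 * k)) *
          ((1789 / 1000 * (2 * G)) ^ k * (e * t ^ k)) := by
      have h33 : t * (3578 / 1000) * (1001 / 1000) ^ 4 * G =
          t * ((1789 / 1000 * (2 * G)) * (1001 / 1000) ^ 4) := by ring
      rw [h33, mul_pow t, mul_pow (1789 / 1000 * (2 * G)), ← pow_mul]
      ring
    rw [h31, h32]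
    exact mul_le_mul_of_nonneg_left hB (by positivity)
  have h4 : e * (2 * G ^ 2) * (t * (3578 / 1000) * (1001 / 1000) ^ 4 * G) ^ k / a ≤
      640000 * e * ((t ^ 2 * (3578 / 1000) * (1001 / 1000) ^ 4 * G) ^ k / a) := by
    have h41 : 640000 * e * ((t ^ 2 * (3578 / 1000) * (1001 / 1000) ^ 4 * G) ^ k / a) =
        e * (640000 * t ^ k) * (t * (3578 / 1000) * (1001 / 1000) ^ 4 * G) ^ k / a := by
      rw [show t ^ 2 * (3578 / 1000) * (1001 / 1000) ^ 4 * G =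
        t * (t * (3578 / 1000) * (1001 / 1000) ^ 4 * G) by ring, mul_pow t]
      ring
    rw [h41]
    gcongr
  have h5 : (t ^ 2 * (3578 / 1000) * (1001 / 1000) ^ 4 * G) ^ k / a ≤
      (97 / 100) ^ k * (s ^ k * (7 * a / (4 * r)) ^ k) * F := by
    have h51 : (t ^ 2 * (3578 / 1000) * (1001 / 1000) ^ 4 * G) ^ k ≤
        (97 / 100 * 5 * (7 / (4 * r)) / E * G) ^ k :=
      pow_le_pow_left₀ (by positivity) (mul_le_mul_of_nonneg_right hnum hG.le) k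
    have h52 : (97 / 100 * 5 * (7 / (4 * r)) / E * G) ^ k / a =
        (97 / 100) ^ k * (5 ^ k * (7 * a / (4 * r)) ^ k) * ((a / E) ^ k / a) := by
      have h53 : 97 / 100 * 5 * (7 / (4 * r)) / E * G =
          97 / 100 * (5 * (7 * a / (4 * r))) * (a / E) := by
        rw [← ha2]
        field_simp
      rw [h53, mul_pow, mul_pow, mul_pow 5]
      ring
    calc (t ^ 2 * (3578 / 1000) * (1001 / 1000) ^ 4 * G) ^ k / a
        ≤ (97 / 100 * 5 * (7 / (4 * r)) / E * G) ^ k / a :=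
          div_le_div_of_nonneg_right h51 ha0.le
      _ = (97 / 100) ^ k * (5 ^ k * (7 * a / (4 * r)) ^ k) * ((a / E) ^ k / a) := h52
      _ ≤ (97 / 100) ^ k * (s ^ k * (7 * a / (4 * r)) ^ k) * F := by
          gcongr
  have h6 : 2 * a * (1789 / 1000 * (2 * G + a)) ^ n * (1001 / 1000) ^ (4 * k) * G ≤
      640000 * e * ((97 / 100) ^ k * (s ^ k * (7 * a / (4 * r)) ^ k) * F) :=
    (h3.trans h4).trans (mul_le_mul_of_nonneg_left h5 (by positivity))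
  rw [hQ, div_mul_eq_mul_div, ← mul_div_assoc, div_le_div_iff₀ (by positivity) (by positivity)]
  calc 2 * a * (1789 / 1000 * (2 * G + a)) ^ n * s ^ N * (1001 / 1000) ^ (4 * k) * (G * F ^ 2)
      = s ^ N * F ^ 2 *
        (2 * a * (1789 / 1000 * (2 * G + a)) ^ n * (1001 / 1000) ^ (4 * k) * G) := by ring
    _ ≤ s ^ N * F ^ 2 *
        (640000 * e * ((97 / 100) ^ k * (s ^ k * (7 * a / (4 * r)) ^ k) * F)) :=
        mul_le_mul_of_nonneg_left h6 (by positivity)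
    _ = 640000 * e * (97 / 100) ^ k * (s ^ (N + k) * (7 * a / (4 * r)) ^ k) * F ^ 3 := by
        rw [pow_add]
        ring

theorem up_low_one : ∃ C : ℝ, 0 ≤ C ∧ ∀ s : ℝ, 5 ≤ s → ∀ g : ℕ, 2 ≤ g →
    upJ s g (g - 1) * (1001 / 1000) ^ (4 * g) ≤ C * (97 / 100) ^ g * lowJ s g := by
  refine ⟨640000 * Real.exp 25, by positivity, fun s hs g hg => ?_⟩
  obtain ⟨n, rfl⟩ : ∃ n, g = n + 1 := ⟨g - 1, by omega⟩
  have hG : (0 : ℝ) < ((n + 1 : ℕ) : ℝ) := by positivity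
  have hG1 : (1 : ℝ) ≤ ((n + 1 : ℕ) : ℝ) := by
    exact_mod_cast Nat.le_add_left 1 n
  have ha2 : Real.sqrt ((n + 1 : ℕ) : ℝ) ^ 2 = ((n + 1 : ℕ) : ℝ) := Real.sq_sqrt hG.le
  have ha : 1 ≤ Real.sqrt ((n + 1 : ℕ) : ℝ) := Real.one_le_sqrt.2 hG1
  have hn : n + 1 - 1 = n := rfl
  have hex : (n + 1) * (n + 1 + 1) / 2 = n * (n + 1) / 2 + (n + 1) := by
    have h1 : (n + 1) * (n + 1 + 1) = n * (n + 1) + (n + 1) * 2 := by ring
    rw [h1, Nat.add_mul_div_right _ _ (by norm_num)]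
  have hF := JC2_fac n _ ha2
  have hB := JC2_base n _ ha ha2
  have hQ : (((n + 1).factorial : ℕ) : ℝ) =
      ((n + 1 : ℕ) : ℝ) * Real.sqrt (n.factorial) ^ 2 := by
    rw [Real.sq_sqrt (by positivity), Nat.factorial_succ, Nat.cast_mul]
  have hc : ((n : ℝ) + 1) = ((n + 1 : ℕ) : ℝ) := by push_cast; ring
  rw [upJ, lowJ, hn, hex, hc]
  exact JC2_core _ _ _ s _ _ _ _ _ _ _ _ hs ha ha2 (Real.exp_pos _) (Real.exp_pos _)
    (by positivity) (Real.exp_pos _) hB (JC2_two n) hF hQ JC2_num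

end TJ
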