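import Pool.Agent.Lib.MP_021685_agTJ.J0

/-! LEAF JC3 (medium).  Numerical inequality for the bad lines.  (Compare the proved file `MP_021685_agTI/C3.lean` and the docstring of `JC2`.)

PROOF.  The quotient `upJ s g (g-2) (4 s^g + 1)(2g) / ((97/100)^g lowJ s g)` is `2 √(g-1) (1.789 (2g + √g))^(g-2) s^((g-2)(g-1)/2) (4 s^g + 1) (2g) (4√2/7)^g g! (100/97)^g / (√((g-2)!)³ √g^g s^(g(g+1)/2))`.
`4 s^g + 1 ≤ 5 s^g`, exponents of `s`: `(g-2)(g-1)/2 + g - g(g+1)/2 = 1 - g`, so the power of `s` is `s/s^g ≤ s/5^g`.  `(g-2)! ≥ g!/g²`, so `g!/√((g-2)!)³ ≤ g³/√(g!) ≤ g³ e^(g/2)/√g^g`; `(1.789 (2g + √g))^(g-2) ≤ (1.789 * 2g)^g e^(√g/2)` (base `≥ 1`).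
So the quotient is at most `20 g^5 e^(√g/2) s X^g`, `X = 3.578 * 0.80813 * 1.64873 * 1.03093/5 ≤ 0.98296 ≤ e^(-1/80)`; `g^5 ≤ 5! 400^5 .. e^(g/400)` as in JC2: bounded by `C s`. -/

namespace TJ

private theorem JC3_bdd : ∃ C : ℝ, 0 ≤ C ∧ ∀ g : ℕ, (g : ℝ) ^ 5 * (986 / 1000) ^ g ≤ C := by
  have h := tendsto_pow_const_mul_const_pow_of_abs_lt_one 5 (r := (986 / 1000 : ℝ))
    (by rw [abs_of_pos (by norm_num)]; norm_num)
  obtain ⟨C, hC⟩ := h.bddAbove_range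
  refine ⟨C, ?_, fun g => hC ⟨g, rfl⟩⟩
  have := hC ⟨0, rfl⟩
  simpa using this

private theorem JC3_half : Real.exp (1 / 2) ≤ 1.6488 := by
  have h1 : Real.exp (1 / 2) ^ 2 = Real.exp 1 := by
    rw [← Real.exp_nat_mul]
    norm_num
  have h2 : Real.exp 1 < 2.7182818286 := Real.exp_one_lt_d9
  have h4 : (2.7182818286 : ℝ) ≤ 1.6488 ^ 2 := by norm_num
  exact le_of_sq_le_sq (by rw [h1]; exact h2.le.trans h4) (by norm_num)

private theorem JC3_four : Real.exp (1 / 400) ≤ 400 / 399 := by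
  have h1 : (399 / 400 : ℝ) ≤ Real.exp (-(1 / 400)) := by
    have h2 := Real.add_one_le_exp (-(1 / 400 : ℝ))
    linarith
  rw [Real.exp_neg] at h1
  have h3 : 0 < Real.exp (1 / 400) := Real.exp_pos _
  have h4 : 399 / 400 * Real.exp (1 / 400) ≤ 1 := by
    have h5 := mul_le_mul_of_nonneg_right h1 h3.le
    rwa [inv_mul_cancel₀ h3.ne'] at h5
  linarith

private theorem JC3_num : 3578 / 1000 * Real.exp (1 / 400) * Real.exp (1 / 2) ≤
    986 / 1000 * (5 * (97 / 100) * (7 / (4 * Real.sqrt 2))) := by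
  have h1 := JC3_half
  have h2 := JC3_four
  have h3 : Real.sqrt 2 ≤ 1.41422 := by
    rw [Real.sqrt_le_left (by norm_num)]
    norm_num
  have h30 : 0 < Real.sqrt 2 := Real.sqrt_pos.2 (by norm_num)
  have h4 : 3578 / 1000 * Real.exp (1 / 400) * Real.exp (1 / 2) ≤ 3578 / 1000 * (400 / 399) * 1.6488 := by
    have h5 : 0 < Real.exp (1 / 2) := Real.exp_pos _
    gcongr
  have h6 : 986 / 1000 * (5 * (97 / 100) * (7 / (4 * (1.41422 : ℝ)))) ≤
      986 / 1000 * (5 * (97 / 100) * (7 / (4 * Real.sqrt 2))) := by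
    gcongr
  have h7 : 3578 / 1000 * (400 / 399) * 1.6488 ≤
      986 / 1000 * (5 * (97 / 100) * (7 / (4 * (1.41422 : ℝ)))) := by norm_num
  exact h4.trans (h7.trans h6)

private theorem JC3_fact (m : ℕ) : ((m + 2).factorial : ℝ) * Real.sqrt ((m + 2 : ℕ) : ℝ) ^ (m + 2) ≤
    ((m + 2 : ℕ) : ℝ) ^ 3 * Real.exp (1 / 2) ^ (m + 2) * Real.sqrt (m.factorial : ℝ) ^ 3 := by
  set G : ℝ := ((m + 2 : ℕ) : ℝ) with hG
  have hG0 : 0 < G := by rw [hG]; positivity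
  have h1 : G ^ (m + 2) / ((m + 2).factorial : ℝ) ≤ Real.exp G := Real.pow_div_factorial_le_exp G hG0.le (m + 2)
  have hf : (0 : ℝ) < ((m + 2).factorial : ℝ) := by positivity
  have h2 : G ^ (m + 2) ≤ Real.exp G * ((m + 2).factorial : ℝ) := (div_le_iff₀ hf).1 h1
  have h3 : (((m + 2).factorial : ℕ) : ℝ) ≤ (m.factorial : ℝ) * G ^ 2 := by
    have h4 : (m + 2).factorial = (m + 2) * ((m + 1) * m.factorial) := by
      rw [Nat.factorial_succ, Nat.factorial_succ]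
    rw [h4]
    push_cast
    rw [hG]
    push_cast
    have hm : (0 : ℝ) ≤ (m.factorial : ℝ) := by positivity
    have hm2 : (0 : ℝ) ≤ (m : ℝ) := by positivity
    nlinarith [mul_nonneg hm hm2]
  have h5 : G ^ (m + 2) ≤ Real.exp G * ((m.factorial : ℝ) * G ^ 2) :=
    h2.trans (mul_le_mul_of_nonneg_left h3 (Real.exp_pos G).le)
  have h6 : Real.sqrt (G ^ (m + 2)) ≤ Real.sqrt (Real.exp G * ((m.factorial : ℝ) * G ^ 2)) :=
    Real.sqrt_le_sqrt h5
  have h7 : Real.sqrt (G ^ (m + 2)) = Real.sqrt G ^ (m + 2) := by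
    rw [← Real.sqrt_sq (pow_nonneg (Real.sqrt_nonneg G) (m + 2)), ← pow_mul, mul_comm (m + 2) 2, pow_mul,
      Real.sq_sqrt hG0.le]
  have h8 : Real.sqrt (Real.exp G * ((m.factorial : ℝ) * G ^ 2)) =
      Real.exp (1 / 2) ^ (m + 2) * (Real.sqrt (m.factorial : ℝ) * G) := by
    rw [Real.sqrt_mul (Real.exp_pos G).le, Real.sqrt_mul (by positivity), Real.sqrt_sq hG0.le]
    congr 1
    rw [← Real.exp_nat_mul, ← Real.exp_half]
    congr 1
    rw [← hG]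
    ring
  rw [h7, h8] at h6
  have h9 : (m.factorial : ℝ) = Real.sqrt (m.factorial : ℝ) ^ 2 := (Real.sq_sqrt (by positivity)).symm
  have h10 : 0 ≤ Real.sqrt G ^ (m + 2) := by positivity
  calc ((m + 2).factorial : ℝ) * Real.sqrt G ^ (m + 2)
      ≤ ((m.factorial : ℝ) * G ^ 2) * (Real.exp (1 / 2) ^ (m + 2) * (Real.sqrt (m.factorial : ℝ) * G)) :=
        mul_le_mul h3 h6 h10 (by positivity)
    _ = (Real.sqrt (m.factorial : ℝ) ^ 2 * G ^ 2) *
        (Real.exp (1 / 2) ^ (m + 2) * (Real.sqrt (m.factorial : ℝ) * G)) := by rw [← h9]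
    _ = _ := by ring

private theorem JC3_A (m : ℕ) (G : ℝ) (hG : G = ((m + 2 : ℕ) : ℝ)) :
    (1789 / 1000 * (2 * G + Real.sqrt G)) ^ m ≤
      (3578 / 1000 * G) ^ (m + 2) * (Real.exp 25 * Real.exp (1 / 400) ^ (m + 2)) := by
  have hG2 : 2 ≤ G := by rw [hG]; push_cast; linarith [(Nat.cast_nonneg m : (0 : ℝ) ≤ (m : ℝ))]
  set R : ℝ := Real.sqrt G with hR
  have hR0 : 0 < R := Real.sqrt_pos.2 (by linarith)
  have hRR : R ^ 2 = G := Real.sq_sqrt (by linarith)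
  have h1 : 1789 / 1000 * (2 * G + R) = 3578 / 1000 * G * (1 / (2 * R) + 1) := by
    rw [← hRR]
    field_simp
    ring
  have h2 : (1 / (2 * R) + 1) ^ m ≤ Real.exp 25 * Real.exp (1 / 400) ^ (m + 2) := by
    have h3 : (1 / (2 * R) + 1) ^ m ≤ Real.exp (1 / (2 * R)) ^ m :=
      pow_le_pow_left₀ (by positivity) (Real.add_one_le_exp _) m
    refine h3.trans ?_
    rw [← Real.exp_nat_mul, ← Real.exp_nat_mul, ← Real.exp_add]
    apply Real.exp_le_exp.2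
    rw [← hG]
    have h4 : (m : ℝ) ≤ R ^ 2 := by
      rw [hRR, hG]
      push_cast
      linarith
    have h5 : (m : ℝ) * (1 / (2 * R)) ≤ R ^ 2 * (1 / (2 * R)) :=
      mul_le_mul_of_nonneg_right h4 (by positivity)
    have h6 : R ^ 2 * (1 / (2 * R)) = R / 2 := by
      field_simp
    rw [h6] at h5
    have h7 : 0 ≤ (R / 20 - 5) ^ 2 := sq_nonneg _
    rw [← hRR]
    nlinarith
  have h8 : (3578 / 1000 * G) ^ m ≤ (3578 / 1000 * G) ^ (m + 2) :=
    pow_le_pow_right₀ (by linarith) (by omega)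
  rw [h1, mul_pow]
  exact mul_le_mul h8 h2 (by positivity) (by positivity)

private theorem JC3_main (m : ℕ) (C : ℝ) (hC : ∀ g : ℕ, (g : ℝ) ^ 5 * (986 / 1000) ^ g ≤ C) (G : ℝ)
    (hG : G = ((m + 2 : ℕ) : ℝ)) (q : ℝ) (hq0 : 0 < q)
    (hq : 3578 / 1000 * Real.exp (1 / 400) * Real.exp (1 / 2) ≤ 986 / 1000 * q) :
    20 * G ^ 2 * (1789 / 1000 * (2 * G + Real.sqrt G)) ^ m * ((m + 2).factorial : ℝ) ≤
      20 * Real.exp 25 * C * q ^ (m + 2) * Real.sqrt G ^ (m + 2) * Real.sqrt (m.factorial : ℝ) ^ 3 := by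
  have hG2 : 2 ≤ G := by rw [hG]; push_cast; linarith [(Nat.cast_nonneg m : (0 : ℝ) ≤ (m : ℝ))]
  have hA := JC3_A m G hG
  have h4 := JC3_fact m
  rw [← hG] at h4
  have h5 : (3578 / 1000 * Real.exp (1 / 400) * Real.exp (1 / 2)) ^ (m + 2) ≤ (986 / 1000 * q) ^ (m + 2) :=
    pow_le_pow_left₀ (by positivity) hq _
  have h6 := hC (m + 2)
  rw [← hG] at h6
  set R : ℝ := Real.sqrt G with hR
  have hR0 : 0 < R := Real.sqrt_pos.2 (by linarith)
  have hRR : G = R ^ 2 := (Real.sq_sqrt (by linarith)).symm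
  have hGR : G ^ (m + 2) = R ^ (m + 2) * R ^ (m + 2) := by
    conv_lhs => rw [hRR]
    ring
  set F : ℝ := Real.sqrt (m.factorial : ℝ) ^ 3 with hF
  have hF0 : 0 ≤ F := by positivity
  have he : 0 < Real.exp 25 := Real.exp_pos _
  have he4 : 0 < Real.exp (1 / 400) := Real.exp_pos _
  have he2 : 0 < Real.exp (1 / 2) := Real.exp_pos _
  have hf : (0 : ℝ) < ((m + 2).factorial : ℝ) := by positivity
  calc 20 * G ^ 2 * (1789 / 1000 * (2 * G + R)) ^ m * ((m + 2).factorial : ℝ)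
      ≤ 20 * G ^ 2 * ((3578 / 1000 * G) ^ (m + 2) * (Real.exp 25 * Real.exp (1 / 400) ^ (m + 2))) *
        ((m + 2).factorial : ℝ) := by gcongr
    _ = 20 * G ^ 2 * Real.exp 25 * (3578 / 1000 * Real.exp (1 / 400)) ^ (m + 2) * R ^ (m + 2) *
        (((m + 2).factorial : ℝ) * R ^ (m + 2)) := by
        rw [mul_pow, mul_pow, hGR]
        ring
    _ ≤ 20 * G ^ 2 * Real.exp 25 * (3578 / 1000 * Real.exp (1 / 400)) ^ (m + 2) * R ^ (m + 2) *
        (G ^ 3 * Real.exp (1 / 2) ^ (m + 2) * F) := by gcongr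
    _ = 20 * Real.exp 25 * G ^ 5 * (3578 / 1000 * Real.exp (1 / 400) * Real.exp (1 / 2)) ^ (m + 2) *
        R ^ (m + 2) * F := by
        rw [mul_pow (3578 / 1000 * Real.exp (1 / 400)) (Real.exp (1 / 2))]
        ring
    _ ≤ 20 * Real.exp 25 * G ^ 5 * (986 / 1000 * q) ^ (m + 2) * R ^ (m + 2) * F := by gcongr
    _ = 20 * Real.exp 25 * (G ^ 5 * (986 / 1000) ^ (m + 2)) * q ^ (m + 2) * R ^ (m + 2) * F := by
        rw [mul_pow]
        ring
    _ ≤ 20 * Real.exp 25 * C * q ^ (m + 2) * R ^ (m + 2) * F := by gcongr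

theorem up_low_two : ∃ C : ℝ, 0 ≤ C ∧ ∀ s : ℝ, 5 ≤ s → ∀ g : ℕ, 2 ≤ g →
    upJ s g (g - 2) * (4 * s ^ g + 1) * (2 * g) ≤ C * s * (97 / 100) ^ g * lowJ s g := by
  obtain ⟨C, hC0, hC⟩ := JC3_bdd
  refine ⟨20 * Real.exp 25 * C, by positivity, fun s hs g hg => ?_⟩
  obtain ⟨m, rfl⟩ : ∃ m, g = m + 2 := ⟨g - 2, by omega⟩
  rw [Nat.add_sub_cancel]
  have hexp : (m + 2) * (m + 2 + 1) / 2 = m * (m + 1) / 2 + (2 * m + 3) := by
    have h : (m + 2) * (m + 2 + 1) = m * (m + 1) + (2 * m + 3) * 2 := by ring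
    rw [h, Nat.add_mul_div_right _ _ (by norm_num)]
  unfold upJ lowJ
  rw [hexp]
  have hm1 : Real.sqrt ((m : ℝ) + 1) ≤ ((m + 2 : ℕ) : ℝ) := by
    rw [Real.sqrt_le_left (by positivity)]
    push_cast
    nlinarith [(Nat.cast_nonneg m : (0 : ℝ) ≤ (m : ℝ))]
  set G : ℝ := ((m + 2 : ℕ) : ℝ) with hG
  have hG2 : 2 ≤ G := by rw [hG]; push_cast; linarith [(Nat.cast_nonneg m : (0 : ℝ) ≤ (m : ℝ))]
  have hR : 0 < Real.sqrt G := Real.sqrt_pos.2 (by linarith)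
  have h2 : 0 < Real.sqrt 2 := Real.sqrt_pos.2 (by norm_num)
  set q : ℝ := 5 * (97 / 100) * (7 / (4 * Real.sqrt 2)) with hq
  have hq0 : 0 < q := by rw [hq]; positivity
  have hmain := JC3_main m C hC G hG q hq0 JC3_num
  set F : ℝ := Real.sqrt (m.factorial : ℝ) ^ 3 with hF
  have hF0 : 0 < F := by rw [hF]; positivity
  have hs0 : 0 < s := by linarith
  have h1 : 4 * s ^ (m + 2) + 1 ≤ 5 * s ^ (m + 2) := by
    have : 1 ≤ s ^ (m + 2) := one_le_pow₀ (by linarith)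
    linarith
  have h5 : (5 : ℝ) ^ (m + 2) ≤ s ^ (m + 2) := pow_le_pow_left₀ (by norm_num) hs _
  set A : ℝ := (1789 / 1000 * (2 * G + Real.sqrt G)) ^ m with hA
  have hA0 : 0 < A := by rw [hA]; positivity
  set E : ℝ := s ^ (m * (m + 1) / 2) with hE
  have hE0 : 0 < E := by rw [hE]; positivity
  set T : ℝ := Real.sqrt ((m : ℝ) + 1) with hT
  have hT0 : 0 ≤ T := Real.sqrt_nonneg _
  set f : ℝ := ((m + 2).factorial : ℝ) with hf
  have hf0 : 0 < f := by rw [hf]; positivity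
  set D : ℝ := 20 * Real.exp 25 * C with hD
  have hD0 : 0 ≤ D := by rw [hD]; positivity
  have hR2 : D * s * (97 / 100) ^ (m + 2) * (s ^ (m * (m + 1) / 2 + (2 * m + 3)) *
      (7 * Real.sqrt G / (4 * Real.sqrt 2)) ^ (m + 2) / f) =
      E * s ^ (m + 2) * (D * (s ^ (m + 2) * (q / 5) ^ (m + 2)) * Real.sqrt G ^ (m + 2) / f) := by
    rw [pow_add s (m * (m + 1) / 2) (2 * m + 3), ← hE]
    have e1 : s * s ^ (2 * m + 3) = s ^ (m + 2) * s ^ (m + 2) := by ring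
    have e2 : (q / 5) ^ (m + 2) = (97 / 100) ^ (m + 2) * (7 / (4 * Real.sqrt 2)) ^ (m + 2) := by
      rw [hq, ← mul_pow]
      congr 1
      ring
    have e3 : (7 * Real.sqrt G / (4 * Real.sqrt 2)) ^ (m + 2) =
        (7 / (4 * Real.sqrt 2)) ^ (m + 2) * Real.sqrt G ^ (m + 2) := by
      rw [← mul_pow]
      congr 1
      ring
    rw [e2, e3]
    generalize ((97 / 100 : ℝ)) ^ (m + 2) = a
    generalize (7 / (4 * Real.sqrt 2)) ^ (m + 2) = b
    generalize Real.sqrt G ^ (m + 2) = c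
    generalize s ^ (m + 2) = x at e1 ⊢
    generalize s ^ (2 * m + 3) = y at e1 ⊢
    calc D * s * a * (E * y * (b * c) / f) = (s * y) * (D * a * E * b * c * f⁻¹) := by ring
      _ = (x * x) * (D * a * E * b * c * f⁻¹) := by rw [e1]
      _ = E * x * (D * (x * (a * b)) * c / f) := by ring
  rw [hR2]
  have hL : 2 * T * A * E / F * (4 * s ^ (m + 2) + 1) * (2 * G) ≤ E * s ^ (m + 2) * (20 * G ^ 2 * A / F) := by
    calc 2 * T * A * E / F * (4 * s ^ (m + 2) + 1) * (2 * G)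
        ≤ 2 * G * A * E / F * (5 * s ^ (m + 2)) * (2 * G) := by
          gcongr
      _ = E * s ^ (m + 2) * (20 * G ^ 2 * A / F) := by ring
  refine hL.trans (mul_le_mul_of_nonneg_left ?_ (by positivity))
  rw [div_le_div_iff₀ hF0 hf0]
  calc 20 * G ^ 2 * A * f ≤ D * q ^ (m + 2) * Real.sqrt G ^ (m + 2) * F := hmain
    _ = D * (5 ^ (m + 2) * (q / 5) ^ (m + 2)) * Real.sqrt G ^ (m + 2) * F := by
        rw [← mul_pow]
        congr 4
        ring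
    _ ≤ D * (s ^ (m + 2) * (q / 5) ^ (m + 2)) * Real.sqrt G ^ (m + 2) * F := by gcongr

end TJ
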