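import Pool.Agent.Lib.MP_021685_agTJ.J0

/-! LEAF JC4 (medium+).  Numerical inequality for the reducible polynomials.  (Compare the proved file `MP_021685_agTI/C4.lean`.)

PROOF.  Let `1 ≤ i < g`, `k = g - i`.  As in JC2: `upJ s i i ≤ 2 √(i+1) e^(√i/2) (3.578 e^(3/2))^i √i^(-i) s^(i(i+1)/2)` (`(1.789(2i + √i))^i ≤ (3.578 i)^i e^(√i/2)`, `√(i!)³ ≥ (i/e)^(3i/2)`, `i^i/i^(3i/2) = √i^(-i)`).
`1/lowJ s g = g!/(s^(g(g+1)/2) (7√g/(4√2))^g)` and `g! ≤ e g (g/e)^g` (induction: `(1 + 1/g)^(g+1) ≥ e`).  So the quotient of `upJ s i i * upJ s k k` by `lowJ s g` is at most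
`4 (g+1) e^(√g) e g Y^g R s^(-ik)`, `Y = 3.578 e^(3/2) (4√2/7)/e = 3.578 (4√2/7) e^(1/2) ≤ 4.7674` and `R = √g^g √i^(-i) √k^(-k)` (`√i + √k ≤ 2√g`, exponent of `s`: `i(i+1)/2 + k(k+1)/2 - g(g+1)/2 = -ik`).
(a) `i = 1` or `k = 1`: `ik = g - 1`, `R = √g (g/(g-1))^((g-1)/2) ≤ √g √e ≤ 2 √g` (`(1 + 1/(g-1))^(g-1) ≤ e`), `s^(1-g) ≤ s/5^g`: the quotient is at most `C_1 g^3 e^(√g) s (Y/5)^g`, `Y/5 ≤ 0.95348`.
(b) `2 ≤ i ≤ g - 2` (so `g ≥ 4`): `ik ≥ 2(g - 2)`, `s^(-ik) ≤ 5^(-(2g-4))`, `R ≤ √2^g` (`i^i k^k ≥ (g/2)^g`, see C4): the quotient is at most `C_2 g^2 e^(√g) (Y √2/25)^g`, `Y √2/25 ≤ 0.27`.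
There are `g - 1` terms; `g^4 e^(√g) (0.95348 * 100/97)^g` is bounded: `0.95348/0.97 ≤ 0.983 ≤ e^(-1/80)`, `√g ≤ g/400 + 100`, `g^4 ≤ 4! 400^4 e^(g/400)`. -/

namespace TJ

private theorem JC4_one (s : ℝ) (hs : 0 < s) (i : ℕ) (hi : 1 ≤ i) :
    upJ s i i ≤ 2 * Real.sqrt (i + 1) * Real.exp (Real.sqrt i / 2) * (3578 / 1000 * Real.exp (3 / 2)) ^ i *
      (1 / Real.sqrt i) ^ i * s ^ (i * (i + 1) / 2) := by
  have hi0 : (0 : ℝ) < i := by exact_mod_cast hi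
  obtain ⟨r, hr⟩ : ∃ r : ℝ, r = Real.sqrt i := ⟨_, rfl⟩
  obtain ⟨v, hv⟩ : ∃ v : ℝ, v = Real.sqrt (i + 1) := ⟨_, rfl⟩
  have hv0 : 0 ≤ v := by rw [hv]; exact Real.sqrt_nonneg _
  have hr0 : 0 < r := by rw [hr]; exact Real.sqrt_pos.2 hi0
  have hr2 : r ^ 2 = i := by rw [hr]; exact Real.sq_sqrt hi0.le
  obtain ⟨n, hn⟩ : ∃ n : ℕ, n = i * (i + 1) / 2 := ⟨_, rfl⟩
  unfold upJ
  rw [← hr, ← hn, ← hv]
  have hf : (0 : ℝ) < i.factorial := by exact_mod_cast i.factorial_pos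
  have hsf : 0 < Real.sqrt (i.factorial) := Real.sqrt_pos.2 hf
  rw [div_le_iff₀ (by positivity)]
  have h1 : (1789 / 1000 * (2 * (i : ℝ) + r)) ^ i ≤ (3578 / 1000 * r ^ 2) ^ i * Real.exp (r / 2) := by
    have e1 : 1789 / 1000 * (2 * (i : ℝ) + r) = 3578 / 1000 * r ^ 2 * (1 / (2 * r) + 1) := by
      rw [← hr2]
      field_simp
      ring
    have e2 : Real.exp (r / 2) = Real.exp (1 / (2 * r)) ^ i := by
      rw [← Real.exp_nat_mul]
      congr 1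
      rw [← hr2]
      field_simp
    rw [e1, mul_pow, e2]
    refine mul_le_mul_of_nonneg_left ?_ (by positivity)
    exact pow_le_pow_left₀ (by positivity) (Real.add_one_le_exp _) i
  have h2 : (r * Real.exp (-(1 / 2))) ^ i ≤ Real.sqrt (i.factorial) := by
    refine Real.le_sqrt_of_sq_le ?_
    have h3 := Real.pow_div_factorial_le_exp (x := (i : ℝ)) hi0.le i
    rw [div_le_iff₀ hf] at h3
    have e1 : ((r * Real.exp (-(1 / 2))) ^ i) ^ 2 = (i : ℝ) ^ i * Real.exp (-(i : ℝ)) := by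
      rw [← hr2, ← pow_mul, mul_comm i 2, pow_mul, mul_pow, mul_pow, ← Real.exp_nat_mul, ← Real.exp_nat_mul]
      congr 2
      rw [← hr2]
      push_cast
      ring
    rw [e1, Real.exp_neg, ← div_eq_mul_inv, div_le_iff₀ (Real.exp_pos _)]
    linarith
  have h3 : ((r * Real.exp (-(1 / 2))) ^ i) ^ 3 ≤ Real.sqrt (i.factorial) ^ 3 :=
    pow_le_pow_left₀ (by positivity) h2 3
  have e3 : (3578 / 1000 * Real.exp (3 / 2)) ^ i * (1 / r) ^ i * ((r * Real.exp (-(1 / 2))) ^ i) ^ 3 =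
      (3578 / 1000 * r ^ 2) ^ i := by
    rw [← pow_mul, mul_comm i 3, pow_mul, ← mul_pow, ← mul_pow]
    congr 1
    have h4 : Real.exp (3 / 2) * Real.exp (-(1 / 2)) ^ 3 = 1 := by
      rw [← Real.exp_nat_mul, ← Real.exp_add]
      norm_num
    calc 3578 / 1000 * Real.exp (3 / 2) * (1 / r) * (r * Real.exp (-(1 / 2))) ^ 3 =
          3578 / 1000 * (r ^ 3 * (1 / r)) * (Real.exp (3 / 2) * Real.exp (-(1 / 2)) ^ 3) := by ring
      _ = 3578 / 1000 * (r ^ 3 * (1 / r)) := by rw [h4, mul_one]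
      _ = 3578 / 1000 * r ^ 2 := by field_simp
  have h5 : 0 ≤ 2 * v * Real.exp (r / 2) * (3578 / 1000 * Real.exp (3 / 2)) ^ i * (1 / r) ^ i * s ^ n := by positivity
  have h6 : 0 < s ^ n := pow_pos hs n
  calc 2 * v * (1789 / 1000 * (2 * (i : ℝ) + r)) ^ i * s ^ n ≤
        2 * v * ((3578 / 1000 * r ^ 2) ^ i * Real.exp (r / 2)) * s ^ n := by
        refine mul_le_mul_of_nonneg_right ?_ h6.le
        exact mul_le_mul_of_nonneg_left h1 (by positivity)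
    _ = 2 * v * Real.exp (r / 2) * s ^ n * ((3578 / 1000 * Real.exp (3 / 2)) ^ i * (1 / r) ^ i *
          ((r * Real.exp (-(1 / 2))) ^ i) ^ 3) := by
        rw [e3]
        ring
    _ = 2 * v * Real.exp (r / 2) * (3578 / 1000 * Real.exp (3 / 2)) ^ i * (1 / r) ^ i * s ^ n *
          ((r * Real.exp (-(1 / 2))) ^ i) ^ 3 := by ring
    _ ≤ 2 * v * Real.exp (r / 2) * (3578 / 1000 * Real.exp (3 / 2)) ^ i * (1 / r) ^ i * s ^ n *
          Real.sqrt (i.factorial) ^ 3 := mul_le_mul_of_nonneg_left h3 h5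

private theorem JC4_amgm (i k : ℕ) (hi : 1 ≤ i) (hk : 1 ≤ k) :
    (1 / (i : ℝ)) ^ i * (1 / (k : ℝ)) ^ k ≤ (2 / ((i + k : ℕ) : ℝ)) ^ (i + k) := by
  have hi0 : (0 : ℝ) < i := by exact_mod_cast hi
  have hk0 : (0 : ℝ) < k := by exact_mod_cast hk
  have hg0 : (0 : ℝ) < ((i + k : ℕ) : ℝ) := by
    push_cast
    linarith
  have h1 := Real.geom_mean_le_arith_mean2_weighted (w₁ := (i : ℝ) / ((i + k : ℕ) : ℝ))
    (w₂ := (k : ℝ) / ((i + k : ℕ) : ℝ)) (p₁ := 1 / (i : ℝ)) (p₂ := 1 / (k : ℝ))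
    (by positivity) (by positivity) (by positivity) (by positivity) (by
      rw [← add_div]
      push_cast
      exact div_self (by linarith))
  have e1 : (i : ℝ) / ((i + k : ℕ) : ℝ) * (1 / (i : ℝ)) + (k : ℝ) / ((i + k : ℕ) : ℝ) * (1 / (k : ℝ)) =
      2 / ((i + k : ℕ) : ℝ) := by
    field_simp
    ring
  rw [e1] at h1
  have h2 := pow_le_pow_left₀ (by positivity) h1 (i + k)
  refine le_trans (le_of_eq ?_) h2
  rw [mul_pow]
  congr 1
  · rw [← Real.rpow_natCast (_ ^ _) (i + k), ← Real.rpow_mul (by positivity), div_mul_cancel₀ _ hg0.ne',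
      Real.rpow_natCast]
  · rw [← Real.rpow_natCast (_ ^ _) (i + k), ← Real.rpow_mul (by positivity), div_mul_cancel₀ _ hg0.ne',
      Real.rpow_natCast]

/-- the powers of `i`, `k`, `g`, squared -/
private theorem JC4_sq (i k : ℕ) (hi : 1 ≤ i) (hk : 1 ≤ k) :
    ((1 / Real.sqrt i) ^ i * (1 / Real.sqrt k) ^ k * Real.sqrt ((i + k : ℕ) : ℝ) ^ (i + k)) ^ 2 =
      (1 / (i : ℝ)) ^ i * (1 / (k : ℝ)) ^ k * ((i + k : ℕ) : ℝ) ^ (i + k) := by
  have hi0 : (0 : ℝ) < i := by exact_mod_cast hi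
  have hk0 : (0 : ℝ) < k := by exact_mod_cast hk
  have hg0 : (0 : ℝ) ≤ ((i + k : ℕ) : ℝ) := Nat.cast_nonneg _
  rw [mul_pow, mul_pow, ← pow_mul, ← pow_mul, ← pow_mul, mul_comm i 2, mul_comm k 2, mul_comm (i + k) 2, pow_mul,
    pow_mul, pow_mul, div_pow 1 (Real.sqrt i) 2, div_pow 1 (Real.sqrt k) 2, Real.sq_sqrt hi0.le, Real.sq_sqrt hk0.le,
    Real.sq_sqrt hg0, one_pow]

private theorem JC4_Ra (k : ℕ) (hk : 1 ≤ k) :
    (1 / (1 : ℝ)) ^ 1 * (1 / (k : ℝ)) ^ k * ((1 + k : ℕ) : ℝ) ^ (1 + k) ≤ (2 * ((1 + k : ℕ) : ℝ)) ^ 2 := by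
  have hk0 : (0 : ℝ) < k := by exact_mod_cast hk
  have h1 : (1 / (k : ℝ)) ^ k * ((1 + k : ℕ) : ℝ) ^ k ≤ 4 := by
    have e1 : 1 / (k : ℝ) * ((1 + k : ℕ) : ℝ) = 1 / (k : ℝ) + 1 := by
      push_cast
      field_simp
    rw [← mul_pow, e1]
    have h2 := pow_le_pow_left₀ (by positivity) (Real.add_one_le_exp (1 / (k : ℝ))) k
    refine h2.trans ?_
    have e2 : Real.exp (1 / (k : ℝ)) ^ k = Real.exp 1 := by
      rw [← Real.exp_nat_mul]
      congr 1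
      field_simp
    rw [e2]
    have := Real.exp_one_lt_d9
    linarith
  have h3 : (1 : ℝ) ≤ ((1 + k : ℕ) : ℝ) := by
    push_cast
    linarith
  rw [add_comm 1 k, pow_succ]
  rw [add_comm 1 k] at h1 h3
  calc (1 / (1 : ℝ)) ^ 1 * (1 / (k : ℝ)) ^ k * (((k + 1 : ℕ) : ℝ) ^ k * ((k + 1 : ℕ) : ℝ)) =
        ((1 / (k : ℝ)) ^ k * ((k + 1 : ℕ) : ℝ) ^ k) * ((k + 1 : ℕ) : ℝ) := by ring
    _ ≤ 4 * ((k + 1 : ℕ) : ℝ) := mul_le_mul_of_nonneg_right h1 (by positivity)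
    _ ≤ (2 * ((k + 1 : ℕ) : ℝ)) ^ 2 := by nlinarith

private theorem JC4_tri (i k : ℕ) :
    i * (i + 1) / 2 + k * (k + 1) / 2 + i * k = (i + k) * (i + k + 1) / 2 := by
  obtain ⟨a, ha⟩ := Nat.even_mul_succ_self i
  obtain ⟨b, hb⟩ := Nat.even_mul_succ_self k
  have h2 : (i + k) * (i + k + 1) = i * (i + 1) + k * (k + 1) + 2 * (i * k) := by ring
  rw [h2, ha, hb]
  omega

private theorem JC4_expa (i k : ℕ) (hi : 1 ≤ i) (hk : 1 ≤ k) (s : ℝ) (hs : 5 ≤ s) :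
    s ^ (i * (i + 1) / 2) * s ^ (k * (k + 1) / 2) ≤ s ^ ((i + k) * (i + k + 1) / 2) * (s / 5 ^ (i + k)) := by
  have hs0 : 0 < s := by linarith
  have hs1 : 1 ≤ s := by linarith
  have h2 : i + k ≤ i * k + 1 := by
    obtain ⟨a, rfl⟩ := Nat.exists_eq_add_of_le hi
    obtain ⟨b, rfl⟩ := Nat.exists_eq_add_of_le hk
    nlinarith
  have h3 : (5 : ℝ) ^ (i + k) ≤ s ^ (i * k) * s := by
    calc (5 : ℝ) ^ (i + k) ≤ s ^ (i + k) := pow_le_pow_left₀ (by norm_num) hs _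
      _ ≤ s ^ (i * k + 1) := pow_le_pow_right₀ hs1 h2
      _ = s ^ (i * k) * s := pow_succ _ _
  rw [← JC4_tri, pow_add, pow_add, mul_assoc (s ^ (i * (i + 1) / 2) * s ^ (k * (k + 1) / 2))]
  refine le_mul_of_one_le_right (by positivity) ?_
  rw [mul_div_assoc', le_div_iff₀ (by positivity), one_mul]
  exact h3

private theorem JC4_expb (i k : ℕ) (hi : 2 ≤ i) (hk : 2 ≤ k) (s : ℝ) (hs : 5 ≤ s) :
    s ^ (i * (i + 1) / 2) * s ^ (k * (k + 1) / 2) ≤ s ^ ((i + k) * (i + k + 1) / 2) * (625 / 25 ^ (i + k)) := by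
  have hs0 : 0 < s := by linarith
  have hs1 : 1 ≤ s := by linarith
  have h2 : 2 * (i + k) ≤ i * k + 4 := by
    obtain ⟨a, rfl⟩ := Nat.exists_eq_add_of_le hi
    obtain ⟨b, rfl⟩ := Nat.exists_eq_add_of_le hk
    nlinarith
  have h3 : (25 : ℝ) ^ (i + k) ≤ s ^ (i * k) * 625 := by
    calc (25 : ℝ) ^ (i + k) = 5 ^ (2 * (i + k)) := by rw [pow_mul]; norm_num
      _ ≤ 5 ^ (i * k + 4) := pow_le_pow_right₀ (by norm_num) h2
      _ = 5 ^ (i * k) * 625 := by rw [pow_add]; norm_num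
      _ ≤ s ^ (i * k) * 625 := mul_le_mul_of_nonneg_right (pow_le_pow_left₀ (by norm_num) hs _) (by norm_num)
  rw [← JC4_tri, pow_add, pow_add, mul_assoc (s ^ (i * (i + 1) / 2) * s ^ (k * (k + 1) / 2))]
  refine le_mul_of_one_le_right (by positivity) ?_
  rw [mul_div_assoc', le_div_iff₀ (by positivity), one_mul]
  exact h3

private theorem JC4_R (i k : ℕ) (hi : 1 ≤ i) (hk : 1 ≤ k) (s : ℝ) (hs : 5 ≤ s) :
    ((1 / Real.sqrt i) ^ i * (1 / Real.sqrt k) ^ k * Real.sqrt ((i + k : ℕ) : ℝ) ^ (i + k)) *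
      (s ^ (i * (i + 1) / 2) * s ^ (k * (k + 1) / 2)) ≤
      625 * ((i + k : ℕ) : ℝ) * (s ^ ((i + k) * (i + k + 1) / 2) * (s / 5 ^ (i + k))) := by
  have hs0 : 0 < s := by linarith
  have hg1 : (1 : ℝ) ≤ ((i + k : ℕ) : ℝ) := by
    have : 1 ≤ i + k := by omega
    exact_mod_cast this
  have hsq := JC4_sq i k hi hk
  have hpos : 0 ≤ (1 / Real.sqrt i) ^ i * (1 / Real.sqrt k) ^ k * Real.sqrt ((i + k : ℕ) : ℝ) ^ (i + k) := by
    positivity
  by_cases h1 : i = 1 ∨ k = 1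
  · have h2 : (1 / Real.sqrt i) ^ i * (1 / Real.sqrt k) ^ k * Real.sqrt ((i + k : ℕ) : ℝ) ^ (i + k) ≤
        2 * ((i + k : ℕ) : ℝ) := by
      refine (pow_le_pow_iff_left₀ hpos (by positivity) two_ne_zero).1 ?_
      rw [hsq]
      rcases h1 with rfl | rfl
      · have h3 := JC4_Ra k hk
        push_cast at h3 ⊢
        exact h3
      · have h3 := JC4_Ra i hi
        rw [add_comm i 1, mul_comm ((1 / (i : ℝ)) ^ i)]
        push_cast at h3 ⊢
        exact h3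
    refine (mul_le_mul h2 (JC4_expa i k hi hk s hs) (by positivity) (by positivity)).trans ?_
    refine mul_le_mul_of_nonneg_right ?_ (by positivity)
    linarith
  · have hi2 : 2 ≤ i := by omega
    have hk2 : 2 ≤ k := by omega
    have h2 : (1 / Real.sqrt i) ^ i * (1 / Real.sqrt k) ^ k * Real.sqrt ((i + k : ℕ) : ℝ) ^ (i + k) ≤ 5 ^ (i + k) := by
      refine (pow_le_pow_iff_left₀ hpos (by positivity) two_ne_zero).1 ?_
      rw [hsq]
      refine (mul_le_mul_of_nonneg_right (JC4_amgm i k hi hk) (by positivity)).trans ?_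
      rw [← mul_pow, div_mul_cancel₀ _ (by positivity), ← pow_mul, mul_comm (i + k) 2, pow_mul]
      exact pow_le_pow_left₀ (by norm_num) (by norm_num) _
    refine (mul_le_mul h2 (JC4_expb i k hi2 hk2 s hs) (by positivity) (by positivity)).trans ?_
    have h4 : (25 : ℝ) ^ (i + k) = 5 ^ (i + k) * 5 ^ (i + k) := by
      rw [← mul_pow]
      norm_num
    have h5 : (5 : ℝ) ^ (i + k) * (s ^ ((i + k) * (i + k + 1) / 2) * (625 / 25 ^ (i + k))) =
        625 * (s ^ ((i + k) * (i + k + 1) / 2) * (1 / 5 ^ (i + k))) := by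
      rw [h4]
      field_simp
    rw [h5]
    have h6 : (1 : ℝ) / 5 ^ (i + k) ≤ s / 5 ^ (i + k) := div_le_div_of_nonneg_right (by linarith) (by positivity)
    have h7 : s ^ ((i + k) * (i + k + 1) / 2) * (1 / 5 ^ (i + k)) ≤
        s ^ ((i + k) * (i + k + 1) / 2) * (s / 5 ^ (i + k)) := mul_le_mul_of_nonneg_left h6 (by positivity)
    have h8 : 0 ≤ s ^ ((i + k) * (i + k + 1) / 2) * (s / 5 ^ (i + k)) := by positivity
    nlinarith [mul_nonneg (sub_nonneg.2 hg1) h8]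

/-- `g! ≤ e g (g / e) ^ g` -/
private theorem JC4_fact (g : ℕ) (hg : 1 ≤ g) :
    (g.factorial : ℝ) * Real.exp 1 ^ g ≤ Real.exp 1 * g * (g : ℝ) ^ g := by
  induction g, hg using Nat.le_induction with
  | base => norm_num
  | succ n hn ih =>
    have hn0 : (0 : ℝ) < n := by exact_mod_cast hn
    obtain ⟨E, hE⟩ : ∃ E : ℝ, E = Real.exp 1 := ⟨_, rfl⟩
    have hE0 : 0 < E := by rw [hE]; exact Real.exp_pos _
    have h1 : E * (n : ℝ) ^ (n + 1) ≤ ((n : ℝ) + 1) ^ (n + 1) := by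
      have h2 : (n : ℝ) ≤ ((n : ℝ) + 1) * Real.exp (-(1 / ((n : ℝ) + 1))) := by
        have h3 := Real.add_one_le_exp (-(1 / ((n : ℝ) + 1)))
        have h4 : ((n : ℝ) + 1) * (-(1 / ((n : ℝ) + 1)) + 1) = n := by
          field_simp
          ring
        calc (n : ℝ) = ((n : ℝ) + 1) * (-(1 / ((n : ℝ) + 1)) + 1) := h4.symm
          _ ≤ _ := mul_le_mul_of_nonneg_left h3 (by positivity)
      have h5 := pow_le_pow_left₀ hn0.le h2 (n + 1)
      have h6 : Real.exp (-(1 / ((n : ℝ) + 1))) ^ (n + 1) = E⁻¹ := by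
        rw [← Real.exp_nat_mul, hE, ← Real.exp_neg]
        congr 1
        push_cast
        field_simp
      rw [mul_pow, h6] at h5
      calc E * (n : ℝ) ^ (n + 1) ≤ E * (((n : ℝ) + 1) ^ (n + 1) * E⁻¹) := mul_le_mul_of_nonneg_left h5 hE0.le
        _ = ((n : ℝ) + 1) ^ (n + 1) := by field_simp
    rw [← hE] at ih ⊢
    rw [Nat.factorial_succ]
    push_cast
    calc ((n : ℝ) + 1) * (n.factorial : ℝ) * E ^ (n + 1) = ((n : ℝ) + 1) * E * ((n.factorial : ℝ) * E ^ n) := by ring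
      _ ≤ ((n : ℝ) + 1) * E * (E * n * (n : ℝ) ^ n) := mul_le_mul_of_nonneg_left ih (by positivity)
      _ = ((n : ℝ) + 1) * E * (E * (n : ℝ) ^ (n + 1)) := by ring
      _ ≤ ((n : ℝ) + 1) * E * ((n : ℝ) + 1) ^ (n + 1) := mul_le_mul_of_nonneg_left h1 (by positivity)
      _ = E * ((n : ℝ) + 1) * ((n : ℝ) + 1) ^ (n + 1) := by ring

private theorem JC4_mul (i k : ℕ) (hi : 1 ≤ i) (hk : 1 ≤ k) (s : ℝ) (hs : 5 ≤ s) :
    upJ s i i * upJ s k k ≤ 2500 * Real.exp 1 * ((i + k : ℕ) : ℝ) ^ 3 * Real.exp (Real.sqrt ((i + k : ℕ) : ℝ)) * s *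
      (3578 / 1000 * Real.exp (1 / 2) * (4 * Real.sqrt 2 / 7) / 5) ^ (i + k) * lowJ s (i + k) := by
  have hs0 : 0 < s := by linarith
  have hi0 : (0 : ℝ) < i := by exact_mod_cast hi
  have hk0 : (0 : ℝ) < k := by exact_mod_cast hk
  have hg0 : (0 : ℝ) < ((i + k : ℕ) : ℝ) := by
    push_cast
    linarith
  have hsi : 0 < Real.sqrt i := Real.sqrt_pos.2 hi0
  have hsk : 0 < Real.sqrt k := Real.sqrt_pos.2 hk0
  have h1 := JC4_one s hs0 i hi
  have h2 := JC4_one s hs0 k hk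
  have hup : 0 ≤ upJ s k k := by
    unfold upJ
    positivity
  have h3 := mul_le_mul h1 h2 hup (by positivity)
  refine h3.trans ?_
  have h4 : Real.exp (Real.sqrt i / 2) * Real.exp (Real.sqrt k / 2) ≤ Real.exp (Real.sqrt ((i + k : ℕ) : ℝ)) := by
    rw [← Real.exp_add, Real.exp_le_exp]
    have h5 : Real.sqrt i ≤ Real.sqrt ((i + k : ℕ) : ℝ) := Real.sqrt_le_sqrt (by push_cast; linarith)
    have h6 : Real.sqrt k ≤ Real.sqrt ((i + k : ℕ) : ℝ) := Real.sqrt_le_sqrt (by push_cast; linarith)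
    linarith
  have h5 : Real.sqrt (i + 1) * Real.sqrt (k + 1) ≤ ((i + k : ℕ) : ℝ) := by
    have hi1 : (1 : ℝ) ≤ i := by exact_mod_cast hi
    have hk1 : (1 : ℝ) ≤ k := by exact_mod_cast hk
    rw [← Real.sqrt_mul (by positivity)]
    refine Real.sqrt_le_iff.2 ⟨hg0.le, ?_⟩
    push_cast
    nlinarith
  have h6 := JC4_R i k hi hk s hs
  have h7 := JC4_fact (i + k) (by omega)
  obtain ⟨g, hg⟩ : ∃ g : ℕ, g = i + k := ⟨_, rfl⟩
  rw [← hg] at h4 h5 h6 h7 hg0 ⊢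
  obtain ⟨w, hw⟩ : ∃ w : ℝ, w = Real.sqrt (g : ℝ) := ⟨_, rfl⟩
  have hw0 : 0 < w := by rw [hw]; exact Real.sqrt_pos.2 hg0
  have hw2 : w ^ 2 = g := by rw [hw]; exact Real.sq_sqrt hg0.le
  obtain ⟨t, ht⟩ : ∃ t : ℝ, t = Real.sqrt 2 := ⟨_, rfl⟩
  have ht0 : 0 < t := by rw [ht]; exact Real.sqrt_pos.2 (by norm_num)
  obtain ⟨E, hE⟩ : ∃ E : ℝ, E = Real.exp 1 := ⟨_, rfl⟩
  have hE0 : 0 < E := by rw [hE]; exact Real.exp_pos _
  have hE3 : Real.exp (3 / 2) = E * Real.exp (1 / 2) := by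
    rw [hE, ← Real.exp_add]
    norm_num
  obtain ⟨D, hD⟩ : ∃ D : ℝ, D = Real.exp (1 / 2) := ⟨_, rfl⟩
  have hD0 : 0 < D := by rw [hD]; exact Real.exp_pos _
  have hf0 : (0 : ℝ) < g.factorial := by exact_mod_cast g.factorial_pos
  unfold lowJ
  rw [← hw] at h4 h6 ⊢
  rw [← ht, ← hE]
  rw [← hE] at h7
  rw [hE3, ← hD]
  obtain ⟨N, hN⟩ : ∃ N : ℕ, N = g * (g + 1) / 2 := ⟨_, rfl⟩
  rw [← hN] at h6 ⊢
  calc 2 * Real.sqrt (i + 1) * Real.exp (Real.sqrt i / 2) * (3578 / 1000 * (E * D)) ^ i * (1 / Real.sqrt i) ^ i *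
        s ^ (i * (i + 1) / 2) *
        (2 * Real.sqrt (k + 1) * Real.exp (Real.sqrt k / 2) * (3578 / 1000 * (E * D)) ^ k * (1 / Real.sqrt k) ^ k *
          s ^ (k * (k + 1) / 2)) =
      4 * (3578 / 1000 * (E * D)) ^ g / w ^ g * ((Real.sqrt (i + 1) * Real.sqrt (k + 1)) *
        (Real.exp (Real.sqrt i / 2) * Real.exp (Real.sqrt k / 2)) *
        (((1 / Real.sqrt i) ^ i * (1 / Real.sqrt k) ^ k * w ^ g) *
          (s ^ (i * (i + 1) / 2) * s ^ (k * (k + 1) / 2)))) := by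
        have e0 : (3578 / 1000 * (E * D)) ^ g = (3578 / 1000 * (E * D)) ^ i * (3578 / 1000 * (E * D)) ^ k := by
          rw [hg, pow_add]
        rw [e0]
        field_simp
        ring
    _ ≤ 4 * (3578 / 1000 * (E * D)) ^ g / w ^ g * ((g : ℝ) * Real.exp w * (625 * (g : ℝ) * (s ^ N * (s / 5 ^ g)))) := by
        refine mul_le_mul_of_nonneg_left ?_ (by positivity)
        refine mul_le_mul (mul_le_mul h5 h4 (by positivity) (by positivity)) h6 (by positivity) (by positivity)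
    _ = 2500 * (g : ℝ) ^ 2 * Real.exp w * s * s ^ N * (3578 / 1000 * (E * D)) ^ g / 5 ^ g / w ^ g := by
        field_simp
        ring
    _ ≤ 2500 * E * (g : ℝ) ^ 3 * Real.exp w * s * s ^ N * (3578 / 1000 * (E * D)) ^ g / 5 ^ g / w ^ g *
          ((g : ℝ) ^ g / ((g.factorial : ℝ) * E ^ g)) := by
        have e1 : 2500 * E * (g : ℝ) ^ 3 * Real.exp w * s * s ^ N * (3578 / 1000 * (E * D)) ^ g / 5 ^ g / w ^ g *
            ((g : ℝ) ^ g / ((g.factorial : ℝ) * E ^ g)) =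
            (2500 * (g : ℝ) ^ 2 * Real.exp w * s * s ^ N * (3578 / 1000 * (E * D)) ^ g / 5 ^ g / w ^ g) *
            ((E * g * (g : ℝ) ^ g) / ((g.factorial : ℝ) * E ^ g)) := by
          field_simp
        rw [e1]
        refine le_mul_of_one_le_right (by positivity) ?_
        rw [one_le_div (by positivity)]
        exact h7
    _ = 2500 * E * (g : ℝ) ^ 3 * Real.exp w * s * (3578 / 1000 * D * (4 * t / 7) / 5) ^ g *
          (s ^ N * (7 * w / (4 * t)) ^ g / (g.factorial : ℝ)) := by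
        have e1 : (3578 / 1000 * (E * D)) ^ g / 5 ^ g / w ^ g * ((g : ℝ) ^ g / E ^ g) =
            (3578 / 1000 * D * (4 * t / 7) / 5) ^ g * (7 * w / (4 * t)) ^ g := by
          rw [← div_pow, ← div_pow, ← div_pow, ← mul_pow, ← mul_pow]
          congr 1
          rw [← hw2]
          field_simp
        calc 2500 * E * (g : ℝ) ^ 3 * Real.exp w * s * s ^ N * (3578 / 1000 * (E * D)) ^ g / 5 ^ g / w ^ g *
            ((g : ℝ) ^ g / ((g.factorial : ℝ) * E ^ g)) =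
            2500 * E * (g : ℝ) ^ 3 * Real.exp w * s * s ^ N / (g.factorial : ℝ) *
              ((3578 / 1000 * (E * D)) ^ g / 5 ^ g / w ^ g * ((g : ℝ) ^ g / E ^ g)) := by
              field_simp
          _ = _ := by
              rw [e1]
              ring

theorem up_low_three : ∃ C : ℝ, 0 ≤ C ∧ ∀ s : ℝ, 5 ≤ s → ∀ g : ℕ, 2 ≤ g →
    ∑ i ∈ Finset.Ico 1 g, upJ s i i * upJ s (g - i) (g - i) ≤ C * s * (97 / 100) ^ g * lowJ s g := by
  refine ⟨2500 * Real.exp 1 * (24 * 200 ^ 4 * Real.exp 50), by positivity, fun s hs g hg => ?_⟩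
  have hs0 : 0 < s := by linarith
  have hg0 : (0 : ℝ) < g := by
    have : 0 < g := by omega
    exact_mod_cast this
  obtain ⟨Y, hY⟩ : ∃ Y : ℝ, Y = 3578 / 1000 * Real.exp (1 / 2) * (4 * Real.sqrt 2 / 7) / 5 := ⟨_, rfl⟩
  have hY0 : 0 < Y := by rw [hY]; positivity
  have hlow : 0 ≤ lowJ s g := by
    unfold lowJ
    positivity
  have h1 : ∀ i ∈ Finset.Ico 1 g, upJ s i i * upJ s (g - i) (g - i) ≤
      2500 * Real.exp 1 * (g : ℝ) ^ 3 * Real.exp (Real.sqrt g) * s * Y ^ g * lowJ s g := by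
    intro i hi
    obtain ⟨hi1, hi2⟩ := Finset.mem_Ico.1 hi
    have h2 := JC4_mul i (g - i) hi1 (by omega) s hs
    have h3 : i + (g - i) = g := by omega
    rw [h3, ← hY] at h2
    exact h2
  have h2 := Finset.sum_le_card_nsmul _ _ _ h1
  refine h2.trans ?_
  rw [nsmul_eq_mul, Nat.card_Ico]
  have h3 : ((g - 1 : ℕ) : ℝ) ≤ g := by exact_mod_cast Nat.sub_le g 1
  have h4 : 0 ≤ 2500 * Real.exp 1 * (g : ℝ) ^ 3 * Real.exp (Real.sqrt g) * s * Y ^ g * lowJ s g := by positivity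
  refine (mul_le_mul_of_nonneg_right h3 h4).trans ?_
  have h5 : (g : ℝ) ^ 4 ≤ 24 * 200 ^ 4 * Real.exp (g / 200) := by
    have h6 := Real.pow_div_factorial_le_exp (x := (g : ℝ) / 200) (by positivity) 4
    have h7 : ((Nat.factorial 4 : ℕ) : ℝ) = 24 := by norm_num [Nat.factorial]
    rw [h7, div_pow, div_div, div_le_iff₀ (by norm_num)] at h6
    linarith
  have h6 : Real.exp (Real.sqrt g) ≤ Real.exp (g / 200) * Real.exp 50 := by
    rw [← Real.exp_add, Real.exp_le_exp]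
    have h7 := Real.sq_sqrt hg0.le
    nlinarith [sq_nonneg (Real.sqrt g - 100)]
  have h7 : Real.exp (g / 200) * Real.exp (g / 200) * Y ^ g ≤ (97 / 100) ^ g := by
    have e1 : Real.exp (g / 200) * Real.exp (g / 200) = Real.exp (1 / 100) ^ g := by
      rw [← Real.exp_add, ← Real.exp_nat_mul]
      congr 1
      ring
    rw [e1, ← mul_pow]
    refine pow_le_pow_left₀ (by positivity) ?_ g
    have h8 : Real.exp (51 / 100) ≤ 16653 / 10000 := by
      refine (pow_le_pow_iff_left₀ (Real.exp_pos _).le (by norm_num) (show (100 : ℕ) ≠ 0 by norm_num)).1 ?_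
      have e2 : Real.exp (51 / 100) ^ 100 = Real.exp 1 ^ 51 := by
        rw [← Real.exp_nat_mul, ← Real.exp_nat_mul]
        norm_num
      rw [e2]
      refine (pow_le_pow_left₀ (Real.exp_pos _).le Real.exp_one_lt_d9.le 51).trans ?_
      norm_num
    have h9 : Real.sqrt 2 ≤ 141422 / 100000 := by
      refine Real.sqrt_le_iff.2 ⟨by norm_num, by norm_num⟩
    have e3 : Real.exp (1 / 100) * Y = Real.exp (51 / 100) * (3578 / 1000 * 4 / 35) * Real.sqrt 2 := by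
      rw [hY, show (51 / 100 : ℝ) = 1 / 100 + 1 / 2 by norm_num, Real.exp_add]
      ring
    rw [e3]
    refine (mul_le_mul (mul_le_mul_of_nonneg_right h8 (by norm_num)) h9 (Real.sqrt_nonneg _) (by norm_num)).trans ?_
    norm_num
  have h8 : 0 < Real.exp (g / 200) := Real.exp_pos _
  have h9 : (g : ℝ) ^ 4 * Real.exp (Real.sqrt g) * Y ^ g ≤ 24 * 200 ^ 4 * Real.exp 50 * (97 / 100) ^ g := by
    calc (g : ℝ) ^ 4 * Real.exp (Real.sqrt g) * Y ^ g ≤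
          (24 * 200 ^ 4 * Real.exp (g / 200)) * (Real.exp (g / 200) * Real.exp 50) * Y ^ g := by
          refine mul_le_mul_of_nonneg_right ?_ (by positivity)
          exact mul_le_mul h5 h6 (by positivity) (by positivity)
      _ = 24 * 200 ^ 4 * Real.exp 50 * (Real.exp (g / 200) * Real.exp (g / 200) * Y ^ g) := by ring
      _ ≤ 24 * 200 ^ 4 * Real.exp 50 * (97 / 100) ^ g := mul_le_mul_of_nonneg_left h7 (by positivity)
  calc (g : ℝ) * (2500 * Real.exp 1 * (g : ℝ) ^ 3 * Real.exp (Real.sqrt g) * s * Y ^ g * lowJ s g) =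
        2500 * Real.exp 1 * ((g : ℝ) ^ 4 * Real.exp (Real.sqrt g) * Y ^ g) * (s * lowJ s g) := by ring
    _ ≤ 2500 * Real.exp 1 * (24 * 200 ^ 4 * Real.exp 50 * (97 / 100) ^ g) * (s * lowJ s g) := by
        refine mul_le_mul_of_nonneg_right ?_ (by positivity)
        exact mul_le_mul_of_nonneg_left h9 (by positivity)
    _ = 2500 * Real.exp 1 * (24 * 200 ^ 4 * Real.exp 50) * s * (97 / 100) ^ g * lowJ s g := by ring

end TJ
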