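import Pool.Agent.Lib.MP_021685_agTJ.JA7
import Pool.Agent.Lib.MP_021685_agTJ.JB9
import Pool.Agent.Lib.MP_021685_agTJ.JC1
import Pool.Agent.Lib.MP_021685_agTJ.JC2
import Pool.Agent.Lib.MP_021685_agTJ.JC3
import Pool.Agent.Lib.MP_021685_agTJ.JC4

/-! LEAF JC5 (easy+).  The three counting inequalities.  Copy of the proved file `MP_021685_agTI/C5.lean` with `s = √q ≥ 5`, `upJ`, `lowJ`, `TJ.pre_card_le`, `TJ.prod_le_up`, `TJ.Weil_card_ge`. -/

namespace TJ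

open Polynomial TI

private theorem JC5_sqrt {q : ℕ} (hq : 25 ≤ q) : (5 : ℝ) ≤ Real.sqrt q := by
  refine Real.le_sqrt_of_sq_le ?_
  norm_num
  exact hq

private theorem JC5_up {q g k : ℕ} (hq : 25 ≤ q) (hg : 1 ≤ g) (hk : k ≤ g) :
    (((pre g k) '' Weil q g).ncard : ℝ) ≤ upJ (Real.sqrt q) g k :=
  (TJ.pre_card_le (by omega) hg hk).trans (TJ.prod_le_up (JC5_sqrt hq) hg hk)

private theorem JC5_inj (q g : ℕ) : Set.InjOn (pre g g) (Weil q g) := by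
  intro h hh h' hh' he
  ext i
  rcases lt_trichotomy i g with hi | hi | hi
  · have h1 := congrFun he ⟨g - 1 - i, by omega⟩
    unfold pre at h1
    have h2 : g - 1 - (g - 1 - i) = i := by omega
    simp only [h2] at h1
    exact h1
  · subst hi
    have h1 : h.coeff i = 1 := by
      have := hh.1.coeff_natDegree
      rwa [hh.2.1] at this
    have h2 : h'.coeff i = 1 := by
      have := hh'.1.coeff_natDegree
      rwa [hh'.2.1] at this
    rw [h1, h2]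
  · rw [coeff_eq_zero_of_natDegree_lt (by rw [hh.2.1]; exact hi),
      coeff_eq_zero_of_natDegree_lt (by rw [hh'.2.1]; exact hi)]

private theorem JC5_all {q g : ℕ} (hq : 25 ≤ q) (hg : 1 ≤ g) :
    ((Weil q g).ncard : ℝ) ≤ upJ (Real.sqrt q) g g := by
  rw [← (JC5_inj q g).ncard_image]
  exact JC5_up hq hg le_rfl

theorem count_lines : ∃ C : ℝ, 0 ≤ C ∧ ∀ q : ℕ, 25 ≤ q → ∀ g : ℕ, 2 ≤ g →
    ((pre g (g - 1) '' Weil q g).ncard : ℝ) * (1001 / 1000) ^ (4 * g) ≤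
      C * (97 / 100) ^ g * ((Weil q g).ncard : ℝ) := by
  obtain ⟨C, hC, h⟩ := TJ.up_low_one
  refine ⟨C, hC, fun q hq g hg => ?_⟩
  calc ((pre g (g - 1) '' Weil q g).ncard : ℝ) * (1001 / 1000) ^ (4 * g)
      ≤ upJ (Real.sqrt q) g (g - 1) * (1001 / 1000) ^ (4 * g) :=
        mul_le_mul_of_nonneg_right (JC5_up hq (by omega) (by omega)) (by positivity)
    _ ≤ C * (97 / 100) ^ g * lowJ (Real.sqrt q) g := h _ (JC5_sqrt hq) g hg
    _ ≤ C * (97 / 100) ^ g * ((Weil q g).ncard : ℝ) :=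
        mul_le_mul_of_nonneg_left (TJ.Weil_card_ge hq (by omega)) (by positivity)

theorem count_bad : ∃ C : ℝ, 0 ≤ C ∧ ∀ q : ℕ, 25 ≤ q → ∀ g : ℕ, 2 ≤ g →
    ((pre g (g - 2) '' Weil q g).ncard : ℝ) * (4 * Real.sqrt q ^ g + 1) * (2 * g) ≤
      C * Real.sqrt q * (97 / 100) ^ g * ((Weil q g).ncard : ℝ) := by
  obtain ⟨C, hC, h⟩ := TJ.up_low_two
  refine ⟨C, hC, fun q hq g hg => ?_⟩
  calc ((pre g (g - 2) '' Weil q g).ncard : ℝ) * (4 * Real.sqrt q ^ g + 1) * (2 * g)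
      ≤ upJ (Real.sqrt q) g (g - 2) * (4 * Real.sqrt q ^ g + 1) * (2 * g) :=
        mul_le_mul_of_nonneg_right (mul_le_mul_of_nonneg_right (JC5_up hq (by omega) (by omega))
          (by positivity)) (by positivity)
    _ ≤ C * Real.sqrt q * (97 / 100) ^ g * lowJ (Real.sqrt q) g := h _ (JC5_sqrt hq) g hg
    _ ≤ C * Real.sqrt q * (97 / 100) ^ g * ((Weil q g).ncard : ℝ) :=
        mul_le_mul_of_nonneg_left (TJ.Weil_card_ge hq (by omega)) (by positivity)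

theorem count_red : ∃ C : ℝ, 0 ≤ C ∧ ∀ q : ℕ, 25 ≤ q → ∀ g : ℕ, 2 ≤ g →
    ∑ i ∈ Finset.Ico 1 g, ((Weil q i).ncard : ℝ) * ((Weil q (g - i)).ncard : ℝ) ≤
      C * Real.sqrt q * (97 / 100) ^ g * ((Weil q g).ncard : ℝ) := by
  obtain ⟨C, hC, h⟩ := TJ.up_low_three
  refine ⟨C, hC, fun q hq g hg => ?_⟩
  calc ∑ i ∈ Finset.Ico 1 g, ((Weil q i).ncard : ℝ) * ((Weil q (g - i)).ncard : ℝ)
      ≤ ∑ i ∈ Finset.Ico 1 g, upJ (Real.sqrt q) i i * upJ (Real.sqrt q) (g - i) (g - i) := by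
        refine Finset.sum_le_sum fun i hi => ?_
        rw [Finset.mem_Ico] at hi
        have h1 := JC5_all hq hi.1
        have h2 := JC5_all hq (show 1 ≤ g - i by omega)
        exact mul_le_mul h1 h2 (Nat.cast_nonneg _) ((Nat.cast_nonneg _).trans h1)
    _ ≤ C * Real.sqrt q * (97 / 100) ^ g * lowJ (Real.sqrt q) g := h _ (JC5_sqrt hq) g hg
    _ ≤ C * Real.sqrt q * (97 / 100) ^ g * ((Weil q g).ncard : ℝ) :=
        mul_le_mul_of_nonneg_left (TJ.Weil_card_ge hq (by omega)) (by positivity)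

end TJ
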