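import Pool.Agent.Lib.MP_021685_agTI.E0

/-! Definitions of T-INF version 2 (all fields with at least 25 elements). -/

namespace TJ

open Polynomial TI

open Classical in
/-- the primes `ℓ` with `g ^ 3 < ℓ ≤ (1001/1000) ^ g`, odd, not dividing `q`, modulo which `q` is a square -/
noncomputable def PgJ (q g : ℕ) : Finset ℕ :=
  (Finset.Icc 1 ⌊((1001 : ℝ) / 1000) ^ g⌋₊).filter
    (fun ℓ => ℓ.Prime ∧ g ^ 3 < ℓ ∧ Odd ℓ ∧ ¬ ℓ ∣ q ∧ IsSquare ((q : ℕ) : ZMod ℓ))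

/-- some prime of the sieve divides `resq q h` exactly once, and `h` is separable modulo this prime -/
def GoodRJ (q g : ℕ) (h : ℤ[X]) : Prop :=
  ∃ ℓ ∈ PgJ q g, (ℓ : ℤ) ∣ resq q h ∧ ¬ (ℓ : ℤ) ^ 2 ∣ resq q h ∧
    (h.map (Int.castRingHom (ZMod ℓ))).Separable

/-- upper bound for the number of prefixes of length `k` -/
noncomputable def upJ (s : ℝ) (g k : ℕ) : ℝ :=
  2 * Real.sqrt (k + 1) * (1789 / 1000 * (2 * (g : ℝ) + Real.sqrt g)) ^ k * s ^ (k * (k + 1) / 2) /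
    Real.sqrt (k.factorial) ^ 3

/-- lower bound for the number of all -/
noncomputable def lowJ (s : ℝ) (g : ℕ) : ℝ :=
  s ^ (g * (g + 1) / 2) * (7 * Real.sqrt g / (4 * Real.sqrt 2)) ^ g / (g.factorial : ℝ)

end TJ
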