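import Pool.Agent.Lib.MP_1ad228_ntR.RC5
import Pool.Agent.Lib.MP_021685_agTJ.J0

/-! LEAF JD1 (easy+).  The primes of the sieve.  Copy of the proved file `MP_021685_agTI/D1.lean` with `1001/1000` for `21/20` (only the last step, the choice of the number `J` of windows and of `g_0`, changes: `log (1001/1000) ≥ 1/1001`). -/

namespace TJ

open Classical in
private noncomputable def JD1_W (q a b : ℕ) : Finset ℕ :=
  (Finset.Icc 1 b).filter
    (fun ℓ => ℓ.Prime ∧ a < ℓ ∧ Odd ℓ ∧ ¬ ℓ ∣ q ∧ IsSquare ((q : ℕ) : ZMod ℓ))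

private theorem JD1_mem {q a b ℓ : ℕ} : ℓ ∈ JD1_W q a b ↔
    (ℓ.Prime ∧ Odd ℓ ∧ ¬ ℓ ∣ q ∧ IsSquare ((q : ℕ) : ZMod ℓ)) ∧ a < ℓ ∧ ℓ ≤ b := by
  simp only [JD1_W, Finset.mem_filter, Finset.mem_Icc]
  constructor
  · rintro ⟨⟨_, h1⟩, h2, h3, h4, h5, h6⟩
    exact ⟨⟨h2, h4, h5, h6⟩, h3, h1⟩
  · rintro ⟨⟨h2, h4, h5, h6⟩, h3, h1⟩
    exact ⟨⟨by omega, h1⟩, h2, h3, h4, h5, h6⟩

private theorem JD1_split {q a b c : ℕ} (hab : a ≤ b) (hbc : b ≤ c) (f : ℕ → ℝ) :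
    ∑ ℓ ∈ JD1_W q a c, f ℓ = ∑ ℓ ∈ JD1_W q a b, f ℓ + ∑ ℓ ∈ JD1_W q b c, f ℓ := by
  have hd : Disjoint (JD1_W q a b) (JD1_W q b c) := by
    rw [Finset.disjoint_left]
    intro ℓ h1 h2
    rw [JD1_mem] at h1 h2
    have h3 := h1.2.2
    have h4 := h2.2.1
    omega
  rw [← Finset.sum_union hd]
  refine Finset.sum_congr ?_ fun _ _ => rfl
  ext ℓ
  rw [Finset.mem_union, JD1_mem, JD1_mem, JD1_mem]
  constructor
  · rintro ⟨h, h1, h2⟩
    rcases le_or_gt ℓ b with h3 | h3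
    · exact Or.inl ⟨h, h1, h3⟩
    · exact Or.inr ⟨h, h3, h2⟩
  · rintro (⟨h, h1, h2⟩ | ⟨h, h1, h2⟩)
    · exact ⟨h, h1, h2.trans hbc⟩
    · exact ⟨h, by omega, h2⟩

private theorem JD1_nonneg (p : ℕ) : 0 ≤ Real.log p / p :=
  div_nonneg (Real.log_natCast_nonneg p) (Nat.cast_nonneg p)

private theorem JD1_upper (q : ℕ) : ∃ C : ℝ, ∀ x : ℕ, 1 ≤ x →
    ∑ ℓ ∈ JD1_W q 0 x, Real.log ℓ / ℓ ≤ Real.log x + C := by
  obtain ⟨C, hC⟩ := ZR.mert_prime
  refine ⟨C, fun x hx => ?_⟩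
  have h1 : ∑ ℓ ∈ JD1_W q 0 x, Real.log ℓ / ℓ ≤
      ∑ p ∈ (Finset.Icc 1 x).filter Nat.Prime, Real.log p / p := by
    refine Finset.sum_le_sum_of_subset_of_nonneg ?_ fun p _ _ => JD1_nonneg p
    intro ℓ h
    rw [JD1_mem] at h
    rw [Finset.mem_filter, Finset.mem_Icc]
    exact ⟨⟨h.1.1.one_le, h.2.2⟩, h.1.1⟩
  have h2 := abs_le.1 (hC x hx)
  linarith [h2.2]

private theorem JD1_lower_sq (q : ℕ) (hq : 1 ≤ q) (hs : IsSquare q) : ∃ C : ℝ, ∀ x : ℕ, 1 ≤ x →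
    1 / 2 * Real.log x - C ≤ ∑ ℓ ∈ JD1_W q 0 x, Real.log ℓ / ℓ := by
  obtain ⟨C, hC⟩ := ZR.mert_prime
  refine ⟨C + ∑ p ∈ (2 * q).primeFactors, Real.log p / p, fun x hx => ?_⟩
  have h1 : ∑ p ∈ (Finset.Icc 1 x).filter Nat.Prime, Real.log p / p ≤
      ∑ ℓ ∈ JD1_W q 0 x, Real.log ℓ / ℓ + ∑ p ∈ (2 * q).primeFactors, Real.log p / p := by
    have h2 : (Finset.Icc 1 x).filter Nat.Prime ⊆ JD1_W q 0 x ∪ (2 * q).primeFactors := by
      intro p hp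
      rw [Finset.mem_filter, Finset.mem_Icc] at hp
      rw [Finset.mem_union, JD1_mem, Nat.mem_primeFactors]
      by_cases hd : p ∣ 2 * q
      · exact Or.inr ⟨hp.2, hd, by omega⟩
      · refine Or.inl ⟨⟨hp.2, ?_, fun h => hd (h.mul_left 2), ?_⟩, hp.2.pos, hp.1.2⟩
        · rw [← Nat.not_even_iff_odd]
          intro he
          have h3 : p = 2 := (hp.2.even_iff).1 he
          exact hd (h3 ▸ dvd_mul_right 2 q)
        · obtain ⟨r, hr⟩ := hs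
          exact ⟨(r : ZMod p), by rw [hr]; push_cast; rfl⟩
    refine (Finset.sum_le_sum_of_subset_of_nonneg h2 fun p _ _ => JD1_nonneg p).trans ?_
    rw [← Finset.sum_union_inter]
    have h4 : 0 ≤ ∑ p ∈ JD1_W q 0 x ∩ (2 * q).primeFactors, Real.log p / p :=
      Finset.sum_nonneg fun p _ => JD1_nonneg p
    linarith
  have h2 := abs_le.1 (hC x hx)
  have h3 : 0 ≤ Real.log x := Real.log_natCast_nonneg x
  linarith [h2.1]

private theorem JD1_lower_nsq (q : ℕ) (hs : ¬ IsSquare q) : ∃ C : ℝ, ∀ x : ℕ, 1 ≤ x →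
    1 / 2 * Real.log x - C ≤ ∑ ℓ ∈ JD1_W q 0 x, Real.log ℓ / ℓ := by
  classical
  have hE : ∀ S ⊆ ({(q : ℤ)} : Finset ℤ), S.Nonempty → ¬ IsSquare (∏ e ∈ S, e) := by
    intro S hS hS'
    have h1 : S = {(q : ℤ)} := (Finset.subset_singleton_iff.1 hS).resolve_left hS'.ne_empty
    rw [h1, Finset.prod_singleton, Int.isSquare_natCast_iff]
    exact hs
  obtain ⟨C, hC⟩ := ZR.mert_class {(q : ℤ)} hE (fun _ => 1) (fun _ _ => Or.inl rfl)
  refine ⟨C, fun x hx => ?_⟩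
  have h2 := abs_le.1 (hC x hx)
  rw [Finset.card_singleton, pow_one] at h2
  have h1 : 1 / 2 * Real.log x - C ≤ ∑ p ∈ (Finset.Icc 1 x).filter
      (fun p => p.Prime ∧ ∀ e ∈ ({(q : ℤ)} : Finset ℤ), QT.chi e p = 1), Real.log p / p := by
    linarith [h2.1]
  refine h1.trans (Finset.sum_le_sum_of_subset_of_nonneg ?_ fun p _ _ => JD1_nonneg p)
  intro p hp
  rw [Finset.mem_filter, Finset.mem_Icc] at hp
  obtain ⟨⟨_, hpx⟩, hpp, hchi⟩ := hp
  have h3 := hchi q (Finset.mem_singleton_self _)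
  unfold QT.chi at h3
  have hodd : Odd p := by
    by_contra h
    rw [if_neg h] at h3
    exact zero_ne_one h3
  rw [if_pos hodd] at h3
  have : Fact p.Prime := ⟨hpp⟩
  have h4 : legendreSym p (q : ℤ) = 1 := by
    rw [jacobiSym.legendreSym.to_jacobiSym]
    exact_mod_cast h3
  have h5 : (((q : ℤ)) : ZMod p) ≠ 0 := by
    intro h
    rw [(legendreSym.eq_zero_iff p (q : ℤ)).2 h] at h4
    exact zero_ne_one h4
  have h6 := (legendreSym.eq_one_iff p h5).1 h4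
  rw [Int.cast_natCast] at h5 h6
  rw [JD1_mem]
  refine ⟨⟨hpp, hodd, fun h => h5 ((ZMod.natCast_eq_zero_iff q p).2 h), h6⟩, hpp.pos, hpx⟩

private theorem JD1_lower (q : ℕ) (hq : 1 ≤ q) : ∃ C : ℝ, ∀ x : ℕ, 1 ≤ x →
    1 / 2 * Real.log x - C ≤ ∑ ℓ ∈ JD1_W q 0 x, Real.log ℓ / ℓ := by
  by_cases hs : IsSquare q
  · exact JD1_lower_sq q hq hs
  · exact JD1_lower_nsq q hs

private theorem JD1_window (q : ℕ) (hq : 1 ≤ q) : ∃ K : ℝ, 0 < K ∧ ∀ x : ℕ, 1 ≤ x → K ≤ Real.log x →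
    (1 : ℝ) / 8 ≤ ∑ ℓ ∈ JD1_W q x (x ^ 4), (1 : ℝ) / ℓ := by
  obtain ⟨C1, h1⟩ := JD1_upper q
  obtain ⟨C2, h2⟩ := JD1_lower q hq
  refine ⟨max 1 (2 * (C1 + C2)), lt_max_of_lt_left one_pos, fun x hx hK => ?_⟩
  have hK1 : (1 : ℝ) ≤ Real.log x := (le_max_left _ _).trans hK
  have hK2 : 2 * (C1 + C2) ≤ Real.log x := (le_max_right _ _).trans hK
  have h3 := h1 x hx
  have h4 := h2 (x ^ 4) (Nat.one_le_pow _ _ hx)
  rw [JD1_split (Nat.zero_le x) (Nat.le_self_pow (by norm_num) x)] at h4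
  have h5 : Real.log ((x ^ 4 : ℕ) : ℝ) = 4 * Real.log x := by
    push_cast
    rw [Real.log_pow]
    norm_num
  rw [h5] at h4
  have h6 : ∑ ℓ ∈ JD1_W q x (x ^ 4), Real.log ℓ / ℓ ≤
      ∑ ℓ ∈ JD1_W q x (x ^ 4), 4 * Real.log x * ((1 : ℝ) / ℓ) := by
    refine Finset.sum_le_sum fun ℓ hℓ => ?_
    rw [JD1_mem] at hℓ
    have h7 : (0 : ℝ) < ℓ := by exact_mod_cast hℓ.1.1.pos
    have h8 : Real.log ℓ ≤ 4 * Real.log x := by
      rw [← h5]
      exact Real.log_le_log h7 (by exact_mod_cast hℓ.2.2)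
    rw [mul_one_div]
    exact div_le_div_of_nonneg_right h8 h7.le
  rw [← Finset.mul_sum] at h6
  by_contra hcon
  have hcon' := not_le.1 hcon
  nlinarith

private theorem JD1_chain (q : ℕ) (hq : 1 ≤ q) : ∃ K : ℝ, 0 < K ∧ ∀ x : ℕ, 1 ≤ x → K ≤ Real.log x →
    ∀ J : ℕ, (J : ℝ) / 8 ≤ ∑ ℓ ∈ JD1_W q x (x ^ 4 ^ J), (1 : ℝ) / ℓ := by
  obtain ⟨K, hK0, hK⟩ := JD1_window q hq
  refine ⟨K, hK0, fun x hx hx' J => ?_⟩
  induction J with
  | zero =>
    rw [Nat.cast_zero, zero_div]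
    exact Finset.sum_nonneg fun p _ => by positivity
  | succ J ih =>
    have h1 : x ≤ x ^ 4 ^ J := Nat.le_self_pow (by positivity) x
    have h2 : x ^ 4 ^ (J + 1) = (x ^ 4 ^ J) ^ 4 := by
      rw [← pow_mul, pow_succ]
    have h3 : K ≤ Real.log ((x ^ 4 ^ J : ℕ) : ℝ) := by
      refine hx'.trans (Real.log_le_log (by exact_mod_cast hx) (by exact_mod_cast h1))
    have h4 := hK (x ^ 4 ^ J) (hx.trans h1) h3
    rw [h2, JD1_split h1 (Nat.le_self_pow (by norm_num) _)]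
    push_cast
    linarith

theorem primes_lower (q : ℕ) (hq : 1 ≤ q) : ∃ c C : ℝ, 0 < c ∧ ∀ g : ℕ, 2 ≤ g →
    c * Real.log g - C ≤ ∑ ℓ ∈ PgJ q g, (1 : ℝ) / ℓ := by
  obtain ⟨K, hK0, hK⟩ := JD1_chain q hq
  have hl4 : 0 < Real.log 4 := Real.log_pos (by norm_num)
  obtain ⟨g0, hg0⟩ : ∃ g0 : ℕ, 12012 ^ 2 ≤ g0 ∧ Real.exp K ≤ g0 :=
    ⟨max (12012 ^ 2) ⌈Real.exp K⌉₊, le_max_left _ _,
      (Nat.le_ceil _).trans (by exact_mod_cast le_max_right _ _)⟩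
  have hlg0 : 0 ≤ Real.log g0 := Real.log_natCast_nonneg g0
  refine ⟨1 / (32 * Real.log 4), 1 / 8 + 1 / (32 * Real.log 4) * Real.log g0, by positivity, fun g hg => ?_⟩
  have hc : 0 < 1 / (32 * Real.log 4) := by positivity
  have hgpos : (0 : ℝ) < g := by exact_mod_cast (by omega : 0 < g)
  rcases lt_or_ge g g0 with h | h
  · have h1 : 0 ≤ ∑ ℓ ∈ PgJ q g, (1 : ℝ) / ℓ := Finset.sum_nonneg fun p _ => by positivity
    have h2 : Real.log g ≤ Real.log g0 := Real.log_le_log hgpos (by exact_mod_cast h.le)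
    nlinarith [mul_le_mul_of_nonneg_left h2 hc.le]
  · set J : ℕ := ⌊Real.log g / (4 * Real.log 4)⌋₊ with hJ
    have hlg : 0 ≤ Real.log g := Real.log_natCast_nonneg g
    have hJ1 : (J : ℝ) ≤ Real.log g / (4 * Real.log 4) := Nat.floor_le (by positivity)
    have hJ2 : Real.log g / (4 * Real.log 4) < J + 1 := Nat.lt_floor_add_one _
    set u : ℝ := Real.exp (Real.log g / 4) with hu
    have hu0 : 0 < u := Real.exp_pos _
    have hu4 : u ^ 4 = g := by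
      rw [hu, ← Real.exp_nat_mul]
      push_cast
      rw [mul_div_cancel₀ _ (by norm_num : (4 : ℝ) ≠ 0), Real.exp_log hgpos]
    have hlogu : Real.log u = Real.log g / 4 := by rw [hu, Real.log_exp]
    have hlog1 : Real.log g ≤ 4 * u := by
      have := Real.log_le_sub_one_of_pos hu0
      rw [hlogu] at this
      linarith
    have hu2 : 12012 ≤ u ^ 2 := by
      have h3 : (12012 : ℝ) ^ 2 ≤ (u ^ 2) ^ 2 := by
        have h4 : (u ^ 2) ^ 2 = g := by rw [← hu4]; ring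
        rw [h4]
        exact_mod_cast hg0.1.trans h
      exact (pow_le_pow_iff_left₀ (by norm_num) (by positivity) (by norm_num)).1 h3
    have h4J : (4 : ℝ) ^ J ≤ u := by
      have h3 : (4 : ℝ) ^ J = Real.exp (J * Real.log 4) := by
        rw [Real.exp_nat_mul, Real.exp_log (by norm_num)]
      rw [h3, hu]
      refine Real.exp_le_exp.2 ?_
      have := mul_le_mul_of_nonneg_right hJ1 hl4.le
      refine this.trans (le_of_eq ?_)
      field_simp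
    have hlog21 : (1 : ℝ) / 1001 ≤ Real.log (1001 / 1000) := by
      have h3 := Real.one_sub_inv_le_log_of_pos (by norm_num : (0 : ℝ) < 1001 / 1000)
      norm_num at h3 ⊢
      linarith
    have hbig : (((g ^ 3) ^ 4 ^ J : ℕ) : ℝ) ≤ (1001 / 1000) ^ g := by
      have hp1 : (0 : ℝ) < (((g ^ 3) ^ 4 ^ J : ℕ) : ℝ) := by
        exact_mod_cast pow_pos (pow_pos (by omega : 0 < g) 3) _
      rw [← Real.log_le_log_iff hp1 (by positivity)]
      push_cast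
      rw [Real.log_pow, Real.log_pow, Real.log_pow]
      push_cast
      have h5 : (4 : ℝ) ^ J * (3 * Real.log g) ≤ u * (3 * (4 * u)) :=
        mul_le_mul h4J (by linarith) (by positivity) hu0.le
      refine h5.trans ?_
      have h6 : (g : ℝ) * (1 / 1001) ≤ g * Real.log (1001 / 1000) := mul_le_mul_of_nonneg_left hlog21 hgpos.le
      refine le_trans ?_ h6
      rw [← hu4]
      nlinarith [sq_nonneg u, mul_le_mul_of_nonneg_left hu2 (sq_nonneg u)]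
    have hKg : K ≤ Real.log ((g ^ 3 : ℕ) : ℝ) := by
      have h7 : K ≤ Real.log g := by
        have h8 : Real.exp K ≤ (g : ℝ) := hg0.2.trans (by exact_mod_cast h)
        exact (Real.le_log_iff_exp_le hgpos).2 h8
      push_cast
      rw [Real.log_pow]
      push_cast
      linarith
    have h9 := hK (g ^ 3) (Nat.one_le_pow _ _ (by omega)) hKg J
    have h10 : ∑ ℓ ∈ JD1_W q (g ^ 3) ((g ^ 3) ^ 4 ^ J), (1 : ℝ) / ℓ ≤ ∑ ℓ ∈ PgJ q g, (1 : ℝ) / ℓ := by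
      refine Finset.sum_le_sum_of_subset_of_nonneg ?_ fun p _ _ => by positivity
      intro ℓ hℓ
      rw [JD1_mem] at hℓ
      simp only [PgJ, Finset.mem_filter, Finset.mem_Icc]
      exact ⟨⟨hℓ.1.1.one_le, hℓ.2.2.trans (Nat.le_floor hbig)⟩, hℓ.1.1, hℓ.2.1, hℓ.1.2.1, hℓ.1.2.2.1, hℓ.1.2.2.2⟩
    have h11 : 1 / (32 * Real.log 4) * Real.log g = Real.log g / (4 * Real.log 4) / 8 := by
      field_simp
      ring
    have h12 : 0 ≤ 1 / (32 * Real.log 4) * Real.log g0 := by positivity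
    rw [h11]
    linarith

end TJ
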