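import Pool.Agent.Lib.MP_021685_agTI.L4
import Pool.Agent.Lib.MP_021685_agTI.L2
import Pool.Agent.Lib.MP_021685_agTI.R1
import Pool.Agent.Lib.MP_021685_agTI.S0
import Pool.Agent.Lib.MP_021685_agTJ.JC5
import Pool.Agent.Lib.MP_021685_agTJ.JD1

/-! LEAF JG2 (medium).  Divisibility by one prime of the sieve, and ordinary members.

PROOF.  `N = ncard (Weil q g)`, `M = ncard (pre g (g-1) '' Weil q g)`, `g ≥ 3`.  Members that are not strict are reducible (`irreducible_strict`), at most `C √q (97/100)^g N` (`red_count`, `count_red`).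
(`mod_count`) `ℓ ∈ PgJ q g`: prime, `ℓ > g³ ≥ g`.  The strict members: `sum_fibers` with `a = (g+1)/ℓ ≤ (g+1)/g³ ≤ 2/g²`, `b = g + 1` and `line_mod`: `≤ (2/g²) N + (g+1) M`, and `M ≤ C (97/100)^g N` (`count_lines`, `(1001/1000)^(4g) ≥ 1`).  Total `≤ (C'/g) N`.
(`ord_count`) the members with `p ∣ h.coeff 0`: strict ones by `line_ord`: `≤ N/2 + M`; so the others are at least `N/2 - M - C √q (97/100)^g N ≥ N/3` for `g ≥ g₀`. -/

namespace TJ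

open Polynomial TI

private theorem G2_pow : ∃ C : ℝ, 0 ≤ C ∧ ∀ g : ℕ, 1 ≤ g → ((97 : ℝ) / 100) ^ g ≤ C / (g : ℝ) ^ 2 := by
  have h : Filter.Tendsto (fun n : ℕ => (n : ℝ) ^ 2 * ((97 : ℝ) / 100) ^ n) Filter.atTop (nhds 0) :=
    tendsto_pow_const_mul_const_pow_of_abs_lt_one 2 (by rw [abs_of_pos] <;> norm_num)
  obtain ⟨C, hC⟩ := h.bddAbove_range
  refine ⟨C, ?_, fun g hg => ?_⟩
  · have := hC ⟨0, rfl⟩
    norm_num at this
    exact this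
  · have hg0 : (0 : ℝ) < g := by exact_mod_cast hg
    rw [le_div_iff₀ (by positivity), mul_comm]
    exact hC ⟨g, rfl⟩

private theorem G2_set {q g : ℕ} (hg : 3 ≤ g) (P : ℤ[X] → Prop) {a b : ℝ} (ha : 0 ≤ a)
    (h : ∀ h₀ ∈ Weil q g,
      (({h | h ∈ Strict q g ∧ pre g (g - 1) h = pre g (g - 1) h₀ ∧ P h} : Set ℤ[X]).ncard : ℝ) ≤
        a * (({h | h ∈ Strict q g ∧ pre g (g - 1) h = pre g (g - 1) h₀} : Set ℤ[X]).ncard : ℝ) + b) :
    (({h | h ∈ Weil q g ∧ P h} : Set ℤ[X]).ncard : ℝ) ≤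
      (({h | h ∈ Weil q g ∧ ¬ Irreducible h} : Set ℤ[X]).ncard : ℝ) +
        (a * ((Weil q g).ncard : ℝ) + b * ((pre g (g - 1) '' Weil q g).ncard : ℝ)) := by
  have hfin := Weil_finite q g
  have hsub : ({h | h ∈ Weil q g ∧ P h} : Set ℤ[X]) ⊆
      {h | h ∈ Weil q g ∧ ¬ Irreducible h} ∪ {h | h ∈ Strict q g ∧ P h} := by
    rintro f ⟨hf, hP⟩
    by_cases hi : Irreducible f
    · exact Or.inr ⟨irreducible_strict hg hf hi, hP⟩
    · exact Or.inl ⟨hf, hi⟩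
  have hf1 : ({h | h ∈ Weil q g ∧ ¬ Irreducible h} : Set ℤ[X]).Finite := hfin.subset fun f hf => hf.1
  have hf2 : ({h | h ∈ Strict q g ∧ P h} : Set ℤ[X]).Finite := hfin.subset fun f hf => hf.1.1
  have h1 : ({h | h ∈ Weil q g ∧ P h} : Set ℤ[X]).ncard ≤
      ({h | h ∈ Weil q g ∧ ¬ Irreducible h} : Set ℤ[X]).ncard +
        ({h | h ∈ Strict q g ∧ P h} : Set ℤ[X]).ncard :=
    (Set.ncard_le_ncard hsub (hf1.union hf2)).trans (Set.ncard_union_le _ _)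
  have h1' : (({h | h ∈ Weil q g ∧ P h} : Set ℤ[X]).ncard : ℝ) ≤
      (({h | h ∈ Weil q g ∧ ¬ Irreducible h} : Set ℤ[X]).ncard : ℝ) +
        (({h | h ∈ Strict q g ∧ P h} : Set ℤ[X]).ncard : ℝ) := by exact_mod_cast h1
  refine h1'.trans (add_le_add le_rfl ?_)
  refine sum_fibers (X := Weil q g) (A := {h | h ∈ Strict q g ∧ P h}) hfin (fun f hf => hf.1.1)
    (pre g (g - 1)) ?_
  rintro _ ⟨h₀, hh₀, rfl⟩
  have e1 : ({h | h ∈ Strict q g ∧ P h} : Set ℤ[X]) ∩ pre g (g - 1) ⁻¹' {pre g (g - 1) h₀} =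
      {h | h ∈ Strict q g ∧ pre g (g - 1) h = pre g (g - 1) h₀ ∧ P h} := by
    ext f
    constructor
    · rintro ⟨⟨hs, hP⟩, he⟩
      exact ⟨hs, he, hP⟩
    · rintro ⟨hs, he, hP⟩
      exact ⟨⟨hs, hP⟩, he⟩
  rw [e1]
  refine (h h₀ hh₀).trans (add_le_add (mul_le_mul_of_nonneg_left ?_ ha) le_rfl)
  have h2 : ({h | h ∈ Strict q g ∧ pre g (g - 1) h = pre g (g - 1) h₀} : Set ℤ[X]).ncard ≤
      (Weil q g ∩ pre g (g - 1) ⁻¹' {pre g (g - 1) h₀}).ncard := by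
    refine Set.ncard_le_ncard ?_ (hfin.subset Set.inter_subset_left)
    rintro f ⟨hs, he⟩
    exact ⟨hs.1, he⟩
  exact_mod_cast h2

private theorem G2_red {q g : ℕ} {C : ℝ} (hg : 1 ≤ g)
    (h : ∑ i ∈ Finset.Ico 1 g, ((Weil q i).ncard : ℝ) * ((Weil q (g - i)).ncard : ℝ) ≤
      C * Real.sqrt q * (97 / 100) ^ g * ((Weil q g).ncard : ℝ)) :
    (({h | h ∈ Weil q g ∧ ¬ Irreducible h} : Set ℤ[X]).ncard : ℝ) ≤
      C * Real.sqrt q * (97 / 100) ^ g * ((Weil q g).ncard : ℝ) := by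
  refine le_trans ?_ h
  have h1 := red_count (q := q) hg
  exact_mod_cast h1

private theorem G2_lines {q g : ℕ} {C : ℝ}
    (h : ((pre g (g - 1) '' Weil q g).ncard : ℝ) * (1001 / 1000) ^ (4 * g) ≤
      C * (97 / 100) ^ g * ((Weil q g).ncard : ℝ)) :
    ((pre g (g - 1) '' Weil q g).ncard : ℝ) ≤ C * (97 / 100) ^ g * ((Weil q g).ncard : ℝ) := by
  refine le_trans ?_ h
  exact le_mul_of_one_le_right (Nat.cast_nonneg _) (one_le_pow₀ (by norm_num))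

theorem mod_count (q : ℕ) (hq : 25 ≤ q) : ∃ C : ℝ, 0 ≤ C ∧ ∃ g₀ : ℕ, 3 ≤ g₀ ∧ ∀ g : ℕ, g₀ ≤ g →
    ∀ ℓ ∈ PgJ q g,
    (({h | h ∈ Weil q g ∧ ((ℓ : ℤ) ∣ resq q h ∨
      ¬ (h.map (Int.castRingHom (ZMod ℓ))).Separable)} : Set ℤ[X]).ncard : ℝ) ≤
      C / g * ((Weil q g).ncard : ℝ) := by
  obtain ⟨C₁, hC₁, h₁⟩ := count_lines
  obtain ⟨C₃, hC₃, h₃⟩ := count_red
  obtain ⟨C', hC', h'⟩ := G2_pow
  refine ⟨C₃ * Real.sqrt q * C' + (2 + 2 * (C₁ * C')), by positivity, 3, le_rfl, fun g hg ℓ hℓ => ?_⟩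
  have hg0 : (0 : ℝ) < g := by exact_mod_cast (by omega : 0 < g)
  have hg1 : (1 : ℝ) ≤ g := by exact_mod_cast (by omega : 1 ≤ g)
  unfold PgJ at hℓ
  simp only [Finset.mem_filter] at hℓ
  obtain ⟨_, hp, hgl, _⟩ := hℓ
  have hℓ0 : (0 : ℝ) < ℓ := by exact_mod_cast hp.pos
  have hgl' : (g : ℝ) ^ 3 ≤ ℓ := by exact_mod_cast hgl.le
  have hgl2 : g < ℓ := lt_of_le_of_lt (Nat.le_self_pow (by norm_num) g) hgl
  have hset := G2_set (q := q) hg (fun h => (ℓ : ℤ) ∣ resq q h ∨ ¬ (h.map (Int.castRingHom (ZMod ℓ))).Separable)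
    (a := ((g : ℝ) + 1) / ℓ) (b := (g : ℝ) + 1) (by positivity) (fun h₀ hh₀ => by
      refine (line_mod (by omega) hh₀ hp hgl2).trans (le_of_eq ?_)
      ring)
  have hN : (0 : ℝ) ≤ ((Weil q g).ncard : ℝ) := Nat.cast_nonneg _
  have hr := G2_red (by omega) (h₃ q hq g (by omega))
  have hl := G2_lines (h₁ q hq g (by omega))
  have hpow := h' g (by omega)
  have hpow1 : ((97 : ℝ) / 100) ^ g ≤ C' / g := by
    refine hpow.trans ?_
    rw [div_le_div_iff₀ (by positivity) hg0]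
    nlinarith [mul_nonneg hC' (mul_nonneg hg0.le (sub_nonneg.2 hg1))]
  have hpow2 : ((g : ℝ) + 1) * ((97 : ℝ) / 100) ^ g ≤ 2 * C' / g := by
    refine (mul_le_mul_of_nonneg_left hpow (by positivity)).trans ?_
    rw [← mul_div_assoc, div_le_div_iff₀ (by positivity) hg0]
    nlinarith [mul_nonneg hC' (mul_nonneg hg0.le (sub_nonneg.2 hg1))]
  have ha : ((g : ℝ) + 1) / ℓ ≤ 2 / g := by
    rw [div_le_div_iff₀ hℓ0 hg0]
    nlinarith [mul_nonneg hg0.le (sub_nonneg.2 hg1), pow_pos hg0 2, pow_pos hg0 3]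
  refine hset.trans ?_
  have t1 : C₃ * Real.sqrt q * (97 / 100) ^ g * ((Weil q g).ncard : ℝ) ≤
      C₃ * Real.sqrt q * (C' / g) * ((Weil q g).ncard : ℝ) :=
    mul_le_mul_of_nonneg_right (mul_le_mul_of_nonneg_left hpow1 (by positivity)) hN
  have t2 : ((g : ℝ) + 1) / ℓ * ((Weil q g).ncard : ℝ) ≤ 2 / g * ((Weil q g).ncard : ℝ) :=
    mul_le_mul_of_nonneg_right ha hN
  have t3 : ((g : ℝ) + 1) * ((pre g (g - 1) '' Weil q g).ncard : ℝ) ≤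
      C₁ * (2 * C' / g) * ((Weil q g).ncard : ℝ) := by
    refine (mul_le_mul_of_nonneg_left hl (by positivity)).trans ?_
    calc ((g : ℝ) + 1) * (C₁ * (97 / 100) ^ g * ((Weil q g).ncard : ℝ))
        = C₁ * (((g : ℝ) + 1) * (97 / 100) ^ g) * ((Weil q g).ncard : ℝ) := by ring
      _ ≤ C₁ * (2 * C' / g) * ((Weil q g).ncard : ℝ) :=
          mul_le_mul_of_nonneg_right (mul_le_mul_of_nonneg_left hpow2 hC₁) hN
  calc _ ≤ C₃ * Real.sqrt q * (C' / g) * ((Weil q g).ncard : ℝ) + (2 / g * ((Weil q g).ncard : ℝ) +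
        C₁ * (2 * C' / g) * ((Weil q g).ncard : ℝ)) := add_le_add (hr.trans t1) (add_le_add t2 t3)
    _ = (C₃ * Real.sqrt q * C' + (2 + 2 * (C₁ * C'))) / g * ((Weil q g).ncard : ℝ) := by ring

theorem ord_count (q : ℕ) (hq : 25 ≤ q) (p : ℕ) (hp : 2 ≤ p) : ∃ g₀ : ℕ, 3 ≤ g₀ ∧ ∀ g : ℕ, g₀ ≤ g →
    (Weil q g).ncard ≤ 3 * ({h | h ∈ Weil q g ∧ ¬ (p : ℤ) ∣ h.coeff 0} : Set ℤ[X]).ncard := by
  obtain ⟨C₁, hC₁, h₁⟩ := count_lines
  obtain ⟨C₃, hC₃, h₃⟩ := count_red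
  obtain ⟨C', hC', h'⟩ := G2_pow
  have hK : 0 ≤ (C₁ + C₃ * Real.sqrt q) * C' := by positivity
  refine ⟨max 3 (⌈6 * ((C₁ + C₃ * Real.sqrt q) * C')⌉₊ + 1), le_max_left _ _, fun g hg => ?_⟩
  have hg3 : 3 ≤ g := (le_max_left _ _).trans hg
  have hgK : ⌈6 * ((C₁ + C₃ * Real.sqrt q) * C')⌉₊ + 1 ≤ g := (le_max_right _ _).trans hg
  have hg0 : (0 : ℝ) < g := by exact_mod_cast (by omega : 0 < g)
  have hg1 : (1 : ℝ) ≤ g := by exact_mod_cast (by omega : 1 ≤ g)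
  have hgK' : 6 * ((C₁ + C₃ * Real.sqrt q) * C') ≤ g := by
    refine (Nat.le_ceil _).trans ?_
    exact_mod_cast (by omega : ⌈6 * ((C₁ + C₃ * Real.sqrt q) * C')⌉₊ ≤ g)
  have hset := G2_set (q := q) hg3 (fun h => (p : ℤ) ∣ h.coeff 0) (a := 1 / 2) (b := 1) (by norm_num)
    (fun h₀ hh₀ => by
      refine (line_ord (by omega) hh₀ hp).trans (le_of_eq ?_)
      ring)
  have hN : (0 : ℝ) ≤ ((Weil q g).ncard : ℝ) := Nat.cast_nonneg _
  have hr := G2_red (by omega) (h₃ q hq g (by omega))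
  have hl := G2_lines (h₁ q hq g (by omega))
  have hpow := h' g (by omega)
  have hpow1 : ((97 : ℝ) / 100) ^ g ≤ C' / g := by
    refine hpow.trans ?_
    rw [div_le_div_iff₀ (by positivity) hg0]
    nlinarith [mul_nonneg hC' (mul_nonneg hg0.le (sub_nonneg.2 hg1))]
  have hsmall : (C₁ + C₃ * Real.sqrt q) * ((97 : ℝ) / 100) ^ g ≤ 1 / 6 := by
    refine (mul_le_mul_of_nonneg_left hpow1 (by positivity)).trans ?_
    rw [← mul_div_assoc, div_le_iff₀ hg0]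
    linarith
  have hsplit : (Weil q g).ncard = ({h | h ∈ Weil q g ∧ (p : ℤ) ∣ h.coeff 0} : Set ℤ[X]).ncard +
      ({h | h ∈ Weil q g ∧ ¬ (p : ℤ) ∣ h.coeff 0} : Set ℤ[X]).ncard := by
    have hfin := Weil_finite q g
    rw [← Set.ncard_union_eq (Set.disjoint_left.2 fun f hf hf' => hf'.2 hf.2)
      (hfin.subset fun f hf => hf.1) (hfin.subset fun f hf => hf.1)]
    refine congrArg Set.ncard (Set.ext fun f => ?_)
    constructor
    · intro hf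
      by_cases hd : (p : ℤ) ∣ f.coeff 0
      · exact Or.inl ⟨hf, hd⟩
      · exact Or.inr ⟨hf, hd⟩
    · rintro (hf | hf)
      · exact hf.1
      · exact hf.1
  have hsplit' : ((Weil q g).ncard : ℝ) =
      (({h | h ∈ Weil q g ∧ (p : ℤ) ∣ h.coeff 0} : Set ℤ[X]).ncard : ℝ) +
      (({h | h ∈ Weil q g ∧ ¬ (p : ℤ) ∣ h.coeff 0} : Set ℤ[X]).ncard : ℝ) := by exact_mod_cast hsplit
  have t : ((C₁ + C₃ * Real.sqrt q) * ((97 : ℝ) / 100) ^ g) * ((Weil q g).ncard : ℝ) ≤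
      1 / 6 * ((Weil q g).ncard : ℝ) := mul_le_mul_of_nonneg_right hsmall hN
  have hfinal : ((Weil q g).ncard : ℝ) ≤
      3 * (({h | h ∈ Weil q g ∧ ¬ (p : ℤ) ∣ h.coeff 0} : Set ℤ[X]).ncard : ℝ) := by
    have e : ((C₁ + C₃ * Real.sqrt q) * ((97 : ℝ) / 100) ^ g) * ((Weil q g).ncard : ℝ) =
        C₁ * (97 / 100) ^ g * ((Weil q g).ncard : ℝ) +
          C₃ * Real.sqrt q * (97 / 100) ^ g * ((Weil q g).ncard : ℝ) := by ring
    rw [e] at t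
    linarith
  exact_mod_cast hfinal

end TJ
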