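import Pool.Agent.Lib.MP_021685_agTJ.JA5a

/-! LEAF JA5 (easy).  One step of the counting.  Copy of the proved file `MP_021685_agTI/A5.lean` with the constants `1789/1000` for `2` and `m + 4/5` for `m + 1` under the square root. -/

namespace TJ

theorem sum_step (m : ℕ) {α ρ δ : ℝ} (hα : 0 < α) (hρ : 0 ≤ ρ) (hδ : 0 < δ) (y : ℝ) (B : Finset ℤ)
    (hB : ∀ b ∈ B, |α * b - y| ≤ ρ) :
    ∑ b ∈ B, (ρ + δ - (α * b - y) ^ 2 / ρ) ^ m ≤
      (ρ + δ) ^ (m + 1) * ((1789 / 1000) / (α * Real.sqrt (m + 4 / 5)) + 1 / δ) := by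
  have hs : 0 < Real.sqrt ((m : ℝ) + 4 / 5) := Real.sqrt_pos.mpr (by positivity)
  have hR : 0 < ρ + δ := by linarith
  have hx : 0 ≤ (1789 / 1000) / (α * Real.sqrt (m + 4 / 5)) := by positivity
  rcases hρ.eq_or_lt with h0 | h0
  · subst h0
    have h1 : B.card ≤ 1 := by
      rw [Finset.card_le_one]
      intro a ha b hb
      have e1 : α * (a : ℝ) - y = 0 := abs_eq_zero.mp (le_antisymm (hB a ha) (abs_nonneg _))
      have e2 : α * (b : ℝ) - y = 0 := abs_eq_zero.mp (le_antisymm (hB b hb) (abs_nonneg _))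
      have e3 : α * ((a : ℝ) - b) = 0 := by linarith
      rcases mul_eq_zero.mp e3 with e4 | e4
      · exact absurd e4 hα.ne'
      · have e5 : (a : ℝ) = b := by linarith
        exact_mod_cast e5
    have h2 : ∑ b ∈ B, (0 + δ - (α * b - y) ^ 2 / 0) ^ m = B.card * δ ^ m := by
      rw [← nsmul_eq_mul, ← Finset.sum_const]
      refine Finset.sum_congr rfl fun b _ => ?_
      rw [div_zero, sub_zero, zero_add]
    have h3 : (B.card : ℝ) ≤ 1 := by exact_mod_cast h1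
    have h4 : 0 < δ ^ m := pow_pos hδ m
    have h5 : (0 + δ) ^ (m + 1) * ((1789 / 1000) / (α * Real.sqrt (m + 4 / 5)) + 1 / δ) =
        δ ^ (m + 1) * ((1789 / 1000) / (α * Real.sqrt (m + 4 / 5))) + δ ^ m := by
      rw [zero_add, mul_add, pow_succ]
      field_simp
    rw [h2, h5]
    have h6 : 0 ≤ δ ^ (m + 1) * ((1789 / 1000) / (α * Real.sqrt (m + 4 / 5))) := by positivity
    nlinarith
  · have hterm : ∀ b ∈ B, (ρ + δ - (α * b - y) ^ 2 / ρ) ^ m ≤
        (ρ + δ) ^ m * (1 - (α / (ρ + δ) * b - y / (ρ + δ)) ^ 2) ^ m := by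
      intro b hb
      rw [← mul_pow]
      have e1 : α / (ρ + δ) * b - y / (ρ + δ) = (α * b - y) / (ρ + δ) := by ring
      have e2 : (ρ + δ) * (1 - ((α * b - y) / (ρ + δ)) ^ 2) = ρ + δ - (α * b - y) ^ 2 / (ρ + δ) := by
        field_simp
      rw [e1, e2]
      have e3 : (α * b - y) ^ 2 ≤ ρ ^ 2 := by
        rw [← sq_abs (α * b - y)]
        exact pow_le_pow_left₀ (abs_nonneg _) (hB b hb) 2
      have e4 : (α * b - y) ^ 2 / ρ ≤ ρ := by
        rw [div_le_iff₀ h0, ← sq]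
        exact e3
      have e5 : (α * b - y) ^ 2 / (ρ + δ) ≤ (α * b - y) ^ 2 / ρ :=
        div_le_div_of_nonneg_left (sq_nonneg _) h0 (by linarith)
      exact pow_le_pow_left₀ (by linarith) (by linarith) m
    have hB' : ∀ b ∈ B, |α / (ρ + δ) * b - y / (ρ + δ)| ≤ 1 := by
      intro b hb
      have e1 : α / (ρ + δ) * b - y / (ρ + δ) = (α * b - y) / (ρ + δ) := by ring
      rw [e1, abs_div, abs_of_pos hR, div_le_one hR]
      have := hB b hb
      linarith
    have hsum := sum_one_sub_sq_pow_le m (div_pos hα hR) (y / (ρ + δ)) B hB'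
    have h1 : ∑ b ∈ B, (ρ + δ - (α * b - y) ^ 2 / ρ) ^ m ≤
        (ρ + δ) ^ m * ((1789 / 1000) / (α / (ρ + δ) * Real.sqrt (m + 4 / 5)) + 1) := by
      refine (Finset.sum_le_sum hterm).trans ?_
      rw [← Finset.mul_sum]
      exact mul_le_mul_of_nonneg_left hsum (pow_nonneg hR.le m)
    have h2 : (ρ + δ) ^ m * ((1789 / 1000) / (α / (ρ + δ) * Real.sqrt (m + 4 / 5)) + 1) =
        (ρ + δ) ^ (m + 1) * ((1789 / 1000) / (α * Real.sqrt (m + 4 / 5))) + (ρ + δ) ^ m := by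
      rw [pow_succ]
      field_simp
    have h3 : (ρ + δ) ^ m ≤ (ρ + δ) ^ (m + 1) * (1 / δ) := by
      have e1 : (ρ + δ) ^ (m + 1) * (1 / δ) = (ρ + δ) ^ m * ((ρ + δ) / δ) := by
        rw [pow_succ]
        ring
      rw [e1]
      have e2 : 1 ≤ (ρ + δ) / δ := by
        rw [one_le_div hδ]
        linarith
      exact le_mul_of_one_le_right (pow_nonneg hR.le m) e2
    rw [mul_add]
    linarith

end TJ
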