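import Pool.Agent.Lib.MP_021685_agTJ.JA5

/-! LEAF JA6 (easy+).  Counting chains.  Copy of the proved file `MP_021685_agTI/A6.lean` with the factor `(1789/1000)/(w j √(n - j - 1/5))` for `2/(w j √(n - j))` (`m = n - k - 1`, so `m + 4/5 = n - k - 1/5`). -/

namespace TJ

/-- the vectors of the elements of `S` with the same first `k` entries as `s` -/
private def JA6V {α : Type} [DecidableEq α] (S : Finset α) (n : ℕ) (a : ℕ → α → ℤ) (k : ℕ) (s : α) :
    Finset (Fin n → ℤ) :=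
  (S.filter fun t => ∀ i < k, a i t = a i s).image fun t => fun i : Fin n => a i t

private theorem JA6_main {α : Type} [DecidableEq α] (S : Finset α) (n : ℕ) (a : ℕ → α → ℤ) (ρ I : ℕ → α → ℝ)
    {δ : ℝ} (hδ : 0 < δ) (w : ℕ → ℝ) (hw : ∀ k, 0 < w k)
    (hρ : ∀ k ≤ n, ∀ s ∈ S, 0 ≤ ρ k s)
    (hI : ∀ k < n, ∀ s ∈ S, |I k s| ≤ ρ k s)
    (hstep : ∀ k < n, ∀ s ∈ S, ρ (k + 1) s ≤ ρ k s - I k s ^ 2 / ρ k s)
    (hloc : ∀ k < n, ∀ s ∈ S, ∀ t ∈ S, (∀ i < k, a i s = a i t) →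
      ρ k s = ρ k t ∧ I k s + w k * a k s = I k t + w k * a k t) (m : ℕ) :
    ∀ k, k + m = n → ∀ s ∈ S, ((JA6V S n a k s).card : ℝ) ≤
      (ρ k s + δ) ^ m * ∏ j ∈ Finset.Ico k n, ((1789 / 1000) / (w j * Real.sqrt ((n : ℝ) - j - 1 / 5)) + 1 / δ) := by
  induction m with
  | zero =>
    intro k hk s hs
    have hk' : k = n := by omega
    subst hk'
    have h1 : (JA6V S k a k s).card ≤ 1 := by
      refine Finset.card_le_one.2 fun v hv v' hv' => ?_
      unfold JA6V at hv hv'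
      obtain ⟨t, ht, rfl⟩ := Finset.mem_image.1 hv
      obtain ⟨t', ht', rfl⟩ := Finset.mem_image.1 hv'
      funext i
      exact ((Finset.mem_filter.1 ht).2 i i.2).trans ((Finset.mem_filter.1 ht').2 i i.2).symm
    have h2 : ((JA6V S k a k s).card : ℝ) ≤ 1 := by exact_mod_cast h1
    simpa using h2
  | succ m ih =>
    intro k hk s hs
    have hkn : k < n := by omega
    have : Nonempty α := ⟨s⟩
    have hB : ∀ b, b ∈ (S.filter fun t => ∀ i < k, a i t = a i s).image (fun t => a k t) →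
        ∃ t, t ∈ S ∧ (∀ i < k, a i t = a i s) ∧ a k t = b := by
      intro b hb
      obtain ⟨t, ht, rfl⟩ := Finset.mem_image.1 hb
      exact ⟨t, (Finset.mem_filter.1 ht).1, (Finset.mem_filter.1 ht).2, rfl⟩
    generalize hBdef : (S.filter fun t => ∀ i < k, a i t = a i s).image (fun t => a k t) = B at hB
    choose! tb htS htp htb using hB
    have hsub : JA6V S n a k s ⊆ B.biUnion fun b => JA6V S n a (k + 1) (tb b) := by
      intro v hv
      unfold JA6V at hv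
      obtain ⟨t, ht, rfl⟩ := Finset.mem_image.1 hv
      have hb : a k t ∈ B := hBdef ▸ Finset.mem_image.2 ⟨t, ht, rfl⟩
      refine Finset.mem_biUnion.2 ⟨a k t, hb, ?_⟩
      unfold JA6V
      refine Finset.mem_image.2 ⟨t, Finset.mem_filter.2 ⟨(Finset.mem_filter.1 ht).1, fun i hi => ?_⟩, rfl⟩
      rcases Nat.lt_succ_iff_lt_or_eq.1 hi with h | h
      · exact ((Finset.mem_filter.1 ht).2 i h).trans (htp _ hb i h).symm
      · rw [h]
        exact (htb _ hb).symm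
    have hcard : ((JA6V S n a k s).card : ℝ) ≤ ∑ b ∈ B, ((JA6V S n a (k + 1) (tb b)).card : ℝ) := by
      have := (Finset.card_le_card hsub).trans Finset.card_biUnion_le
      exact_mod_cast this
    have hP : 0 ≤ ∏ j ∈ Finset.Ico (k + 1) n, ((1789 / 1000) / (w j * Real.sqrt ((n : ℝ) - j - 1 / 5)) + 1 / δ) := by
      refine Finset.prod_nonneg fun j _ => ?_
      have h1 := hw j
      positivity
    have hloc' : ∀ b ∈ B, ρ k s = ρ k (tb b) ∧ I k s + w k * a k s = I k (tb b) + w k * b := by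
      intro b hb
      have h1 := hloc k hkn s hs (tb b) (htS b hb) fun i hi => (htp b hb i hi).symm
      rw [htb b hb] at h1
      exact h1
    have hterm : ∀ b ∈ B, ((JA6V S n a (k + 1) (tb b)).card : ℝ) ≤
        (ρ k s + δ - (w k * b - (I k s + w k * a k s)) ^ 2 / ρ k s) ^ m *
          ∏ j ∈ Finset.Ico (k + 1) n, ((1789 / 1000) / (w j * Real.sqrt ((n : ℝ) - j - 1 / 5)) + 1 / δ) := by
      intro b hb
      refine (ih (k + 1) (by omega) (tb b) (htS b hb)).trans ?_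
      refine mul_le_mul_of_nonneg_right ?_ hP
      have h1 := hstep k hkn (tb b) (htS b hb)
      have h2 := hρ (k + 1) hkn (tb b) (htS b hb)
      obtain ⟨h3, h4⟩ := hloc' b hb
      refine pow_le_pow_left₀ (by linarith) ?_ m
      have h5 : w k * b - (I k s + w k * a k s) = -I k (tb b) := by
        rw [h4]
        ring
      rw [h5, h3, neg_sq]
      linarith
    have hstep' := sum_step m (hw k) (hρ k hkn.le s hs) hδ (I k s + w k * a k s) B (by
      intro b hb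
      obtain ⟨h3, h4⟩ := hloc' b hb
      have h5 : w k * b - (I k s + w k * a k s) = -I k (tb b) := by
        rw [h4]
        ring
      rw [h5, abs_neg, h3]
      exact hI k hkn (tb b) (htS b hb))
    have hn : (m : ℝ) + 4 / 5 = (n : ℝ) - k - 1 / 5 := by
      have : ((k + (m + 1) : ℕ) : ℝ) = n := by exact_mod_cast hk
      push_cast at this
      linarith
    rw [hn] at hstep'
    rw [Finset.prod_eq_prod_Ico_succ_bot hkn]
    calc ((JA6V S n a k s).card : ℝ) ≤ ∑ b ∈ B, ((JA6V S n a (k + 1) (tb b)).card : ℝ) := hcard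
      _ ≤ ∑ b ∈ B, (ρ k s + δ - (w k * b - (I k s + w k * a k s)) ^ 2 / ρ k s) ^ m *
          ∏ j ∈ Finset.Ico (k + 1) n, ((1789 / 1000) / (w j * Real.sqrt ((n : ℝ) - j - 1 / 5)) + 1 / δ) :=
        Finset.sum_le_sum hterm
      _ = (∑ b ∈ B, (ρ k s + δ - (w k * b - (I k s + w k * a k s)) ^ 2 / ρ k s) ^ m) *
          ∏ j ∈ Finset.Ico (k + 1) n, ((1789 / 1000) / (w j * Real.sqrt ((n : ℝ) - j - 1 / 5)) + 1 / δ) := by
        rw [Finset.sum_mul]
      _ ≤ ((ρ k s + δ) ^ (m + 1) * ((1789 / 1000) / (w k * Real.sqrt ((n : ℝ) - k - 1 / 5)) + 1 / δ)) *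
          ∏ j ∈ Finset.Ico (k + 1) n, ((1789 / 1000) / (w j * Real.sqrt ((n : ℝ) - j - 1 / 5)) + 1 / δ) :=
        mul_le_mul_of_nonneg_right hstep' hP
      _ = (ρ k s + δ) ^ (m + 1) * (((1789 / 1000) / (w k * Real.sqrt ((n : ℝ) - k - 1 / 5)) + 1 / δ) *
          ∏ j ∈ Finset.Ico (k + 1) n, ((1789 / 1000) / (w j * Real.sqrt ((n : ℝ) - j - 1 / 5)) + 1 / δ)) := by
        rw [mul_assoc]

theorem chain {α : Type} [DecidableEq α] (S : Finset α) (n : ℕ) (a : ℕ → α → ℤ) (ρ I : ℕ → α → ℝ)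
    {c δ : ℝ} (hc : 0 ≤ c) (hδ : 0 < δ) (w : ℕ → ℝ) (hw : ∀ k, 0 < w k)
    (h0 : ∀ s ∈ S, ρ 0 s = c)
    (hρ : ∀ k ≤ n, ∀ s ∈ S, 0 ≤ ρ k s)
    (hI : ∀ k < n, ∀ s ∈ S, |I k s| ≤ ρ k s)
    (hstep : ∀ k < n, ∀ s ∈ S, ρ (k + 1) s ≤ ρ k s - I k s ^ 2 / ρ k s)
    (hloc : ∀ k < n, ∀ s ∈ S, ∀ t ∈ S, (∀ i < k, a i s = a i t) →
      ρ k s = ρ k t ∧ I k s + w k * a k s = I k t + w k * a k t) :
    ((S.image (fun s => fun i : Fin n => a i s)).card : ℝ) ≤
      (c + δ) ^ n * ∏ j ∈ Finset.range n, ((1789 / 1000) / (w j * Real.sqrt ((n : ℝ) - j - 1 / 5)) + 1 / δ) := by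
  rcases S.eq_empty_or_nonempty with rfl | ⟨s, hs⟩
  · rw [Finset.image_empty, Finset.card_empty, Nat.cast_zero]
    refine mul_nonneg (pow_nonneg (by linarith) n) (Finset.prod_nonneg fun j _ => ?_)
    have h1 := hw j
    positivity
  · have h1 := JA6_main S n a ρ I hδ w hw hρ hI hstep hloc n 0 (by omega) s hs
    have h2 : JA6V S n a 0 s = S.image (fun s => fun i : Fin n => a i s) := by
      unfold JA6V
      rw [Finset.filter_true_of_mem fun t _ i hi => absurd hi (Nat.not_lt_zero i)]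
    rw [h2, h0 s hs, ← Finset.range_eq_Ico] at h1
    exact h1

end TJ
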