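import Pool.Agent.Lib.MP_021685_agTI.A1
import Pool.Agent.Lib.MP_021685_agTI.A2
import Pool.Agent.Lib.MP_021685_agTI.A3a
import Pool.Agent.Lib.MP_021685_agTI.A3b
import Pool.Agent.Lib.MP_021685_agTI.Fi
import Pool.Agent.Lib.MP_021685_agTJ.JA6

/-! LEAF JA7 (easy+).  The number of prefixes.  Copy of the first theorem of the proved file `MP_021685_agTI/A7.lean` (with `TJ.chain` for `TI.chain`; `open TI`; only the final product changes). -/

namespace TJ

open Polynomial TI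

private theorem JA7_zero {g : ℕ} (θ : Fin g → ℝ) : lr (mom θ) 0 = 2 * (g : ℝ) := by
  have h1 : lr (mom θ) 0 = mom θ 0 := rfl
  rw [h1, mom]
  simp [mul_comm]

private theorem JA7_step (σ : ℕ → ℝ) (k : ℕ) : lr σ (k + 1) = lr σ k - li σ k ^ 2 / lr σ k := rfl

private theorem JA7_le {g : ℕ} (θ : Fin g → ℝ) (k : ℕ) : lr (mom θ) k ≤ 2 * (g : ℝ) := by
  induction k with
  | zero => exact (JA7_zero θ).le
  | succ k ih =>
    rw [JA7_step]
    have h1 := (lev_energy θ k).1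
    have h2 : 0 ≤ li (mom θ) k ^ 2 / lr (mom θ) k := div_nonneg (sq_nonneg _) h1
    linarith

private theorem JA7_loc {q g : ℕ} (hq : 1 ≤ q) {h h' : ℤ[X]} {θ θ' : Fin g → ℝ} (hθ : IsAngles q h θ)
    (hθ' : IsAngles q h' θ') {i : ℕ} (hi : i < g) (he : ∀ j < i, h.coeff (g - 1 - j) = h'.coeff (g - 1 - j)) :
    lr (mom θ) i = lr (mom θ') i ∧
      li (mom θ) i + ((i : ℝ) + 1) / Real.sqrt q ^ (i + 1) * (h.coeff (g - 1 - i) : ℝ) =
        li (mom θ') i + ((i : ℝ) + 1) / Real.sqrt q ^ (i + 1) * (h'.coeff (g - 1 - i) : ℝ) := by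
  obtain ⟨hm, hn⟩ := newton hq hθ hθ' hi he
  obtain ⟨h1, h2⟩ := lev_congr hm
  refine ⟨h1, ?_⟩
  have hs : 0 < Real.sqrt q ^ (i + 1) := by
    have h3 : (0 : ℝ) < q := by exact_mod_cast hq
    positivity
  generalize Real.sqrt q ^ (i + 1) = s at hn hs ⊢
  have h4 : mom θ (i + 1) - mom θ' (i + 1) = -(((i : ℝ) + 1) / s * ((h.coeff (g - 1 - i) : ℝ) - (h'.coeff (g - 1 - i) : ℝ))) := by
    rw [div_mul_eq_mul_div, ← neg_div, eq_div_iff hs.ne', mul_comm, hn]
    ring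
  rw [mul_sub] at h4
  linarith

theorem pre_card_le {q g k : ℕ} (hq : 1 ≤ q) (hg : 1 ≤ g) (hk : k ≤ g) :
    (((pre g k) '' Weil q g).ncard : ℝ) ≤ (2 * (g : ℝ) + Real.sqrt g) ^ k *
      ∏ j ∈ Finset.range k,
        ((1789 / 1000) * Real.sqrt q ^ (j + 1) / (((j : ℝ) + 1) * Real.sqrt ((k : ℝ) - j - 1 / 5)) +
          1 / Real.sqrt g) := by
  classical
  have hang : ∀ h : ℤ[X], ∃ θ : Fin g → ℝ, h ∈ Weil q g → IsAngles q h θ := by
    intro h
    by_cases hh : h ∈ Weil q g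
    · obtain ⟨θ, hθ⟩ := exists_angles hq hh
      exact ⟨θ, fun _ => hθ⟩
    · exact ⟨0, fun h1 => absurd h1 hh⟩
  choose θ hθ using hang
  have hg0 : (0 : ℝ) < g := by exact_mod_cast hg
  have hq0 : (0 : ℝ) < q := by exact_mod_cast hq
  have hmem : ∀ h, h ∈ (Weil_finite q g).toFinset → h ∈ Weil q g := fun h hh => (Weil_finite q g).mem_toFinset.1 hh
  have key := TJ.chain (Weil_finite q g).toFinset k (fun i h => h.coeff (g - 1 - i)) (fun i h => lr (mom (θ h)) i)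
    (fun i h => li (mom (θ h)) i) (c := 2 * (g : ℝ)) (δ := Real.sqrt g) (by positivity) (Real.sqrt_pos.2 hg0)
    (fun i => ((i : ℝ) + 1) / Real.sqrt q ^ (i + 1)) (fun i => by positivity)
    (fun h _ => JA7_zero _) (fun i _ h _ => (lev_energy _ _).1) (fun i _ h _ => (lev_energy _ _).2)
    (fun i _ h _ => (JA7_step _ _).le)
    (fun i hi s hs t ht he => JA7_loc hq (hθ s (hmem s hs)) (hθ t (hmem t ht)) (lt_of_lt_of_le hi hk) he)
  have hcard : (pre g k '' Weil q g).ncard =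
      ((Weil_finite q g).toFinset.image (fun s => fun i : Fin k => s.coeff (g - 1 - (i : ℕ)))).card := by
    rw [← Set.ncard_coe_finset, Finset.coe_image, Set.Finite.coe_toFinset]
    rfl
  rw [hcard]
  refine key.trans (le_of_eq ?_)
  congr 1
  refine Finset.prod_congr rfl fun j _ => ?_
  rw [div_mul_eq_mul_div, div_div_eq_mul_div]

end TJ
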