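import Pool.Agent.Lib.MP_021685_agTI.B0

/-! Definitions for the lower bound (blocks JB). -/

namespace TJ

open Polynomial TI

/-- the point `2√q cos(π j / g)` -/
noncomputable def node (q g j : ℕ) : ℝ := 2 * Real.sqrt q * Real.cos (Real.pi * j / g)

/-- the value of the Dickson basis polynomial at the `j`-th node -/
noncomputable def EE (q g i j : ℕ) : ℝ := ((bas q i).map (Int.castRingHom ℝ)).eval (node q g j)

/-- the signed value at the `j`-th node of the polynomial with the coordinates `x` in the Dickson basis -/
noncomputable def vv (q g : ℕ) (x : Fin g → ℝ) (j : ℕ) : ℝ :=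
  (-1) ^ j * (EE q g g j + ∑ i : Fin g, x i * EE q g i j)

/-- the matrix of the linear part of the values at the nodes `1, .., g` -/
noncomputable def Am (q g : ℕ) : Matrix (Fin g) (Fin g) ℝ :=
  fun j i => (-1) ^ ((j : ℕ) + 1) * EE q g i (j + 1)

end TJ
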