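import Pool.Agent.Lib.MP_021685_agTJ.JB0

/-! LEAF JB2 (medium).  Discrete orthogonality.

PROOF.  `EE q g 0 j = 1` (`bas q 0 = 1`), `EE q g i j = 2 (√q)^i cos(i π j / g)` for `i ≥ 1` (`bas_eval` with `θ = π j / g`).
(0) For an integer `n` not divisible by `2g`: `∑_{j < 2g} cos(n π j / g) = 0` (geometric sum), and by `cos(n π (2g - j)/g) = cos(n π j/g)` it equals twice the sum `S_n = 1/2 + ∑_{0<j<g} cos(n π j/g) + cos(n π)/2`, so `S_n = 0` (see the proof of `parseval` in `MP_021685_agTI/B2.lean`).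
(1) `vv_sum`: `(-1)^j = cos(π j) = cos(g π j / g)`, `(-1)^j cos(i π j/g) = (cos((g+i) π j/g) + cos((g-i) π j/g))/2`; for `0 ≤ i < g` both `g + i` and `g - i` are not divisible by `2g`, so the weighted sum (weights `1/2, 1, .., 1, 1/2`) of `(-1)^j EE q g i j` is `0`.
The weighted sum of `(-1)^j EE q g g j = 2 (√q)^g cos(π j)² = 2 (√q)^g` is `2 g (√q)^g`.
(2) `col_norm`: for `0 < i < g`: `4 cos²(i π j/g) = 2 + 2 cos(2 π i j/g)` and `∑_{j=1}^{g} cos(2 π i j / g) = 0` (geometric sum of a root of unity of order dividing `g`, not `1`); for `i = 0` the sum is `g`. -/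

namespace TJ

open Polynomial TI

private theorem JB2_tel (a : ℝ) (m : ℕ) :
    2 * Real.sin (a / 2) * ∑ j ∈ Finset.range m, Real.cos (a * j) =
      Real.sin (a * m - a / 2) + Real.sin (a / 2) := by
  induction m with
  | zero => simp [Real.sin_neg]
  | succ m ih =>
    rw [Finset.sum_range_succ, mul_add, ih]
    have h1 : Real.sin (a * ((m + 1 : ℕ) : ℝ) - a / 2) = Real.sin (a * m + a / 2) := by
      congr 1
      push_cast
      ring
    rw [h1, Real.sin_add, Real.sin_sub]
    ring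

private theorem JB2_zero {g : ℕ} (hg : 1 ≤ g) (n : ℤ) (hn : n ≠ 0) (hn1 : |n| < 2 * g) :
    ∑ j ∈ Finset.range (2 * g), Real.cos (n * (Real.pi * j / g)) = 0 := by
  have hg0 : (g : ℝ) ≠ 0 := by positivity
  have h1 := JB2_tel (n * Real.pi / g) (2 * g)
  have h2 : (n * Real.pi / g : ℝ) * ((2 * g : ℕ) : ℝ) - n * Real.pi / g / 2 =
      n * (2 * Real.pi) - n * Real.pi / g / 2 := by
    push_cast
    field_simp
  rw [h2, Real.sin_int_mul_two_pi_sub, neg_add_cancel] at h1
  have h3 : Real.sin (n * Real.pi / g / 2) ≠ 0 := by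
    intro h
    rw [Real.sin_eq_zero_iff] at h
    obtain ⟨k, hk⟩ := h
    have h4 : (k : ℝ) * (2 * g) = n := by
      have h5 := Real.pi_ne_zero
      field_simp at hk
      linarith
    have h5 : k * (2 * (g : ℤ)) = n := by exact_mod_cast h4
    have h6 : k = 0 := by
      by_contra hk0
      have h7 : 1 ≤ |k| := Int.one_le_abs hk0
      rw [← h5, abs_mul, abs_of_nonneg (by positivity : (0 : ℤ) ≤ 2 * g)] at hn1
      nlinarith
    rw [h6, zero_mul] at h5
    exact hn h5.symm
  have h4 : ∑ j ∈ Finset.range (2 * g), Real.cos (n * Real.pi / g * j) = 0 := by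
    rcases mul_eq_zero.1 h1 with h5 | h5
    · rcases mul_eq_zero.1 h5 with h6 | h6
      · norm_num at h6
      · exact absurd h6 h3
    · exact h5
  rw [← h4]
  refine Finset.sum_congr rfl fun j _ => ?_
  congr 1
  ring

/-- The weighted sum over the nodes. -/
private noncomputable def JB2_W (g : ℕ) (f : ℕ → ℝ) : ℝ :=
  f 0 / 2 + ∑ j ∈ Finset.Ioo 0 g, f j + f g / 2

private theorem JB2_W_congr {g : ℕ} {f h : ℕ → ℝ} (e : ∀ j, f j = h j) : JB2_W g f = JB2_W g h := by
  rw [show f = h from funext e]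

private theorem JB2_W_add (g : ℕ) (f h : ℕ → ℝ) :
    JB2_W g (fun j => f j + h j) = JB2_W g f + JB2_W g h := by
  unfold JB2_W
  rw [Finset.sum_add_distrib]
  ring

private theorem JB2_W_mul (g : ℕ) (c : ℝ) (f : ℕ → ℝ) :
    JB2_W g (fun j => c * f j) = c * JB2_W g f := by
  unfold JB2_W
  rw [← Finset.mul_sum]
  ring

private theorem JB2_W_sum (g : ℕ) {ι : Type} (s : Finset ι) (F : ι → ℕ → ℝ) :
    JB2_W g (fun j => ∑ i ∈ s, F i j) = ∑ i ∈ s, JB2_W g (F i) := by
  unfold JB2_W
  rw [Finset.sum_comm, Finset.sum_add_distrib, Finset.sum_add_distrib, Finset.sum_div, Finset.sum_div]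

/-- The weighted sum of the cosines is zero. -/
private theorem JB2_W_cos {g : ℕ} (hg : 1 ≤ g) (n : ℤ) (hn : n ≠ 0) (hn1 : |n| < 2 * g) :
    JB2_W g (fun j => Real.cos (n * (Real.pi * j / g))) = 0 := by
  have hg0 : (g : ℝ) ≠ 0 := by positivity
  obtain ⟨v, hv⟩ : ∃ v : ℕ → ℝ, ∀ j, v j = Real.cos (n * (Real.pi * j / g)) := ⟨_, fun _ => rfl⟩
  have h0 := JB2_zero hg n hn hn1
  rw [Finset.sum_congr rfl fun j _ => (hv j).symm] at h0
  rw [JB2_W_congr (h := v) fun j => (hv j).symm]
  have h4 : ∑ j ∈ Finset.Ioo g (2 * g), v j = ∑ j ∈ Finset.Ioo 0 g, v j := by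
    refine Finset.sum_nbij' (fun j => 2 * g - j) (fun j => 2 * g - j) ?_ ?_ ?_ ?_ ?_
    · intro j hj
      rw [Finset.mem_Ioo] at hj ⊢
      omega
    · intro j hj
      rw [Finset.mem_Ioo] at hj ⊢
      omega
    · intro j hj
      rw [Finset.mem_Ioo] at hj
      show 2 * g - (2 * g - j) = j
      omega
    · intro j hj
      rw [Finset.mem_Ioo] at hj
      show 2 * g - (2 * g - j) = j
      omega
    · intro j hj
      rw [Finset.mem_Ioo] at hj
      rw [hv, hv]
      rw [Nat.cast_sub (by omega)]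
      have h6 : (n : ℝ) * (Real.pi * (((2 * g : ℕ) : ℝ) - j) / g) =
          n * (2 * Real.pi) - n * (Real.pi * j / g) := by
        push_cast
        field_simp
      rw [h6, Real.cos_int_mul_two_pi_sub]
  have h5 : ∑ j ∈ Finset.range (2 * g), v j =
      v 0 + ∑ j ∈ Finset.Ioo 0 g, v j + v g + ∑ j ∈ Finset.Ioo g (2 * g), v j := by
    have e1 : Finset.range (2 * g) =
        insert 0 (insert g (Finset.Ioo 0 g ∪ Finset.Ioo g (2 * g))) := by
      ext j
      rw [Finset.mem_range, Finset.mem_insert, Finset.mem_insert, Finset.mem_union, Finset.mem_Ioo,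
        Finset.mem_Ioo]
      omega
    rw [e1, Finset.sum_insert, Finset.sum_insert, Finset.sum_union]
    · ring
    · rw [Finset.disjoint_left]
      intro j h6 h7
      rw [Finset.mem_Ioo] at h6 h7
      omega
    · rw [Finset.mem_union, Finset.mem_Ioo, Finset.mem_Ioo]
      omega
    · rw [Finset.mem_insert, Finset.mem_union, Finset.mem_Ioo, Finset.mem_Ioo]
      omega
  rw [h4] at h5
  rw [h5] at h0
  unfold JB2_W
  linarith

private theorem JB2_sign {g : ℕ} (hg : 1 ≤ g) (j : ℕ) :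
    ((-1) ^ j : ℝ) = Real.cos (g * (Real.pi * j / g)) := by
  have hg0 : (g : ℝ) ≠ 0 := by positivity
  rw [← Real.cos_nat_mul_pi]
  congr 1
  field_simp

theorem EE_zero (q g j : ℕ) : EE q g 0 j = 1 := by
  unfold EE bas
  rw [if_pos rfl, Polynomial.map_one, Polynomial.eval_one]

theorem EE_pos (q g : ℕ) {i : ℕ} (hi : 1 ≤ i) (j : ℕ) :
    EE q g i j = 2 * Real.sqrt q ^ i * Real.cos (i * (Real.pi * j / g)) := by
  unfold EE node
  exact bas_eval q i hi _

theorem vv_sum {q g : ℕ} (hg : 1 ≤ g) (x : Fin g → ℝ) :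
    vv q g x 0 / 2 + ∑ j ∈ Finset.Ioo 0 g, vv q g x j + vv q g x g / 2 = 2 * g * Real.sqrt q ^ g := by
  have h0 : JB2_W g (fun j => vv q g x j) = 2 * g * Real.sqrt q ^ g := by
    have e1 : ∀ j, vv q g x j = 2 * Real.sqrt q ^ g * 1 + ∑ i : Fin g, x i * ((-1) ^ j * EE q g i j) := by
      intro j
      unfold vv
      rw [mul_add, Finset.mul_sum]
      congr 1
      · rw [EE_pos q g hg j, ← JB2_sign hg j]
        have h1 : ((-1 : ℝ) ^ j) * (-1) ^ j = 1 := by
          rw [← mul_pow]
          norm_num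
        calc (-1) ^ j * (2 * Real.sqrt q ^ g * (-1) ^ j) =
            2 * Real.sqrt q ^ g * ((-1 : ℝ) ^ j * (-1) ^ j) := by ring
          _ = 2 * Real.sqrt q ^ g * 1 := by rw [h1]
      · refine Finset.sum_congr rfl fun i _ => ?_
        ring
    rw [JB2_W_congr e1, JB2_W_add, JB2_W_mul, JB2_W_sum]
    have h2 : ∑ i : Fin g, JB2_W g (fun j => x i * ((-1) ^ j * EE q g i j)) = 0 := by
      refine Finset.sum_eq_zero fun i _ => ?_
      rw [JB2_W_mul]
      have hi := i.2
      by_cases hi0 : (i : ℕ) = 0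
      · have e2 : ∀ j, (-1) ^ j * EE q g i j = Real.cos (((g : ℤ) : ℝ) * (Real.pi * j / g)) := by
          intro j
          rw [hi0, EE_zero, mul_one, JB2_sign hg j]
          norm_cast
        rw [JB2_W_congr e2, JB2_W_cos hg (g : ℤ) (by omega) (by rw [abs_of_nonneg (by omega)]; omega), mul_zero]
      · have e2 : ∀ j, (-1) ^ j * EE q g i j = Real.sqrt q ^ (i : ℕ) *
            (Real.cos ((((g : ℤ) + (i : ℕ) : ℤ) : ℝ) * (Real.pi * j / g)) +
              Real.cos ((((g : ℤ) - (i : ℕ) : ℤ) : ℝ) * (Real.pi * j / g))) := by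
          intro j
          rw [EE_pos q g (by omega) j, JB2_sign hg j]
          push_cast
          rw [sub_mul, add_mul, Real.cos_sub, Real.cos_add]
          ring
        rw [JB2_W_congr e2, JB2_W_mul, JB2_W_add,
          JB2_W_cos hg _ (by omega) (by rw [abs_of_nonneg (by omega)]; omega),
          JB2_W_cos hg _ (by omega) (by rw [abs_of_nonneg (by omega)]; omega)]
        ring
    rw [h2, add_zero]
    have h3 : JB2_W g (fun _ => 1) = g := by
      unfold JB2_W
      rw [Finset.sum_const, Nat.card_Ioo, nsmul_eq_mul, mul_one, Nat.sub_zero, Nat.cast_sub hg]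
      push_cast
      ring
    rw [h3]
    ring
  exact h0

theorem col_norm {q g i : ℕ} (hi : i < g) :
    ∑ j ∈ Finset.Icc 1 g, EE q g i j ^ 2 ≤ 2 * g * (Real.sqrt q ^ i) ^ 2 := by
  by_cases hi0 : i = 0
  · have h1 : ∀ j ∈ Finset.Icc 1 g, EE q g i j ^ 2 = 1 := by
      intro j _
      rw [hi0, EE_zero, one_pow]
    rw [Finset.sum_congr rfl h1, Finset.sum_const, Nat.card_Icc, nsmul_eq_mul, mul_one, hi0, pow_zero,
      one_pow, mul_one, Nat.add_sub_cancel]
    have h2 : (0 : ℝ) ≤ g := Nat.cast_nonneg _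
    linarith
  · have hg : 1 ≤ g := by omega
    have hg0 : (g : ℝ) ≠ 0 := by positivity
    have h1 : ∀ j ∈ Finset.Icc 1 g, EE q g i j ^ 2 = 2 * (Real.sqrt q ^ i) ^ 2 +
        2 * (Real.sqrt q ^ i) ^ 2 * Real.cos (2 * i * Real.pi / g * j) := by
      intro j _
      rw [EE_pos q g (by omega) j]
      have h2 : (2 * i * Real.pi / g * j : ℝ) = 2 * (i * (Real.pi * j / g)) := by ring
      rw [h2, Real.cos_two_mul]
      ring
    rw [Finset.sum_congr rfl h1, Finset.sum_add_distrib, Finset.sum_const, Nat.card_Icc, nsmul_eq_mul,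
      Nat.add_sub_cancel, ← Finset.mul_sum]
    have h2 : ∑ j ∈ Finset.Icc 1 g, Real.cos (2 * i * Real.pi / g * j) =
        ∑ j ∈ Finset.range g, Real.cos (2 * i * Real.pi / g * j) := by
      have h3 : Finset.Icc 1 g = Finset.Ico 1 (g + 1) := by
        ext j
        rw [Finset.mem_Icc, Finset.mem_Ico]
        omega
      rw [h3, Finset.sum_Ico_succ_top hg, Finset.range_eq_Ico,
        Finset.sum_eq_sum_Ico_succ_bot (show 0 < g by omega)]
      have h4 : Real.cos (2 * i * Real.pi / g * g) = 1 := by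
        have h5 : (2 * i * Real.pi / g * g : ℝ) = i * (2 * Real.pi) := by
          field_simp
        rw [h5, Real.cos_nat_mul_two_pi]
      rw [h4, Nat.cast_zero, mul_zero, Real.cos_zero]
      ring
    have h3 := JB2_tel (2 * i * Real.pi / g) g
    have h4 : (2 * i * Real.pi / g : ℝ) * g - 2 * i * Real.pi / g / 2 =
        i * (2 * Real.pi) - 2 * i * Real.pi / g / 2 := by
      field_simp
    rw [h4, Real.sin_nat_mul_two_pi_sub, neg_add_cancel] at h3
    have h5 : Real.sin (2 * i * Real.pi / g / 2) ≠ 0 := by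
      have h6 : (2 * i * Real.pi / g / 2 : ℝ) = i * Real.pi / g := by ring
      rw [h6]
      refine (Real.sin_pos_of_pos_of_lt_pi ?_ ?_).ne'
      · have h7 : (0 : ℝ) < i := by
          have : 0 < i := by omega
          exact_mod_cast this
        positivity
      · have h7 : (i : ℝ) < g := by exact_mod_cast hi
        have h8 : (0 : ℝ) < g := by positivity
        rw [div_lt_iff₀ h8]
        nlinarith [Real.pi_pos]
    have h6 : ∑ j ∈ Finset.range g, Real.cos (2 * i * Real.pi / g * j) = 0 := by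
      rcases mul_eq_zero.1 h3 with h7 | h7
      · rcases mul_eq_zero.1 h7 with h8 | h8
        · norm_num at h8
        · exact absurd h8 h5
      · exact h7
    rw [h2, h6, mul_zero, add_zero]
    exact le_of_eq (by ring)

end TJ
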