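import Mathlib

/-! LEAF JB4 (medium, Mathlib only).  The volume of a simplex.

PROOF.  Induction on `n`.  `n = 0`: the space is one point of volume `1`, the set is everything (`0 ≤ t`).  STEP: `MeasurableEquiv.piFinSuccAbove` (or `MeasureTheory.volume_preserving_piFinSuccAbove`) identifies `Fin (n+1) → ℝ` with `ℝ × (Fin n → ℝ)`; the volume of the set is
`∫⁻_{0 ≤ y ≤ t} volume {x | 0 ≤ x, ∑ x ≤ t - y} dy ≥ ∫⁻_{0≤y≤t} ofReal ((t-y)^n/n!) dy = ofReal (t^(n+1)/(n+1)!)` (`MeasureTheory.Measure.prod_apply`, the set is closed, hence measurable).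
Another way: `MeasureTheory.volume_sum_rpow_lt` with `p = 1` gives the volume `(2t)^n/n!` of `{∑ |x_i| < t}`, which is covered by the `2^n` images of the set under sign changes, all of the same volume. -/

namespace TJ

open MeasureTheory in
theorem simplex_vol (n : ℕ) {t : ℝ} (ht : 0 ≤ t) :
    ENNReal.ofReal (t ^ n / (n.factorial : ℝ)) ≤
      MeasureTheory.volume {x : Fin n → ℝ | (∀ i, 0 ≤ x i) ∧ ∑ i, x i ≤ t} := by
  induction n generalizing t with
  | zero =>
    have h : {x : Fin 0 → ℝ | (∀ i, 0 ≤ x i) ∧ ∑ i, x i ≤ t} = Set.univ := by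
      ext x
      simp [ht]
    rw [h, volume_pi, Measure.pi_univ]
    simp
  | succ n ih =>
    have hT : MeasurableSet {p : ℝ × (Fin n → ℝ) | 0 ≤ p.1 ∧ (∀ i, 0 ≤ p.2 i) ∧
        p.1 + ∑ i, p.2 i ≤ t} := by
      have e : {p : ℝ × (Fin n → ℝ) | 0 ≤ p.1 ∧ (∀ i, 0 ≤ p.2 i) ∧ p.1 + ∑ i, p.2 i ≤ t} =
          {p : ℝ × (Fin n → ℝ) | 0 ≤ p.1} ∩ ((⋂ i, {p : ℝ × (Fin n → ℝ) | 0 ≤ p.2 i}) ∩
            {p : ℝ × (Fin n → ℝ) | p.1 + ∑ i, p.2 i ≤ t}) := by
        ext p
        simp
      rw [e]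
      refine (measurableSet_le measurable_const measurable_fst).inter
        ((MeasurableSet.iInter fun i => measurableSet_le measurable_const
          ((measurable_pi_apply i).comp measurable_snd)).inter
          (measurableSet_le (measurable_fst.add (Finset.measurable_fun_sum _ fun i _ =>
            (measurable_pi_apply i).comp measurable_snd)) measurable_const))
    have he := volume_preserving_piFinSuccAbove (fun _ : Fin (n + 1) => ℝ) 0
    have hS : {x : Fin (n + 1) → ℝ | (∀ i, 0 ≤ x i) ∧ ∑ i, x i ≤ t} =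
        (MeasurableEquiv.piFinSuccAbove (fun _ : Fin (n + 1) => ℝ) 0) ⁻¹'
        {p : ℝ × (Fin n → ℝ) | 0 ≤ p.1 ∧ (∀ i, 0 ≤ p.2 i) ∧ p.1 + ∑ i, p.2 i ≤ t} := by
      ext x
      simp only [Set.mem_ofPred_eq, Set.mem_preimage, Fin.forall_fin_succ, Fin.sum_univ_succ,
        MeasurableEquiv.piFinSuccAbove_apply, Fin.insertNthEquiv_symm_apply, Fin.removeNth_apply,
        Fin.zero_succAbove, and_assoc]
    rw [hS, he.measure_preimage hT.nullMeasurableSet, Measure.volume_eq_prod,
      Measure.prod_apply hT]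
    have h1 : ∀ y ∈ Set.Icc (0 : ℝ) t, ENNReal.ofReal ((t - y) ^ n / (n.factorial : ℝ)) ≤
        volume (Prod.mk y ⁻¹' {p : ℝ × (Fin n → ℝ) | 0 ≤ p.1 ∧ (∀ i, 0 ≤ p.2 i) ∧
          p.1 + ∑ i, p.2 i ≤ t}) := by
      intro y hy
      refine (ih (t := t - y) (by linarith [hy.2])).trans (measure_mono ?_)
      rintro x ⟨hx1, hx2⟩
      exact ⟨hy.1, hx1, by
        show y + ∑ i, x i ≤ t
        linarith⟩
    have h2 : ENNReal.ofReal (t ^ (n + 1) / ((n + 1).factorial : ℝ)) =
        ∫⁻ y in Set.Icc (0 : ℝ) t, ENNReal.ofReal ((t - y) ^ n / (n.factorial : ℝ)) := by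
      rw [← ofReal_integral_eq_lintegral_ofReal]
      · rw [integral_Icc_eq_integral_Ioc, ← intervalIntegral.integral_of_le ht,
          intervalIntegral.integral_div,
          intervalIntegral.integral_comp_sub_left (fun y => y ^ n) t, integral_pow]
        congr 1
        rw [Nat.factorial_succ]
        push_cast
        have : (n.factorial : ℝ) ≠ 0 := by positivity
        have h3 : ((n : ℝ) + 1) ≠ 0 := by positivity
        field_simp
        simp
      · exact (Continuous.integrableOn_Icc (by fun_prop))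
      · refine (ae_restrict_iff' measurableSet_Icc).2 (Filter.Eventually.of_forall fun y hy => ?_)
        exact div_nonneg (pow_nonneg (by linarith [hy.2]) _) (by positivity)
    rw [h2]
    calc ∫⁻ y in Set.Icc (0 : ℝ) t, ENNReal.ofReal ((t - y) ^ n / (n.factorial : ℝ))
        ≤ ∫⁻ y in Set.Icc (0 : ℝ) t, volume (Prod.mk y ⁻¹' {p : ℝ × (Fin n → ℝ) | 0 ≤ p.1 ∧
          (∀ i, 0 ≤ p.2 i) ∧ p.1 + ∑ i, p.2 i ≤ t}) :=
          setLIntegral_mono' measurableSet_Icc h1
      _ ≤ _ := setLIntegral_le_lintegral _ _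

end TJ
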