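import Pool.Agent.Lib.MP_021685_agTJ.JB1
import Pool.Agent.Lib.MP_021685_agTJ.JB2

/-! LEAF JB7 (medium).  Rounding.

PROOF.  `s = √q > 1`, `b_i = round (x i)`, so `|b_i - x_i| ≤ 1/2` (`abs_sub_round`).  `u = ∑_{i : Fin g} C (b_i) * bas q i` has degree `< g` (`bas_monic`).  For `j ≤ g`: `(-1)^j (bas q g + u)(y_j) = vv q g x j + (-1)^j ∑_i (b_i - x_i) EE q g i j`, and
`|∑_i (b_i - x_i) EE q g i j| ≤ (1/2)(1 + ∑_{1≤i<g} 2 s^i)` (`EE_zero`, `EE_pos`, `|cos| ≤ 1`) `= 1/2 + (s^g - s)/(s - 1) < s^g/(s - 1)` because `1/2 < s/(s-1)`.  So it is positive: `alt_mem`. -/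

namespace TJ

open Polynomial TI

private theorem JB7_geo (s : ℝ) : ∀ g : ℕ, 1 ≤ g →
    (s - 1) * ∑ i ∈ Finset.range g, (if i = 0 then (1 : ℝ) else 2 * s ^ i) = 2 * s ^ g - s - 1 := by
  intro g hg
  induction g, hg using Nat.le_induction with
  | base =>
    rw [Finset.sum_range_one, if_pos rfl]
    ring
  | succ g hg ih =>
    rw [Finset.sum_range_succ, mul_add, ih, if_neg (by omega)]
    ring

private theorem JB7_EE (q g i j : ℕ) : |EE q g i j| ≤ if i = 0 then (1 : ℝ) else 2 * Real.sqrt q ^ i := by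
  split_ifs with h
  · rw [h, EE_zero, abs_one]
  · rw [EE_pos q g (Nat.pos_of_ne_zero h) j, abs_mul, abs_of_nonneg (by positivity : (0 : ℝ) ≤ 2 * Real.sqrt q ^ i)]
    exact mul_le_of_le_one_right (by positivity) (Real.abs_cos_le_one _)

theorem round_mem {q g : ℕ} (hq : 2 ≤ q) (hg : 1 ≤ g) (x : Fin g → ℝ)
    (hx : ∀ j ≤ g, Real.sqrt q ^ g / (Real.sqrt q - 1) ≤ vv q g x j) :
    bas q g + ∑ i : Fin g, C (round (x i)) * bas q i ∈ Weil q g := by
  have hs : 1 < Real.sqrt q := by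
    rw [Real.lt_sqrt zero_le_one]
    have h2 : (2 : ℝ) ≤ (q : ℝ) := by exact_mod_cast hq
    linarith
  have hs1 : 0 < Real.sqrt q - 1 := sub_pos.2 hs
  refine alt_mem (by omega) hg _ ?_ ?_
  · rw [← Polynomial.mem_degreeLT]
    refine Submodule.sum_mem _ fun i _ => ?_
    rw [Polynomial.mem_degreeLT]
    refine lt_of_le_of_lt Polynomial.degree_le_natDegree ?_
    have h1 : (C (round (x i)) * bas q i).natDegree ≤ i := by
      have h2 := natDegree_C_mul_le (round (x i)) (bas q i)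
      rwa [(bas_monic q i).2] at h2
    exact_mod_cast lt_of_le_of_lt h1 i.2
  · intro j hj
    have hval : ((bas q g + ∑ i : Fin g, C (round (x i)) * bas q i).map (Int.castRingHom ℝ)).eval (node q g j) =
        EE q g g j + ∑ i : Fin g, (round (x i) : ℝ) * EE q g i j := by
      rw [Polynomial.map_add, eval_add, Polynomial.map_sum, eval_finsetSum]
      congr 1
      refine Finset.sum_congr rfl fun i _ => ?_
      rw [Polynomial.map_mul, eval_mul, map_C, eval_C]
      rfl
    have hdec : (-1 : ℝ) ^ j * (EE q g g j + ∑ i : Fin g, (round (x i) : ℝ) * EE q g i j) =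
        vv q g x j + (-1) ^ j * ∑ i : Fin g, ((round (x i) : ℝ) - x i) * EE q g i j := by
      unfold vv
      rw [← mul_add]
      congr 1
      rw [add_assoc, ← Finset.sum_add_distrib]
      congr 1
      refine Finset.sum_congr rfl fun i _ => ?_
      ring
    have hb : |∑ i : Fin g, ((round (x i) : ℝ) - x i) * EE q g i j| ≤
        1 / 2 * ∑ i ∈ Finset.range g, (if i = 0 then (1 : ℝ) else 2 * Real.sqrt q ^ i) := by
      refine (Finset.abs_sum_le_sum_abs _ _).trans ?_
      rw [← Fin.sum_univ_eq_sum_range (fun i : ℕ => if i = 0 then (1 : ℝ) else 2 * Real.sqrt q ^ i) g, Finset.mul_sum]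
      refine Finset.sum_le_sum fun i _ => ?_
      rw [abs_mul, abs_sub_comm]
      exact mul_le_mul (abs_sub_round (x i)) (JB7_EE q g i j) (abs_nonneg _) (by norm_num)
    have hlt : 1 / 2 * ∑ i ∈ Finset.range g, (if i = 0 then (1 : ℝ) else 2 * Real.sqrt q ^ i) <
        Real.sqrt q ^ g / (Real.sqrt q - 1) := by
      rw [lt_div_iff₀ hs1]
      have h1 := JB7_geo (Real.sqrt q) g hg
      nlinarith [h1, hs]
    rw [hval, hdec]
    have h1 : |(-1 : ℝ) ^ j * ∑ i : Fin g, ((round (x i) : ℝ) - x i) * EE q g i j| <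
        Real.sqrt q ^ g / (Real.sqrt q - 1) := by
      rw [abs_mul, abs_pow, abs_neg, abs_one, one_pow, one_mul]
      exact lt_of_le_of_lt hb hlt
    have h2 := neg_lt_of_abs_lt h1
    have h3 := hx j hj
    linarith

end TJ
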