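import Pool.Agent.Lib.MP_021685_agTJ.JG3
import Pool.Agent.Lib.MP_021685_agTI.FMain
import Pool.Agent.Lib.MP_021685_agTI.FMainW

/-! The main theorem, version 2 (`q ≥ 25`). -/

namespace TJ

open Polynomial TI

/-- One hundred per cent of the `r`-tuples of abelian varieties over the field with `q` elements. -/
theorem main (q : ℕ) (hq : 25 ≤ q) (p : ℕ) (hp : 2 ≤ p) (r : ℕ) : ∃ C : ℝ, ∀ Q : ℤ[X], Q.Monic →
    ∃ g₀ : ℕ, ∀ g : ℕ, g₀ ≤ g →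
    ∀ Y : Set ℤ[X], {h | h ∈ Weil q g ∧ ¬ (p : ℤ) ∣ h.coeff 0} ⊆ Y → Y ⊆ Weil q g →
      Y.Finite ∧ Y.Nonempty ∧
        (({t : Fin r → ℤ[X] | (∀ i, t i ∈ Y) ∧
          ¬ (Full q (∏ i, frobPoly q (t i)) ∧ FullWith q (∏ i, frobPoly q (t i)) Q)}).ncard : ℝ) ≤
          C / Real.log g * (Y.ncard : ℝ) ^ r := by
  obtain ⟨C, g₀, hg₀, H⟩ := TJ.good_tuples q hq p hp r
  refine ⟨C, fun Q hQ => ?_⟩
  obtain ⟨D, hD⟩ := criterionWith Q hQ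
  refine ⟨max g₀ D, fun g hg Y hY1 hY2 => ?_⟩
  have hgg₀ : g₀ ≤ g := (le_max_left _ _).trans hg
  have hgD : D ≤ g := (le_max_right _ _).trans hg
  have hg3 : 3 ≤ g := hg₀.trans hgg₀
  obtain ⟨hf, hne, hc⟩ := H g hgg₀ Y hY1 hY2
  refine ⟨hf, hne, le_trans ?_ hc⟩
  have hfin : {t : Fin r → ℤ[X] | (∀ i, t i ∈ Y) ∧ ¬ GoodT q g t}.Finite := by
    apply Set.Finite.subset (Set.Finite.pi' (fun _ : Fin r => hf))
    rintro t ⟨hty, -⟩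
    exact hty
  have hsub : {t : Fin r → ℤ[X] | (∀ i, t i ∈ Y) ∧
      ¬ (Full q (∏ i, frobPoly q (t i)) ∧ FullWith q (∏ i, frobPoly q (t i)) Q)} ⊆
      {t : Fin r → ℤ[X] | (∀ i, t i ∈ Y) ∧ ¬ GoodT q g t} := by
    rintro t ⟨hty, hn⟩
    refine ⟨hty, fun hG => hn ?_⟩
    obtain ⟨hW, hirr, l, hl, hlg, hlq, h1, h2, hsep, hj⟩ := hG
    have hcube : 2 * g + 1 < g ^ 3 := by nlinarith [hg3, sq_nonneg (g - 1 : ℤ)]
    have hcube2 : g ≤ g ^ 3 := Nat.le_self_pow (by norm_num) g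
    have hlg' : ∀ i, 2 * g + 1 < l i := fun i => hcube.trans (hlg i)
    refine ⟨criterion (by omega) t (fun i => (hW i).1) (fun i => (hW i).2.1) hirr l hl hlg' hlq h1 h2 hsep hj,
      hD q g r (by omega) t (fun i => (hW i).1) (fun i => (hW i).2.1) hirr l hl
        (fun i => (hgD.trans hcube2).trans_lt (hlg i)) hlg' hlq h1 h2 hsep hj⟩
  exact_mod_cast Set.ncard_le_ncard hsub hfin

end TJ
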